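import Mathlib

/-!
Prefix contraction of the multiplication by Blaschke products, on formal power series.
-/

set_option autoImplicit false

open PowerSeries Finset

namespace Pool.Agent.Lib.MP_7ab245_nt.LogVar

/-- prefix energy of a power series -/
noncomputable def pn (a : ℂ⟦X⟧) (R : ℕ) : ℝ := ∑ m ∈ range R, ‖coeff m a‖ ^ 2

lemma pn_nonneg (a : ℂ⟦X⟧) (R : ℕ) : 0 ≤ pn a R := by
  unfold pn; positivity

lemma pn_succ (a : ℂ⟦X⟧) (R : ℕ) : pn a (R + 1) = pn a R + ‖coeff R a‖ ^ 2 := by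
  unfold pn; rw [sum_range_succ]

/-- multiplication by `b` does not increase prefix energies -/
def PC (b : ℂ⟦X⟧) : Prop := ∀ (a : ℂ⟦X⟧) (R : ℕ), pn (b * a) R ≤ pn a R

lemma PC_one : PC 1 := by
  intro a R; rw [one_mul]

lemma PC_mul {b c : ℂ⟦X⟧} (hb : PC b) (hc : PC c) : PC (b * c) := by
  intro a R
  rw [mul_assoc]
  exact (hb _ _).trans (hc _ _)

lemma PC_multiset (S : Multiset ℂ) (B : ℂ → ℂ⟦X⟧) (h : ∀ z ∈ S, PC (B z)) :
    PC (S.map B).prod := by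
  induction S using Multiset.induction_on with
  | empty => simpa using PC_one
  | cons a S ih =>
    rw [Multiset.map_cons, Multiset.prod_cons]
    exact PC_mul (h a (Multiset.mem_cons_self a S))
      (ih (fun z hz => h z (Multiset.mem_cons_of_mem hz)))

lemma coeff_XC_zero (z : ℂ) (g : ℂ⟦X⟧) : coeff 0 ((X - C z) * g) = - (z * coeff 0 g) := by
  rw [sub_mul, map_sub, coeff_zero_X_mul, coeff_C_mul, zero_sub]

lemma coeff_XC_succ (z : ℂ) (g : ℂ⟦X⟧) (m : ℕ) :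
    coeff (m + 1) ((X - C z) * g) = coeff m g - z * coeff (m + 1) g := by
  rw [sub_mul, map_sub, coeff_succ_X_mul, coeff_C_mul]

lemma coeff_1C_zero (w : ℂ) (g : ℂ⟦X⟧) : coeff 0 ((1 - C w * X) * g) = coeff 0 g := by
  rw [sub_mul, map_sub, one_mul, mul_assoc, coeff_C_mul, coeff_zero_X_mul, mul_zero, sub_zero]

lemma coeff_1C_succ (w : ℂ) (g : ℂ⟦X⟧) (m : ℕ) :
    coeff (m + 1) ((1 - C w * X) * g) = coeff (m + 1) g - w * coeff m g := by
  rw [sub_mul, map_sub, one_mul, mul_assoc, coeff_C_mul, coeff_succ_X_mul]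

lemma norm_identity (z a b : ℂ) :
    ‖b - (starRingEnd ℂ) z * a‖ ^ 2 - ‖a - z * b‖ ^ 2 = (1 - ‖z‖ ^ 2) * (‖b‖ ^ 2 - ‖a‖ ^ 2) := by
  simp only [← Complex.normSq_eq_norm_sq, Complex.normSq_apply, Complex.sub_re, Complex.sub_im,
    Complex.mul_re, Complex.mul_im, Complex.conj_re, Complex.conj_im]
  ring

lemma prefix_identity (z : ℂ) (g : ℂ⟦X⟧) (R : ℕ) :
    pn ((1 - C ((starRingEnd ℂ) z) * X) * g) (R + 1) =
      pn ((X - C z) * g) (R + 1) + (1 - ‖z‖ ^ 2) * ‖coeff R g‖ ^ 2 := by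
  induction R with
  | zero =>
    unfold pn
    rw [sum_range_one, sum_range_one, coeff_1C_zero, coeff_XC_zero, norm_neg, norm_mul]
    ring
  | succ R ih =>
    rw [pn_succ, ih, pn_succ _ (R + 1), coeff_1C_succ, coeff_XC_succ]
    have := norm_identity z (coeff R g) (coeff (R + 1) g)
    linarith

/-- the Blaschke factor of `z` -/
noncomputable def bl (z : ℂ) : ℂ⟦X⟧ := (X - C z) * (1 - C ((starRingEnd ℂ) z) * X)⁻¹

lemma den_ne (w : ℂ) : constantCoeff (1 - C w * X : ℂ⟦X⟧) ≠ 0 := by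
  simp

lemma bl_mul (z : ℂ) : bl z * (1 - C ((starRingEnd ℂ) z) * X) = X - C z := by
  unfold bl
  rw [mul_assoc, PowerSeries.inv_mul_cancel _ (den_ne _), mul_one]

lemma PC_bl (z : ℂ) (hz : ‖z‖ ≤ 1) : PC (bl z) := by
  intro a R
  rcases R with _ | R
  · simp [pn]
  set g := (1 - C ((starRingEnd ℂ) z) * X : ℂ⟦X⟧)⁻¹ * a with hg
  have h1 : bl z * a = (X - C z) * g := by rw [hg, bl, mul_assoc]
  have h2 : a = (1 - C ((starRingEnd ℂ) z) * X : ℂ⟦X⟧) * g := by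
    rw [hg, ← mul_assoc, PowerSeries.mul_inv_cancel _ (den_ne _), one_mul]
  rw [h1]
  conv_rhs => rw [h2]
  rw [prefix_identity]
  have : 0 ≤ (1 - ‖z‖ ^ 2) * ‖coeff R g‖ ^ 2 := by
    apply mul_nonneg _ (by positivity)
    nlinarith [norm_nonneg z]
  linarith

lemma bl_coeff_zero (z : ℂ) : coeff 0 (bl z) = - z := by
  have h := congrArg (coeff 0) (bl_mul z)
  rw [coeff_zero_eq_constantCoeff_apply, coeff_zero_eq_constantCoeff_apply, map_mul] at h
  simp at h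
  rw [coeff_zero_eq_constantCoeff_apply, h]

/-- energy of the non constant part of a prefix contraction -/
lemma PC_tail {b : ℂ⟦X⟧} (hb : PC b) (R : ℕ) :
    ∑ m ∈ range R, ‖coeff (m + 1) b‖ ^ 2 ≤ 1 - ‖coeff 0 b‖ ^ 2 := by
  have h := hb 1 (R + 1)
  rw [mul_one] at h
  have h1 : pn (1 : ℂ⟦X⟧) (R + 1) = 1 := by
    unfold pn
    rw [sum_range_succ']
    simp [coeff_one]
  have h2 : pn b (R + 1) = ∑ m ∈ range R, ‖coeff (m + 1) b‖ ^ 2 + ‖coeff 0 b‖ ^ 2 := by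
    unfold pn
    rw [sum_range_succ']
  rw [h1, h2] at h
  linarith

end Pool.Agent.Lib.MP_7ab245_nt.LogVar
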