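import Mathlib
import Pool.Agent.Lib.MP_7ab245_nt.LogVar.Prefix

/-!
The norm with weights `1/m^2` on formal power series and its behaviour under prefix contractions.
-/

set_option autoImplicit false

open PowerSeries Finset

namespace Pool.Agent.Lib.MP_7ab245_nt.LogVar

lemma abel_dom (x y w : ℕ → ℝ) (hw : ∀ i, 0 ≤ w i) (hwa : ∀ i, w (i + 1) ≤ w i) (M : ℕ)
    (h : ∀ m ≤ M, ∑ i ∈ range m, x i ≤ ∑ i ∈ range m, y i) :
    ∑ i ∈ range M, x i * w i ≤ ∑ i ∈ range M, y i * w i := by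
  have key : ∀ m ≤ M, (∑ i ∈ range m, y i - ∑ i ∈ range m, x i) * w m ≤
      ∑ i ∈ range m, y i * w i - ∑ i ∈ range m, x i * w i := by
    intro m
    induction m with
    | zero => intro _; simp
    | succ m ih =>
      intro hm
      have h1 := ih (by omega)
      have h2 := h (m + 1) hm
      rw [sum_range_succ, sum_range_succ] at h2
      rw [sum_range_succ, sum_range_succ, sum_range_succ, sum_range_succ]
      have h3 : (∑ i ∈ range m, y i + y m - (∑ i ∈ range m, x i + x m)) * w (m + 1) ≤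
          (∑ i ∈ range m, y i + y m - (∑ i ∈ range m, x i + x m)) * w m :=
        mul_le_mul_of_nonneg_left (hwa m) (by linarith)
      nlinarith
  have h1 := key M le_rfl
  have h2 : 0 ≤ (∑ i ∈ range M, y i - ∑ i ∈ range M, x i) * w M :=
    mul_nonneg (by linarith [h M le_rfl]) (hw M)
  linarith

lemma abel_eq (x w : ℕ → ℝ) (M : ℕ) :
    ∑ i ∈ range M, x i * w i = ∑ i ∈ range M, (∑ j ∈ range (i + 1), x j) * (w i - w (i + 1)) +
      (∑ j ∈ range M, x j) * w M := by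
  induction M with
  | zero => simp
  | succ M ih =>
    rw [sum_range_succ, ih, sum_range_succ _ M, sum_range_succ _ M]
    ring

/-- weighted energy -/
noncomputable def wn (a : ℂ⟦X⟧) (M : ℕ) : ℝ :=
  ∑ i ∈ range M, ‖coeff (i + 1) a‖ ^ 2 * (1 / ((i : ℝ) + 1) ^ 2)

lemma wn_nonneg (a : ℂ⟦X⟧) (M : ℕ) : 0 ≤ wn a M := by unfold wn; positivity

/-- weighted coefficient vector -/
noncomputable def W (M : ℕ) : ℂ⟦X⟧ →ₗ[ℂ] EuclideanSpace ℂ (Fin M) where
  toFun a := WithLp.toLp 2 (fun i : Fin M => coeff ((i : ℕ) + 1) a / (((i : ℕ) : ℂ) + 1))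
  map_add' a b := by
    ext i; simp [add_div]
  map_smul' c a := by
    ext i; simp [mul_div_assoc]

lemma W_apply (M : ℕ) (a : ℂ⟦X⟧) (i : Fin M) :
    W M a i = coeff ((i : ℕ) + 1) a / (((i : ℕ) : ℂ) + 1) := rfl

lemma norm_W_sq (M : ℕ) (a : ℂ⟦X⟧) : ‖W M a‖ ^ 2 = wn a M := by
  rw [EuclideanSpace.norm_sq_eq, wn, ← Fin.sum_univ_eq_sum_range
    (fun i => ‖coeff (i + 1) a‖ ^ 2 * (1 / ((i : ℝ) + 1) ^ 2))]
  refine sum_congr rfl (fun i _ => ?_)
  rw [W_apply, norm_div, div_pow]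
  have : ‖(((i : ℕ) : ℂ) + 1)‖ = ((i : ℕ) : ℝ) + 1 := by
    have h : (((i : ℕ) : ℂ) + 1) = (((i : ℕ) + 1 : ℕ) : ℂ) := by push_cast; ring
    rw [h, Complex.norm_natCast]; push_cast; ring
  rw [this]
  ring

lemma wn_dom (a c : ℂ⟦X⟧) (M : ℕ) (ha : coeff 0 a = 0) (hc : coeff 0 c = 0)
    (h : ∀ R, pn a R ≤ pn c R) : wn a M ≤ wn c M := by
  unfold wn
  apply abel_dom (fun i => ‖coeff (i + 1) a‖ ^ 2) (fun i => ‖coeff (i + 1) c‖ ^ 2)
    (fun i => 1 / ((i : ℝ) + 1) ^ 2) (fun i => by positivity)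
  · intro i
    apply one_div_le_one_div_of_le (by positivity)
    push_cast
    have : (0 : ℝ) ≤ i := by positivity
    nlinarith
  · intro m _
    have h1 := h (m + 1)
    unfold pn at h1
    rw [sum_range_succ', sum_range_succ', ha, hc] at h1
    linarith

lemma norm_W_PC {b : ℂ⟦X⟧} (hb : PC b) (c : ℂ⟦X⟧) (hc : coeff 0 c = 0) (M : ℕ) :
    ‖W M (b * c)‖ ≤ ‖W M c‖ := by
  have h1 : coeff 0 (b * c) = 0 := by
    rw [coeff_zero_eq_constantCoeff_apply, map_mul, ← coeff_zero_eq_constantCoeff_apply (φ := c),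
      hc, mul_zero]
  have h2 := wn_dom (b * c) c M h1 hc (fun R => hb c R)
  rw [← norm_W_sq, ← norm_W_sq] at h2
  exact le_of_sq_le_sq h2 (norm_nonneg _)

/-- `X b'` has weighted norm at most one -/
lemma norm_W_deriv {b : ℂ⟦X⟧} (hb : PC b) (M : ℕ) :
    ‖W M (X * derivative ℂ b)‖ ≤ 1 := by
  have h1 : wn (X * derivative ℂ b) M = ∑ i ∈ range M, ‖coeff (i + 1) b‖ ^ 2 := by
    unfold wn
    refine sum_congr rfl (fun i _ => ?_)
    rw [coeff_succ_X_mul, coeff_derivative, norm_mul, mul_pow]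
    have : ‖(((i : ℕ) : ℂ) + 1)‖ = ((i : ℕ) : ℝ) + 1 := by
      have h : (((i : ℕ) : ℂ) + 1) = (((i : ℕ) + 1 : ℕ) : ℂ) := by push_cast; ring
      rw [h, Complex.norm_natCast]; push_cast; ring
    rw [this]
    field_simp
  have h2 := PC_tail hb M
  rw [← h1, ← norm_W_sq] at h2
  nlinarith [norm_nonneg (W M (X * derivative ℂ b)), sq_nonneg ‖coeff 0 b‖]

end Pool.Agent.Lib.MP_7ab245_nt.LogVar
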