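import Mathlib
import Pool.Agent.Lib.MP_7ab245_nt.LogVar.Weights

/-!
The series `d X^d/(1-X^d)` and the effect of a contraction close to a constant on it.
-/

set_option autoImplicit false

open PowerSeries Finset

namespace Pool.Agent.Lib.MP_7ab245_nt.LogVar

/-- the series `d X^d/(1-X^d)` -/
noncomputable def Pd (d : ℕ) : ℂ⟦X⟧ :=
  PowerSeries.mk fun n => if d ∣ n ∧ n ≠ 0 then (d : ℂ) else 0

lemma coeff_Pd (d n : ℕ) : coeff n (Pd d) = if d ∣ n ∧ n ≠ 0 then (d : ℂ) else 0 := by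
  rw [Pd, coeff_mk]

/-- prefix vector -/
noncomputable def Pf (R : ℕ) : ℂ⟦X⟧ →ₗ[ℂ] EuclideanSpace ℂ (Fin R) where
  toFun a := WithLp.toLp 2 (fun i : Fin R => coeff (i : ℕ) a)
  map_add' a b := by ext i; simp
  map_smul' c a := by ext i; simp

lemma Pf_apply (R : ℕ) (a : ℂ⟦X⟧) (i : Fin R) : Pf R a i = coeff (i : ℕ) a := rfl

lemma norm_Pf_sq (R : ℕ) (a : ℂ⟦X⟧) : ‖Pf R a‖ ^ 2 = pn a R := by
  rw [EuclideanSpace.norm_sq_eq, pn, ← Fin.sum_univ_eq_sum_range (fun i => ‖coeff i a‖ ^ 2)]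
  refine sum_congr rfl (fun i _ => ?_)
  rw [Pf_apply]

lemma norm_Pf_PC {b : ℂ⟦X⟧} (hb : PC b) (c : ℂ⟦X⟧) (R : ℕ) : ‖Pf R (b * c)‖ ≤ ‖Pf R c‖ := by
  have h := hb c R
  rw [← norm_Pf_sq, ← norm_Pf_sq] at h
  exact le_of_sq_le_sq h (norm_nonneg _)

lemma PC_X : PC (X : ℂ⟦X⟧) := by
  have h := PC_bl 0 (by simp)
  have e : bl 0 = (X : ℂ⟦X⟧) := by
    have := bl_mul 0
    simpa using this
  rwa [e] at h

lemma PC_X_pow (n : ℕ) : PC (X ^ n : ℂ⟦X⟧) := by
  induction n with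
  | zero => simpa using PC_one
  | succ n ih => rw [pow_succ]; exact PC_mul ih PC_X

lemma Pf_congr (R : ℕ) (a c : ℂ⟦X⟧) (h : ∀ i < R, coeff i a = coeff i c) : Pf R a = Pf R c := by
  ext i
  rw [Pf_apply, Pf_apply, h i i.2]

lemma coeff_mul_congr (c p q : ℂ⟦X⟧) (R : ℕ) (h : ∀ i < R, coeff i p = coeff i q) :
    ∀ i < R, coeff i (c * p) = coeff i (c * q) := by
  intro i hi
  rw [coeff_mul, coeff_mul]
  refine sum_congr rfl (fun x hx => ?_)
  rw [HasAntidiagonal.mem_antidiagonal] at hx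
  rw [h x.2 (by omega)]

lemma coeff_Pd_trunc (d m : ℕ) (hd : 1 ≤ d) : ∀ i < m + 1, coeff i (Pd d) =
    coeff i (∑ j ∈ range (m / d), C (d : ℂ) * X ^ ((j + 1) * d)) := by
  intro i hi
  rw [coeff_Pd, map_sum]
  simp_rw [coeff_C_mul, coeff_X_pow]
  by_cases h : d ∣ i ∧ i ≠ 0
  · rw [if_pos h]
    obtain ⟨⟨t, rfl⟩, h2⟩ := h
    have ht : 1 ≤ t := by
      rcases Nat.eq_zero_or_pos t with rfl | h3
      · simp at h2
      · exact h3
    have htm : t ≤ m / d := by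
      rw [Nat.le_div_iff_mul_le (by omega), Nat.mul_comm]; omega
    rw [sum_eq_single (t - 1)]
    · have : (t - 1 + 1) * d = d * t := by rw [Nat.sub_add_cancel ht, Nat.mul_comm]
      rw [this, if_pos rfl, mul_one]
    · intro j _ hj
      rw [if_neg, mul_zero]
      intro h3
      rw [Nat.mul_comm] at h3
      have := Nat.eq_of_mul_eq_mul_right (by omega) h3
      omega
    · intro h3
      rw [mem_range] at h3
      omega
  · rw [if_neg h]
    symm
    apply sum_eq_zero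
    intro j _
    rw [if_neg, mul_zero]
    rintro rfl
    exact h ⟨Dvd.intro_left _ rfl, by positivity⟩

lemma norm_Pf_mul_Pd (c : ℂ⟦X⟧) (d m : ℕ) (hd : 1 ≤ d) :
    ‖Pf (m + 1) (c * Pd d)‖ ≤ m * ‖Pf (m + 1) c‖ := by
  have h1 : Pf (m + 1) (c * Pd d) = ∑ j ∈ range (m / d), (d : ℂ) • Pf (m + 1) (X ^ ((j + 1) * d) * c) := by
    rw [Pf_congr (m + 1) _ _ (coeff_mul_congr c _ _ (m + 1) (coeff_Pd_trunc d m hd))]
    rw [mul_sum, map_sum]
    refine sum_congr rfl (fun j _ => ?_)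
    rw [← map_smul]
    congr 1
    rw [smul_eq_C_mul]
    ring
  rw [h1]
  refine (norm_sum_le _ _).trans ?_
  calc ∑ j ∈ range (m / d), ‖(d : ℂ) • Pf (m + 1) (X ^ ((j + 1) * d) * c)‖
      ≤ ∑ j ∈ range (m / d), (d : ℝ) * ‖Pf (m + 1) c‖ := by
        refine sum_le_sum (fun j _ => ?_)
        rw [norm_smul, Complex.norm_natCast]
        exact mul_le_mul_of_nonneg_left (norm_Pf_PC (PC_X_pow _) c _) (by positivity)
    _ = ((m / d * d : ℕ) : ℝ) * ‖Pf (m + 1) c‖ := by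
        rw [sum_const, card_range, nsmul_eq_mul]; push_cast; ring
    _ ≤ m * ‖Pf (m + 1) c‖ := by
        apply mul_le_mul_of_nonneg_right _ (norm_nonneg _)
        exact_mod_cast Nat.div_mul_le_self m d

lemma pn_Pd_le (d m : ℕ) : pn (Pd d) (m + 1) ≤ d * m := by
  unfold pn
  rw [sum_range_succ', coeff_Pd, if_neg (by simp), norm_zero]
  have h1 : ∀ i ∈ range m, ‖coeff (i + 1) (Pd d)‖ ^ 2 = if d ∣ i + 1 then (d : ℝ) ^ 2 else 0 := by
    intro i _
    rw [coeff_Pd]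
    by_cases h : d ∣ i + 1
    · rw [if_pos ⟨h, by omega⟩, if_pos h, Complex.norm_natCast]
    · rw [if_neg (fun h' => h h'.1), if_neg h]; simp
  rw [sum_congr rfl h1, ← sum_filter, sum_const, Nat.card_multiples, nsmul_eq_mul]
  have h2 : ((m / d * d : ℕ) : ℝ) ≤ m := by exact_mod_cast Nat.div_mul_le_self m d
  push_cast at h2
  have h3 : (0 : ℝ) ≤ d := by positivity
  have h4 := mul_le_mul_of_nonneg_left h2 h3
  nlinarith

lemma sum_inv_le_log (a : ℕ) (ha : 1 ≤ a) (b : ℕ) (hb : a ≤ b) :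
    ∑ i ∈ Ico a b, (1 : ℝ) / ((i : ℝ) + 1) ≤ Real.log b - Real.log a := by
  induction b, hb using Nat.le_induction with
  | base => simp
  | succ b hb ih =>
    rw [sum_Ico_succ_top hb]
    have hb0 : (0 : ℝ) < b := by exact_mod_cast (by omega : 0 < b)
    have h1 := Real.one_sub_inv_le_log_of_pos (by positivity : (0 : ℝ) < ((b : ℝ) + 1) / b)
    rw [Real.log_div (by positivity) (by positivity)] at h1
    have h2 : 1 - (((b : ℝ) + 1) / b)⁻¹ = 1 / ((b : ℝ) + 1) := by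
      field_simp; ring
    rw [h2] at h1
    push_cast
    linarith

lemma sum_inv_sq_le (a : ℕ) (ha : 1 ≤ a) (b : ℕ) (hb : a ≤ b) :
    ∑ i ∈ Ico a b, (1 : ℝ) / ((i : ℝ) + 1) ^ 2 ≤ 1 / (a : ℝ) - 1 / (b : ℝ) := by
  induction b, hb using Nat.le_induction with
  | base => simp
  | succ b hb ih =>
    rw [sum_Ico_succ_top hb]
    have hb0 : (0 : ℝ) < b := by exact_mod_cast (by omega : 0 < b)
    have h2 : 1 / ((b : ℝ) + 1) ^ 2 ≤ 1 / (b : ℝ) - 1 / (((b + 1 : ℕ)) : ℝ) := by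
      push_cast
      rw [div_sub_div _ _ (by positivity) (by positivity), div_le_div_iff₀ (by positivity) (by positivity)]
      nlinarith
    linarith

theorem wn_Pd {b : ℂ⟦X⟧} (hb : PC b) (d : ℕ) (hd : 1 ≤ d) (M K : ℕ) (hK : 1 ≤ K) :
    wn ((b - C (coeff 0 b)) * Pd d) M ≤
      (1 - ‖coeff 0 b‖ ^ 2) * (1 + 2 * Real.log K) + 8 / (K : ℝ) := by
  set δ := 1 - ‖coeff 0 b‖ ^ 2 with hδ
  set c : ℂ⟦X⟧ := b - C (coeff 0 b) with hc
  set v := c * Pd d with hv
  have hc0 : coeff 0 c = 0 := by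
    rw [hc, map_sub, coeff_zero_C, sub_self]
  have hcs : ∀ i, coeff (i + 1) c = coeff (i + 1) b := by
    intro i
    rw [hc, map_sub, coeff_C, if_neg (by omega), sub_zero]
  have hδ0 : 0 ≤ δ := by
    have := PC_tail hb 0
    rw [range_zero, sum_empty] at this
    exact this
  have hb0 : ‖coeff 0 b‖ ≤ 1 := by nlinarith [norm_nonneg (coeff 0 b)]
  -- vanishing of low coefficients
  have hvan : ∀ n ≤ d, coeff n v = 0 := by
    intro n hn
    rw [hv, coeff_mul]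
    apply sum_eq_zero
    intro x hx
    rw [HasAntidiagonal.mem_antidiagonal] at hx
    rcases Nat.eq_zero_or_pos x.1 with h | h
    · rw [h, hc0, zero_mul]
    · rw [coeff_Pd, if_neg, mul_zero]
      rintro ⟨h1, h2⟩
      have := Nat.le_of_dvd (by omega) h1
      omega
  have hV : ∀ m, ∑ j ∈ range m, ‖coeff (j + 1) v‖ ^ 2 = ‖Pf (m + 1) v‖ ^ 2 := by
    intro m
    rw [norm_Pf_sq, pn, sum_range_succ' _ m, hvan 0 (by omega)]
    simp
  have hV0 : ∀ m ≤ d, ∑ j ∈ range m, ‖coeff (j + 1) v‖ ^ 2 = 0 := by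
    intro m hm
    apply sum_eq_zero
    intro j hj
    rw [mem_range] at hj
    rw [hvan (j + 1) (by omega)]; simp
  have hVa : ∀ m : ℕ, ∑ j ∈ range m, ‖coeff (j + 1) v‖ ^ 2 ≤ δ * (m : ℝ) ^ 2 := by
    intro m
    rw [hV]
    have h1 := norm_Pf_mul_Pd c d m hd
    have h2 : ‖Pf (m + 1) c‖ ^ 2 ≤ δ := by
      rw [norm_Pf_sq, pn, sum_range_succ', hc0]
      simp_rw [hcs]
      have := PC_tail hb m
      rw [norm_zero]
      linarith
    calc ‖Pf (m + 1) v‖ ^ 2 ≤ (m * ‖Pf (m + 1) c‖) ^ 2 := pow_le_pow_left₀ (norm_nonneg _) h1 2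
      _ = ‖Pf (m + 1) c‖ ^ 2 * (m : ℝ) ^ 2 := by ring
      _ ≤ δ * (m : ℝ) ^ 2 := mul_le_mul_of_nonneg_right h2 (by positivity)
  have hVb : ∀ m : ℕ, ∑ j ∈ range m, ‖coeff (j + 1) v‖ ^ 2 ≤ 4 * (d * (m : ℝ)) := by
    intro m
    rw [hV]
    have h1 : ‖Pf (m + 1) v‖ ≤ 2 * ‖Pf (m + 1) (Pd d)‖ := by
      have h2 : v = b * Pd d - (coeff 0 b) • Pd d := by
        rw [hv, hc, sub_mul, smul_eq_C_mul]
      rw [h2, map_sub, map_smul]
      refine (norm_sub_le _ _).trans ?_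
      rw [norm_smul]
      have h3 := norm_Pf_PC hb (Pd d) (m + 1)
      have h4 := mul_le_mul_of_nonneg_right hb0 (norm_nonneg (Pf (m + 1) (Pd d)))
      linarith
    have h5 := pn_Pd_le d m
    rw [← norm_Pf_sq] at h5
    have h6 := pow_le_pow_left₀ (norm_nonneg _) h1 2
    nlinarith
  -- Abel summation
  have hab := abel_eq (fun i => ‖coeff (i + 1) v‖ ^ 2) (fun i => 1 / ((i : ℝ) + 1) ^ 2) M
  have hwn : wn v M = ∑ i ∈ range M, ‖coeff (i + 1) v‖ ^ 2 * (1 / ((i : ℝ) + 1) ^ 2) := rfl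
  rw [hwn, hab]
  have hw : ∀ i : ℕ, 1 / ((i : ℝ) + 1) ^ 2 - 1 / (((i + 1 : ℕ) : ℝ) + 1) ^ 2 ≤ 2 / ((i : ℝ) + 1) ^ 3 := by
    intro i
    push_cast
    have hi : (0 : ℝ) ≤ i := by positivity
    rw [div_sub_div _ _ (by positivity) (by positivity), div_le_div_iff₀ (by positivity) (by positivity)]
    have : ((i : ℝ) + 1) ^ 2 > 0 := by positivity
    ring_nf
    nlinarith [pow_nonneg hi 2, pow_nonneg hi 3, pow_nonneg hi 4, pow_nonneg hi 5]
  have hw0 : ∀ i : ℕ, 0 ≤ 1 / ((i : ℝ) + 1) ^ 2 - 1 / (((i + 1 : ℕ) : ℝ) + 1) ^ 2 := by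
    intro i
    push_cast
    rw [sub_nonneg]
    apply one_div_le_one_div_of_le (by positivity)
    have hi : (0 : ℝ) ≤ i := by positivity
    nlinarith
  have hterm : ∀ i ∈ range M, (∑ j ∈ range (i + 1), ‖coeff (j + 1) v‖ ^ 2) *
      (1 / ((i : ℝ) + 1) ^ 2 - 1 / (((i + 1 : ℕ) : ℝ) + 1) ^ 2) ≤
      (if d ≤ i ∧ i < K * d then 2 * δ * (1 / ((i : ℝ) + 1)) else 0) +
      (if K * d ≤ i then 8 * d * (1 / ((i : ℝ) + 1) ^ 2) else 0) := by
    intro i _
    rcases Nat.lt_or_ge i d with h1 | h1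
    · rw [hV0 (i + 1) (by omega), zero_mul]
      have : 0 ≤ (1 : ℝ) / ((i : ℝ) + 1) := by positivity
      have h3 : (0 : ℝ) ≤ if d ≤ i ∧ i < K * d then 2 * δ * (1 / ((i : ℝ) + 1)) else 0 := by
        split_ifs
        · positivity
        · exact le_rfl
      have h4 : (0 : ℝ) ≤ if K * d ≤ i then 8 * d * (1 / ((i : ℝ) + 1) ^ 2) else 0 := by
        split_ifs
        · positivity
        · exact le_rfl
      linarith
    · rcases Nat.lt_or_ge i (K * d) with h2 | h2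
      · rw [if_pos ⟨h1, h2⟩, if_neg (by omega), add_zero]
        have h3 := hVa (i + 1)
        calc (∑ j ∈ range (i + 1), ‖coeff (j + 1) v‖ ^ 2) *
              (1 / ((i : ℝ) + 1) ^ 2 - 1 / (((i + 1 : ℕ) : ℝ) + 1) ^ 2)
            ≤ (δ * ((i + 1 : ℕ) : ℝ) ^ 2) * (2 / ((i : ℝ) + 1) ^ 3) :=
              mul_le_mul h3 (hw i) (hw0 i) (by positivity)
          _ = 2 * δ * (1 / ((i : ℝ) + 1)) := by
              push_cast
              field_simp
      · rw [if_neg (by omega), if_pos h2, zero_add]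
        have h3 := hVb (i + 1)
        calc (∑ j ∈ range (i + 1), ‖coeff (j + 1) v‖ ^ 2) *
              (1 / ((i : ℝ) + 1) ^ 2 - 1 / (((i + 1 : ℕ) : ℝ) + 1) ^ 2)
            ≤ (4 * (d * ((i + 1 : ℕ) : ℝ))) * (2 / ((i : ℝ) + 1) ^ 3) :=
              mul_le_mul h3 (hw i) (hw0 i) (by positivity)
          _ = 8 * d * (1 / ((i : ℝ) + 1) ^ 2) := by
              push_cast
              field_simp
              ring
  have hKd : d ≤ K * d := Nat.le_mul_of_pos_left d (by omega)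
  have hs1 : ∑ i ∈ range M, (if d ≤ i ∧ i < K * d then 2 * δ * (1 / ((i : ℝ) + 1)) else 0) ≤
      2 * δ * Real.log K := by
    rw [← sum_filter]
    calc ∑ i ∈ (range M).filter (fun i => d ≤ i ∧ i < K * d), 2 * δ * (1 / ((i : ℝ) + 1))
        ≤ ∑ i ∈ Ico d (K * d), 2 * δ * (1 / ((i : ℝ) + 1)) := by
          apply sum_le_sum_of_subset_of_nonneg
          · intro i hi
            rw [mem_filter] at hi
            rw [mem_Ico]; exact hi.2
          · intro _ _ _; positivity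
      _ = 2 * δ * ∑ i ∈ Ico d (K * d), (1 / ((i : ℝ) + 1)) := by rw [mul_sum]
      _ ≤ 2 * δ * (Real.log (K * d : ℕ) - Real.log d) :=
          mul_le_mul_of_nonneg_left (sum_inv_le_log d hd (K * d) hKd) (by positivity)
      _ = 2 * δ * Real.log K := by
          push_cast
          have hd' : (d : ℝ) ≠ 0 := by
            have : (0 : ℝ) < d := by exact_mod_cast hd
            exact this.ne'
          have hK' : (K : ℝ) ≠ 0 := by
            have : (0 : ℝ) < K := by exact_mod_cast hK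
            exact this.ne'
          rw [Real.log_mul hK' hd']; ring
  have hs2 : ∑ i ∈ range M, (if K * d ≤ i then 8 * (d : ℝ) * (1 / ((i : ℝ) + 1) ^ 2) else 0) ≤
      8 / (K : ℝ) := by
    rw [← sum_filter]
    calc ∑ i ∈ (range M).filter (fun i => K * d ≤ i), 8 * (d : ℝ) * (1 / ((i : ℝ) + 1) ^ 2)
        ≤ ∑ i ∈ Ico (K * d) (M + K * d), 8 * (d : ℝ) * (1 / ((i : ℝ) + 1) ^ 2) := by
          apply sum_le_sum_of_subset_of_nonneg
          · intro i hi
            rw [mem_filter, mem_range] at hi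
            rw [mem_Ico]; exact ⟨hi.2, by omega⟩
          · intro _ _ _; positivity
      _ = 8 * (d : ℝ) * ∑ i ∈ Ico (K * d) (M + K * d), (1 / ((i : ℝ) + 1) ^ 2) := by rw [mul_sum]
      _ ≤ 8 * (d : ℝ) * (1 / ((K * d : ℕ) : ℝ)) := by
          apply mul_le_mul_of_nonneg_left _ (by positivity)
          have := sum_inv_sq_le (K * d) (by omega) (M + K * d) (Nat.le_add_left _ _)
          have h0 : (0 : ℝ) ≤ 1 / ((M + K * d : ℕ) : ℝ) := by positivity
          linarith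
      _ = 8 / K := by
          push_cast
          have hd' : (d : ℝ) ≠ 0 := by
            have : (0 : ℝ) < d := by exact_mod_cast hd
            exact this.ne'
          field_simp
  have hbd : (∑ j ∈ range M, ‖coeff (j + 1) v‖ ^ 2) * (1 / ((M : ℝ) + 1) ^ 2) ≤ δ := by
    have h1 := hVa M
    calc (∑ j ∈ range M, ‖coeff (j + 1) v‖ ^ 2) * (1 / ((M : ℝ) + 1) ^ 2)
        ≤ (δ * (M : ℝ) ^ 2) * (1 / ((M : ℝ) + 1) ^ 2) := mul_le_mul_of_nonneg_right h1 (by positivity)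
      _ ≤ δ := by
          rw [mul_one_div, div_le_iff₀ (by positivity)]
          apply mul_le_mul_of_nonneg_left _ hδ0
          have : (0 : ℝ) ≤ M := by positivity
          nlinarith
  have hsum := sum_le_sum hterm
  rw [sum_add_distrib] at hsum
  linarith

end Pool.Agent.Lib.MP_7ab245_nt.LogVar
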