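import Mathlib
import Pool.Agent.Lib.MP_7ab245_nt.LogVar.Weights2

/-!
Formal Euler product of an integral power series and logarithmic derivatives.
-/

set_option autoImplicit false

open PowerSeries Finset

namespace Pool.Agent.Lib.MP_7ab245_nt.LogVar

/-- geometric series in `X^d` -/
noncomputable def geo (d : ℕ) : ℤ⟦X⟧ := PowerSeries.mk fun n => if d ∣ n then 1 else 0

lemma geo_mul (d : ℕ) (hd : 1 ≤ d) : geo d * (1 - X ^ d) = 1 := by
  ext n
  rw [mul_sub, mul_one, map_sub, coeff_mul_X_pow', geo, coeff_mk, coeff_one]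
  by_cases h0 : n = 0
  · subst h0
    rw [if_pos (dvd_zero d), if_neg (by omega), if_pos rfl, sub_zero]
  · rw [if_neg h0]
    by_cases h1 : d ≤ n
    · rw [if_pos h1, coeff_mk]
      have : d ∣ n ↔ d ∣ n - d := by
        constructor
        · intro h; exact Nat.dvd_sub h dvd_rfl
        · intro h
          have := (Nat.dvd_add_right (dvd_refl d)).mpr h
          rwa [Nat.add_sub_cancel' h1] at this
      by_cases h2 : d ∣ n
      · rw [if_pos h2, if_pos (this.mp h2), sub_self]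
      · rw [if_neg h2, if_neg (fun h => h2 (this.mpr h)), sub_self]
    · rw [if_neg h1, if_neg, sub_zero]
      intro h
      exact h1 (Nat.le_of_dvd (by omega) h)

/-- `u = 1 + α X^m + ...` -/
def QQ (m : ℕ) (α : ℤ) (u : ℤ⟦X⟧) : Prop :=
  coeff 0 u = 1 ∧ (∀ i, 1 ≤ i → i < m → coeff i u = 0) ∧ coeff m u = α

lemma QQ_one (m : ℕ) (hm : 1 ≤ m) : QQ m 0 1 := by
  refine ⟨by simp, fun i hi _ => ?_, ?_⟩
  · rw [coeff_one, if_neg (by omega)]
  · rw [coeff_one, if_neg (by omega)]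

lemma QQ_mul {m : ℕ} (hm : 1 ≤ m) {α β : ℤ} {u v : ℤ⟦X⟧} (hu : QQ m α u) (hv : QQ m β v) :
    QQ m (α + β) (u * v) := by
  have key : ∀ i, 1 ≤ i → i ≤ m → coeff i (u * v) = coeff i u + coeff i v := by
    intro i hi him
    rw [coeff_mul]
    have h2 : ∀ x ∈ antidiagonal i, x ≠ (i, 0) ∧ x ≠ (0, i) → coeff x.1 u * coeff x.2 v = 0 := by
      intro x hx hne
      rw [HasAntidiagonal.mem_antidiagonal] at hx
      have h3 : 1 ≤ x.1 := by
        by_contra h
        have h4 : x.1 = 0 := by omega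
        apply hne.2
        ext
        · exact h4
        · simp; omega
      have h5 : x.1 < i := by
        by_contra h
        apply hne.1
        ext
        · simp; omega
        · simp; omega
      rw [hu.2.1 x.1 h3 (by omega), zero_mul]
    rw [sum_eq_add (i, 0) (0, i) (by intro h; simp at h; omega) (fun x hx hne => h2 x hx hne)
      (fun h => absurd (by simp) h) (fun h => absurd (by simp) h)]
    simp only []
    rw [hu.1, hv.1]; ring
  refine ⟨?_, ?_, ?_⟩
  · rw [coeff_zero_eq_constantCoeff_apply, map_mul, ← coeff_zero_eq_constantCoeff_apply,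
      ← coeff_zero_eq_constantCoeff_apply, hu.1, hv.1, mul_one]
  · intro i hi him
    rw [key i hi him.le, hu.2.1 i hi him, hv.2.1 i hi him, add_zero]
  · rw [key m hm le_rfl, hu.2.2, hv.2.2]

lemma QQ_pow {m : ℕ} (hm : 1 ≤ m) {α : ℤ} {u : ℤ⟦X⟧} (hu : QQ m α u) (k : ℕ) :
    QQ m (k * α) (u ^ k) := by
  induction k with
  | zero => simpa using QQ_one m hm
  | succ k ih =>
    rw [pow_succ]
    have := QQ_mul hm ih hu
    have e : ((k + 1 : ℕ) : ℤ) * α = k * α + α := by push_cast; ring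
    rw [e]; exact this

lemma QQ_sub (m : ℕ) (hm : 1 ≤ m) : QQ m (-1) (1 - X ^ m) := by
  refine ⟨?_, ?_, ?_⟩
  · rw [map_sub, coeff_X_pow, if_neg (by omega)]; simp
  · intro i hi him
    rw [map_sub, coeff_X_pow, if_neg (by omega), coeff_one, if_neg (by omega)]; simp
  · rw [map_sub, coeff_X_pow, if_pos rfl, coeff_one, if_neg (by omega)]; simp

lemma QQ_geo (m : ℕ) : QQ m 1 (geo m) := by
  refine ⟨?_, ?_, ?_⟩
  · rw [geo, coeff_mk, if_pos (dvd_zero m)]
  · intro i hi him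
    rw [geo, coeff_mk, if_neg]
    intro h
    exact absurd (Nat.le_of_dvd (by omega) h) (by omega)
  · rw [geo, coeff_mk, if_pos dvd_rfl]

/-- successive remainders of the Euler product expansion -/
noncomputable def Rs (F : ℤ⟦X⟧) : ℕ → ℤ⟦X⟧
  | 0 => F
  | (n + 1) => Rs F n * ((1 - X ^ (n + 1)) ^ (coeff (n + 1) (Rs F n)).toNat *
      geo (n + 1) ^ (-(coeff (n + 1) (Rs F n))).toNat)

noncomputable def ae (F : ℤ⟦X⟧) (d : ℕ) : ℕ := (coeff d (Rs F (d - 1))).toNat
noncomputable def be (F : ℤ⟦X⟧) (d : ℕ) : ℕ := (-(coeff d (Rs F (d - 1)))).toNat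
/-- exponents of the Euler product -/
noncomputable def ex (F : ℤ⟦X⟧) (d : ℕ) : ℤ := -(coeff d (Rs F (d - 1)))

lemma ex_eq (F : ℤ⟦X⟧) (d : ℕ) : ex F d = (be F d : ℤ) - (ae F d : ℤ) := by
  unfold ex be ae
  have h1 := Int.toNat_sub_toNat_neg (coeff d (Rs F (d - 1)))
  omega

lemma Rs_spec (F : ℤ⟦X⟧) (hF : coeff 0 F = 1) (n : ℕ) :
    coeff 0 (Rs F n) = 1 ∧ ∀ i, 1 ≤ i → i ≤ n → coeff i (Rs F n) = 0 := by
  induction n with
  | zero => exact ⟨hF, fun i hi hi' => by omega⟩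
  | succ n ih =>
    set c := coeff (n + 1) (Rs F n) with hc
    have h1 : QQ (n + 1) c (Rs F n) := ⟨ih.1, fun i hi hi' => ih.2 i hi (by omega), hc.symm⟩
    have h2 : QQ (n + 1) ((c.toNat : ℤ) * (-1) + ((-c).toNat : ℤ) * 1)
        ((1 - X ^ (n + 1)) ^ c.toNat * geo (n + 1) ^ (-c).toNat) :=
      QQ_mul (by omega) (QQ_pow (by omega) (QQ_sub (n + 1) (by omega)) _)
        (QQ_pow (by omega) (QQ_geo (n + 1)) _)
    have h3 := QQ_mul (by omega) h1 h2
    have h4 : c + ((c.toNat : ℤ) * (-1) + ((-c).toNat : ℤ) * 1) = 0 := by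
      have := Int.toNat_sub_toNat_neg c
      omega
    rw [h4] at h3
    have h5 : Rs F (n + 1) = Rs F n * ((1 - X ^ (n + 1)) ^ c.toNat * geo (n + 1) ^ (-c).toNat) := rfl
    rw [← h5] at h3
    refine ⟨h3.1, fun i hi hi' => ?_⟩
    rcases Nat.lt_or_ge i (n + 1) with h | h
    · exact h3.2.1 i hi h
    · have : i = n + 1 := by omega
      rw [this]; exact h3.2.2

lemma Rs_prod (F : ℤ⟦X⟧) (n : ℕ) :
    F * ∏ d ∈ Icc 1 n, (1 - X ^ d) ^ ae F d = Rs F n * ∏ d ∈ Icc 1 n, (1 - X ^ d) ^ be F d := by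
  induction n with
  | zero => simp [Rs]
  | succ n ih =>
    rw [prod_Icc_succ_top (by omega), prod_Icc_succ_top (by omega), ← mul_assoc, ih]
    have h1 : ae F (n + 1) = (coeff (n + 1) (Rs F n)).toNat := by simp [ae]
    have h2 : be F (n + 1) = (-(coeff (n + 1) (Rs F n))).toNat := by simp [be]
    have h5 : Rs F (n + 1) = Rs F n * ((1 - X ^ (n + 1)) ^ ae F (n + 1) *
      geo (n + 1) ^ be F (n + 1)) := by rw [h1, h2]; rfl
    rw [h5]
    have h6 : geo (n + 1) ^ be F (n + 1) * (1 - X ^ (n + 1)) ^ be F (n + 1) = 1 := by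
      rw [← mul_pow, geo_mul (n + 1) (by omega), one_pow]
    calc _ = Rs F n * (∏ d ∈ Icc 1 n, (1 - X ^ d) ^ be F d) * (1 - X ^ (n + 1)) ^ ae F (n + 1) *
          (geo (n + 1) ^ be F (n + 1) * (1 - X ^ (n + 1)) ^ be F (n + 1)) := by rw [h6, mul_one]
      _ = _ := by ring

lemma Rs_eq_one (F : ℤ⟦X⟧) (hF : coeff 0 F = 1) (N : ℕ) (h : ∀ d, N < d → ex F d = 0) :
    Rs F N = 1 := by
  have h1 : ∀ k, Rs F (N + k) = Rs F N := by
    intro k
    induction k with
    | zero => rfl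
    | succ k ih =>
      have h2 := h (N + k + 1) (by omega)
      have h3 : coeff (N + k + 1) (Rs F (N + k)) = 0 := by
        unfold ex at h2
        rw [Nat.add_sub_cancel] at h2
        omega
      have h5 : Rs F (N + (k + 1)) = Rs F (N + k) * ((1 - X ^ (N + k + 1)) ^
        (coeff (N + k + 1) (Rs F (N + k))).toNat *
        geo (N + k + 1) ^ (-(coeff (N + k + 1) (Rs F (N + k)))).toNat) := rfl
      rw [h5, h3, ih]; simp
  ext i
  rw [← h1 i, coeff_one]
  by_cases hi : i = 0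
  · rw [hi, if_pos rfl]; exact (Rs_spec F hF _).1
  · rw [if_neg hi]; exact (Rs_spec F hF _).2 i (by omega) (by omega)

end Pool.Agent.Lib.MP_7ab245_nt.LogVar
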