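import Mathlib

/-!
Lower bound for sums over divisors: if `σ m = ∑_{d ∣ m} (d/m) e_d` with at most `N` nonzero
`e_d`, then `∑ e_d ^ 2 ≪ log ^ 2 N * ∑ σ_m ^ 2`.
-/

set_option autoImplicit false

open Finset ArithmeticFunction ArithmeticFunction.Moebius

namespace Pool.Agent.Lib.MP_7ab245_nt.LogVar

noncomputable def HH (y : ℕ) : ℝ := ∑ j ∈ Icc 1 y, (1 : ℝ) / j

lemma HH_nonneg (y : ℕ) : 0 ≤ HH y := by unfold HH; positivity

lemma HH_le (y : ℕ) : HH y ≤ 1 + Real.log y := by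
  have h := harmonic_le_one_add_log y
  have e : ((harmonic y : ℚ) : ℝ) = HH y := by
    unfold HH
    rw [harmonic_eq_sum_Icc]
    push_cast
    exact Finset.sum_congr rfl (fun i _ => by rw [one_div])
  rw [← e]; exact h

lemma inv_sq_tail (t0 : ℕ) (h : 1 ≤ t0) (T : ℕ) : ∑ t ∈ Icc t0 T, (1 : ℝ) / (t : ℝ) ^ 2 ≤ 2 / t0 := by
  rcases Nat.lt_or_ge T t0 with h1 | h1
  · rw [Icc_eq_empty (by omega), sum_empty]; positivity
  · have key : ∑ t ∈ Icc t0 T, (1 : ℝ) / (t : ℝ) ^ 2 ≤ 2 / t0 - 2 / ((T : ℝ) + 1) := by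
      induction T, h1 using Nat.le_induction with
      | base =>
        rw [Icc_self, sum_singleton]
        have h0 : (1 : ℝ) ≤ t0 := by exact_mod_cast h
        rw [div_sub_div _ _ (by positivity) (by positivity), div_le_div_iff₀ (by positivity) (by positivity)]
        nlinarith
      | succ T hT ih =>
        rw [sum_Icc_succ_top (by omega : t0 ≤ T + 1)]
        have h0 : (0 : ℝ) ≤ T := by positivity
        have : (1 : ℝ) / ((T + 1 : ℕ) : ℝ) ^ 2 ≤ 2 / ((T : ℝ) + 1) - 2 / (((T + 1 : ℕ) : ℝ) + 1) := by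
          push_cast
          rw [div_sub_div _ _ (by positivity) (by positivity), div_le_div_iff₀ (by positivity) (by positivity)]
          nlinarith
        linarith
    have : (0 : ℝ) ≤ 2 / ((T : ℝ) + 1) := by positivity
    linarith

lemma mult_tail (L y M : ℕ) (hL : 1 ≤ L) (hy : 1 ≤ y) :
    ∑ n ∈ (Ioc y M).filter (fun n => L ∣ n), (1 : ℝ) / (n : ℝ) ^ 2 ≤ 2 / (L * y) := by
  set t0 := y / L + 1 with ht0
  have hyt : y < L * t0 := by
    rw [ht0, Nat.mul_add, Nat.mul_one]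
    exact Nat.lt_mul_div_succ y (by omega)
  have hsub : (Ioc y M).filter (fun n => L ∣ n) ⊆ (Icc t0 M).image (fun t => L * t) := by
    intro n hn
    rw [mem_filter, mem_Ioc] at hn
    obtain ⟨⟨h1, h2⟩, t, rfl⟩ := hn
    rw [mem_image]
    refine ⟨t, ?_, rfl⟩
    rw [mem_Icc, ht0]
    constructor
    · have : y / L < t := by
        rw [Nat.div_lt_iff_lt_mul (by omega)]; rw [Nat.mul_comm]; exact h1
      omega
    · calc t ≤ L * t := Nat.le_mul_of_pos_left t (by omega)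
        _ ≤ M := h2
  calc ∑ n ∈ (Ioc y M).filter (fun n => L ∣ n), (1 : ℝ) / (n : ℝ) ^ 2
      ≤ ∑ n ∈ (Icc t0 M).image (fun t => L * t), (1 : ℝ) / (n : ℝ) ^ 2 :=
        sum_le_sum_of_subset_of_nonneg hsub (fun _ _ _ => by positivity)
    _ = ∑ t ∈ Icc t0 M, (1 : ℝ) / ((L * t : ℕ) : ℝ) ^ 2 := by
        rw [sum_image]
        intro a _ b _ hab
        exact Nat.eq_of_mul_eq_mul_left (by omega) hab
    _ = (1 / (L : ℝ) ^ 2) * ∑ t ∈ Icc t0 M, (1 : ℝ) / (t : ℝ) ^ 2 := by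
        rw [mul_sum]
        refine sum_congr rfl (fun t _ => ?_)
        push_cast
        rw [mul_pow, one_div_mul_one_div]
    _ ≤ (1 / (L : ℝ) ^ 2) * (2 / t0) := by
        apply mul_le_mul_of_nonneg_left (inv_sq_tail t0 (Nat.succ_pos _) M) (by positivity)
    _ ≤ 2 / (L * y) := by
        have hL' : (0 : ℝ) < L := by exact_mod_cast hL
        have hy' : (0 : ℝ) < y := by exact_mod_cast hy
        have ht' : (0 : ℝ) < t0 := by rw [ht0]; positivity
        have hyt' : (y : ℝ) < L * t0 := by exact_mod_cast hyt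
        rw [div_mul_div_comm, one_mul, div_le_div_iff₀ (by positivity) (by positivity)]
        have : (L : ℝ) * y ≤ (L : ℝ) * (L * t0) := by
          apply mul_le_mul_of_nonneg_left hyt'.le hL'.le
        nlinarith

lemma sum_dvd_inv (y g : ℕ) (hg : 1 ≤ g) :
    ∑ j ∈ (Icc 1 y).filter (fun j => g ∣ j), (1 : ℝ) / j ≤ (1 / g) * HH y := by
  have hsub : (Icc 1 y).filter (fun n => g ∣ n) ⊆ (Icc 1 y).image (fun t => g * t) := by
    intro n hn
    rw [mem_filter, mem_Icc] at hn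
    obtain ⟨⟨h1, h2⟩, t, rfl⟩ := hn
    rw [mem_image]
    refine ⟨t, ?_, rfl⟩
    rw [mem_Icc]
    constructor
    · rcases Nat.eq_zero_or_pos t with rfl | h
      · simp at h1
      · exact h
    · calc t ≤ g * t := Nat.le_mul_of_pos_left t (by omega)
        _ ≤ y := h2
  calc ∑ j ∈ (Icc 1 y).filter (fun j => g ∣ j), (1 : ℝ) / j
      ≤ ∑ j ∈ (Icc 1 y).image (fun t => g * t), (1 : ℝ) / j :=
        sum_le_sum_of_subset_of_nonneg hsub (fun _ _ _ => by positivity)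
    _ = ∑ t ∈ Icc 1 y, (1 : ℝ) / ((g * t : ℕ) : ℝ) := by
        rw [sum_image]
        intro a _ b _ hab
        exact Nat.eq_of_mul_eq_mul_left (by omega) hab
    _ = (1 / g) * HH y := by
        unfold HH
        rw [mul_sum]
        refine sum_congr rfl (fun t _ => ?_)
        push_cast
        rw [one_div_mul_one_div]

lemma lcm_sum (y : ℕ) :
    ∑ j ∈ Icc 1 y, ∑ j' ∈ Icc 1 y, (1 : ℝ) / (Nat.lcm j j' : ℕ) ≤ HH y ^ 3 := by
  have h1 : ∀ j ∈ Icc 1 y, ∀ j' ∈ Icc 1 y, (1 : ℝ) / (Nat.lcm j j' : ℕ) ≤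
      ∑ g ∈ Icc 1 y, (g : ℝ) * ((if g ∣ j then 1 / (j : ℝ) else 0) *
        (if g ∣ j' then 1 / (j' : ℝ) else 0)) := by
    intro j hj j' hj'
    rw [mem_Icc] at hj hj'
    have hg : Nat.gcd j j' ∈ Icc 1 y := by
      rw [mem_Icc]
      exact ⟨Nat.gcd_pos_of_pos_left _ (by omega), (Nat.gcd_le_left _ (by omega)).trans hj.2⟩
    refine le_trans (le_of_eq ?_) (single_le_sum (f := fun g : ℕ => (g : ℝ) *
      ((if g ∣ j then 1 / (j : ℝ) else 0) * (if g ∣ j' then 1 / (j' : ℝ) else 0)))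
      (fun g _ => ?_) hg)
    · simp only [Nat.gcd_dvd_left, Nat.gcd_dvd_right, if_true]
      have h := Nat.gcd_mul_lcm j j'
      have hj0 : (j : ℝ) ≠ 0 := by
        have : (0 : ℝ) < j := by exact_mod_cast (by omega : 0 < j)
        exact this.ne'
      have hj0' : (j' : ℝ) ≠ 0 := by
        have : (0 : ℝ) < j' := by exact_mod_cast (by omega : 0 < j')
        exact this.ne'
      have hl : ((Nat.lcm j j' : ℕ) : ℝ) ≠ 0 := by
        have : 0 < Nat.lcm j j' := Nat.lcm_pos (by omega) (by omega)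
        have : (0 : ℝ) < (Nat.lcm j j' : ℕ) := by exact_mod_cast this
        exact this.ne'
      have h' : ((Nat.gcd j j' : ℕ) : ℝ) * (Nat.lcm j j' : ℕ) = j * j' := by exact_mod_cast h
      field_simp
      linarith
    · positivity
  calc ∑ j ∈ Icc 1 y, ∑ j' ∈ Icc 1 y, (1 : ℝ) / (Nat.lcm j j' : ℕ)
      ≤ ∑ j ∈ Icc 1 y, ∑ j' ∈ Icc 1 y, ∑ g ∈ Icc 1 y, (g : ℝ) *
        ((if g ∣ j then 1 / (j : ℝ) else 0) * (if g ∣ j' then 1 / (j' : ℝ) else 0)) :=
        sum_le_sum (fun j hj => sum_le_sum (fun j' hj' => h1 j hj j' hj'))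
    _ = ∑ g ∈ Icc 1 y, (g : ℝ) * ((∑ j ∈ Icc 1 y, if g ∣ j then 1 / (j : ℝ) else 0) *
        (∑ j' ∈ Icc 1 y, if g ∣ j' then 1 / (j' : ℝ) else 0)) := by
        simp_rw [sum_mul_sum, mul_sum]
        rw [sum_congr rfl (fun j _ => sum_comm), sum_comm]
    _ ≤ ∑ g ∈ Icc 1 y, (g : ℝ) * (((1 / g) * HH y) * ((1 / g) * HH y)) := by
        refine sum_le_sum (fun g hg => ?_)
        rw [mem_Icc] at hg
        have h2 := sum_dvd_inv y g hg.1
        rw [sum_filter] at h2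
        have h3 : (0 : ℝ) ≤ ∑ j ∈ Icc 1 y, if g ∣ j then 1 / (j : ℝ) else 0 := by
          refine sum_nonneg (fun j _ => ?_)
          split_ifs <;> positivity
        apply mul_le_mul_of_nonneg_left _ (by positivity)
        exact mul_le_mul h2 h2 h3 (by have := HH_nonneg y; positivity)
    _ = HH y ^ 3 := by
        have : ∀ g ∈ Icc 1 y, (g : ℝ) * (((1 / g) * HH y) * ((1 / g) * HH y)) = (1 / g) * HH y ^ 2 := by
          intro g hg
          rw [mem_Icc] at hg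
          have : (g : ℝ) ≠ 0 := by
            have : (0 : ℝ) < g := by exact_mod_cast hg.1
            exact this.ne'
          field_simp
        rw [sum_congr rfl this, ← sum_mul]
        change HH y * HH y ^ 2 = _
        ring

/-- truncated Moebius sums -/
noncomputable def cy (y n : ℕ) : ℝ := ∑ j ∈ (Icc 1 y).filter (fun j => j ∣ n), (μ j : ℝ)

lemma abs_mu_le (j : ℕ) : |(μ j : ℝ)| ≤ 1 := by
  have := @abs_moebius_le_one j
  exact_mod_cast this

lemma cy_sq_sum (y M : ℕ) (hy : 1 ≤ y) :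
    ∑ n ∈ Ioc y M, cy y n ^ 2 / (n : ℝ) ^ 2 ≤ (2 / y) * HH y ^ 3 := by
  have h1 : ∀ n ∈ Ioc y M, cy y n ^ 2 / (n : ℝ) ^ 2 ≤
      ∑ j ∈ Icc 1 y, ∑ j' ∈ Icc 1 y, if Nat.lcm j j' ∣ n then (1 : ℝ) / (n : ℝ) ^ 2 else 0 := by
    intro n hn
    have h2 : cy y n ^ 2 ≤ ∑ j ∈ Icc 1 y, ∑ j' ∈ Icc 1 y,
        if Nat.lcm j j' ∣ n then (1 : ℝ) else 0 := by
      have h3 : |cy y n| ≤ ∑ j ∈ Icc 1 y, if j ∣ n then (1 : ℝ) else 0 := by
        unfold cy
        rw [← sum_filter]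
        exact (abs_sum_le_sum_abs _ _).trans (sum_le_sum (fun j _ => abs_mu_le j))
      have h4 : (∑ j ∈ Icc 1 y, if j ∣ n then (1 : ℝ) else 0) *
          (∑ j ∈ Icc 1 y, if j ∣ n then (1 : ℝ) else 0) = ∑ j ∈ Icc 1 y, ∑ j' ∈ Icc 1 y,
          if Nat.lcm j j' ∣ n then (1 : ℝ) else 0 := by
        rw [sum_mul_sum]
        refine sum_congr rfl (fun j _ => sum_congr rfl (fun j' _ => ?_))
        by_cases ha : j ∣ n <;> by_cases hb : j' ∣ n <;> simp [Nat.lcm_dvd_iff, ha, hb]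
      rw [← h4, ← sq_abs, sq]
      exact mul_le_mul h3 h3 (abs_nonneg _) ((abs_nonneg _).trans h3)
    calc cy y n ^ 2 / (n : ℝ) ^ 2 ≤ (∑ j ∈ Icc 1 y, ∑ j' ∈ Icc 1 y,
        if Nat.lcm j j' ∣ n then (1 : ℝ) else 0) / (n : ℝ) ^ 2 := by
          apply div_le_div_of_nonneg_right h2 (by positivity)
      _ = _ := by
          rw [sum_div]
          refine sum_congr rfl (fun j _ => ?_)
          rw [sum_div]
          refine sum_congr rfl (fun j' _ => ?_)
          split_ifs <;> simp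
  calc ∑ n ∈ Ioc y M, cy y n ^ 2 / (n : ℝ) ^ 2
      ≤ ∑ n ∈ Ioc y M, ∑ j ∈ Icc 1 y, ∑ j' ∈ Icc 1 y,
        if Nat.lcm j j' ∣ n then (1 : ℝ) / (n : ℝ) ^ 2 else 0 := sum_le_sum h1
    _ = ∑ j ∈ Icc 1 y, ∑ j' ∈ Icc 1 y, ∑ n ∈ (Ioc y M).filter (fun n => Nat.lcm j j' ∣ n),
        (1 : ℝ) / (n : ℝ) ^ 2 := by
        rw [sum_comm]
        refine sum_congr rfl (fun j _ => ?_)
        rw [sum_comm]
        refine sum_congr rfl (fun j' _ => ?_)
        rw [sum_filter]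
    _ ≤ ∑ j ∈ Icc 1 y, ∑ j' ∈ Icc 1 y, (2 / y) * ((1 : ℝ) / (Nat.lcm j j' : ℕ)) := by
        refine sum_le_sum (fun j hj => sum_le_sum (fun j' hj' => ?_))
        rw [mem_Icc] at hj hj'
        have hl : 1 ≤ Nat.lcm j j' := Nat.lcm_pos (by omega) (by omega)
        refine (mult_tail (Nat.lcm j j') y M hl hy).trans (le_of_eq ?_)
        rw [div_mul_div_comm, mul_one, mul_comm (y : ℝ)]
    _ = (2 / y) * ∑ j ∈ Icc 1 y, ∑ j' ∈ Icc 1 y, (1 : ℝ) / (Nat.lcm j j' : ℕ) := by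
        simp_rw [mul_sum]
    _ ≤ (2 / y) * HH y ^ 3 := mul_le_mul_of_nonneg_left (lcm_sum y) (by positivity)

end Pool.Agent.Lib.MP_7ab245_nt.LogVar
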