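import Mathlib
import Pool.Agent.Lib.MP_7ab245_nt.LogVar.Mobius

/-!
Lower bound for sums over divisors, second part.
-/

set_option autoImplicit false

open Finset ArithmeticFunction ArithmeticFunction.Moebius ArithmeticFunction.zeta

namespace Pool.Agent.Lib.MP_7ab245_nt.LogVar

noncomputable def sig (e : ℕ → ℝ) (m : ℕ) : ℝ := ∑ d ∈ m.divisors, ((d : ℝ) / m) * e d

noncomputable def tau (e : ℕ → ℝ) (y m : ℕ) : ℝ :=
  ∑ j ∈ (Icc 1 y).filter (fun j => j ∣ m), ((μ j : ℝ) / j) * sig e (m / j)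

lemma tau_eq (e : ℕ → ℝ) (y m : ℕ) (hm : 1 ≤ m) :
    tau e y m = ∑ d ∈ m.divisors, e d * (cy y (m / d) / ((m / d : ℕ) : ℝ)) := by
  unfold tau sig cy
  have h1 : ∀ j ∈ (Icc 1 y).filter (fun j => j ∣ m), ((μ j : ℝ) / j) *
      ∑ d ∈ (m / j).divisors, ((d : ℝ) / ((m / j : ℕ) : ℝ)) * e d =
      ∑ d ∈ (m / j).divisors, (μ j : ℝ) * ((d : ℝ) / m * e d) := by
    intro j hj
    rw [mem_filter, mem_Icc] at hj
    rw [mul_sum]
    refine sum_congr rfl (fun d _ => ?_)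
    rw [Nat.cast_div hj.2 (by have : (0 : ℝ) < j := by exact_mod_cast hj.1.1
                              exact this.ne')]
    have hj0 : (j : ℝ) ≠ 0 := by
      have : (0 : ℝ) < j := by exact_mod_cast hj.1.1
      exact this.ne'
    have hm0 : (m : ℝ) ≠ 0 := by
      have : (0 : ℝ) < m := by exact_mod_cast hm
      exact this.ne'
    field_simp
  rw [sum_congr rfl h1]
  have h2 : ∀ d ∈ m.divisors, e d * ((∑ j ∈ (Icc 1 y).filter (fun j => j ∣ m / d), (μ j : ℝ)) /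
      ((m / d : ℕ) : ℝ)) = ∑ j ∈ (Icc 1 y).filter (fun j => j ∣ m / d),
        (μ j : ℝ) * ((d : ℝ) / m * e d) := by
    intro d hd
    rw [Nat.mem_divisors] at hd
    rw [← sum_mul]
    have hd0 : (d : ℝ) ≠ 0 := by
      have : 0 < d := Nat.pos_of_dvd_of_pos hd.1 hm
      have : (0 : ℝ) < d := by exact_mod_cast this
      exact this.ne'
    have hm0 : (m : ℝ) ≠ 0 := by
      have : (0 : ℝ) < m := by exact_mod_cast hm
      exact this.ne'
    rw [Nat.cast_div hd.1 hd0]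
    field_simp
  rw [sum_congr rfl h2]
  apply sum_comm'
  intro j d
  simp only [mem_filter, mem_Icc, Nat.mem_divisors]
  constructor
  · rintro ⟨⟨⟨h3, h4⟩, h5⟩, h6, h7⟩
    have h8 : j * d ∣ m := (Nat.dvd_div_iff_mul_dvd h5).mp h6
    have h9 : d ∣ m := (Dvd.intro_left j rfl).trans h8
    refine ⟨⟨⟨h3, h4⟩, ?_⟩, h9, by omega⟩
    rw [Nat.dvd_div_iff_mul_dvd h9, mul_comm]
    exact h8
  · rintro ⟨⟨⟨h3, h4⟩, h5⟩, h6, h7⟩
    have h8 : d * j ∣ m := (Nat.dvd_div_iff_mul_dvd h6).mp h5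
    have h9 : j ∣ m := (Dvd.intro_left d rfl).trans h8
    refine ⟨⟨⟨h3, h4⟩, h9⟩, ?_, ?_⟩
    · rw [Nat.dvd_div_iff_mul_dvd h9, mul_comm]
      exact h8
    · have := Nat.div_pos (Nat.le_of_dvd (by omega) h9) (by omega)
      omega

lemma cy_eq (y n : ℕ) (hn : 1 ≤ n) (hny : n ≤ y) : cy y n = if n = 1 then 1 else 0 := by
  unfold cy
  have h1 : (Icc 1 y).filter (fun j => j ∣ n) = n.divisors := by
    ext j
    rw [mem_filter, mem_Icc, Nat.mem_divisors]
    constructor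
    · rintro ⟨_, h⟩; exact ⟨h, by omega⟩
    · rintro ⟨h, _⟩
      exact ⟨⟨Nat.pos_of_dvd_of_pos h hn, (Nat.le_of_dvd hn h).trans hny⟩, h⟩
  rw [h1]
  have h2 : (∑ j ∈ n.divisors, (μ j : ℤ)) = if n = 1 then 1 else 0 := by
    rw [← coe_mul_zeta_apply, moebius_mul_coe_zeta, one_apply]
  have h3 : ((∑ j ∈ n.divisors, (μ j : ℤ) : ℤ) : ℝ) = ((if n = 1 then 1 else 0 : ℤ) : ℝ) := by
    rw [h2]
  push_cast at h3
  rw [h3]

/-- the error term -/
noncomputable def er (e : ℕ → ℝ) (y m : ℕ) : ℝ :=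
  ∑ d ∈ m.divisors.filter (fun d => y < m / d), e d * (cy y (m / d) / ((m / d : ℕ) : ℝ))

lemma tau_eq' (e : ℕ → ℝ) (y m : ℕ) (hm : 1 ≤ m) (hy : 1 ≤ y) :
    tau e y m = e m + er e y m := by
  rw [tau_eq e y m hm, er, ← sum_filter_add_sum_filter_not m.divisors (fun d => y < m / d), add_comm]
  congr 1
  rw [sum_eq_single_of_mem m]
  · rw [Nat.div_self hm, cy_eq y 1 le_rfl hy]; simp
  · rw [mem_filter, Nat.div_self hm]
    exact ⟨Nat.mem_divisors_self m (by omega), by omega⟩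
  · intro d hd hdm
    rw [mem_filter, Nat.mem_divisors] at hd
    obtain ⟨⟨h1, h2⟩, h3⟩ := hd
    have hd1 : 0 < d := Nat.pos_of_dvd_of_pos h1 hm
    have h4 : 0 < m / d := Nat.div_pos (Nat.le_of_dvd hm h1) hd1
    rw [cy_eq y (m / d) h4 (by omega), if_neg, zero_div, mul_zero]
    intro h5
    apply hdm
    have := Nat.div_mul_cancel h1
    rw [h5, one_mul] at this
    exact this

lemma tau_sq_sum (e : ℕ → ℝ) (y M : ℕ) :
    ∑ m ∈ Icc 1 M, tau e y m ^ 2 ≤ HH y ^ 2 * ∑ m ∈ Icc 1 M, sig e m ^ 2 := by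
  have h1 : ∀ m ∈ Icc 1 M, tau e y m ^ 2 ≤ HH y *
      ∑ j ∈ (Icc 1 y).filter (fun j => j ∣ m), (1 / (j : ℝ)) * sig e (m / j) ^ 2 := by
    intro m hm
    have h2 := Finset.sum_sq_le_sum_mul_sum_of_sq_le_mul ((Icc 1 y).filter (fun j => j ∣ m))
      (r := fun j => ((μ j : ℝ) / j) * sig e (m / j)) (f := fun j => (1 : ℝ) / j)
      (g := fun j => (1 / (j : ℝ)) * ((μ j : ℝ) ^ 2 * sig e (m / j) ^ 2))
      (fun j _ => by positivity) (fun j _ => by positivity) (fun j _ => le_of_eq (by ring))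
    refine h2.trans ?_
    apply mul_le_mul
    · unfold HH
      exact sum_le_sum_of_subset_of_nonneg (filter_subset _ _) (fun _ _ _ => by positivity)
    · refine sum_le_sum (fun j _ => ?_)
      apply mul_le_mul_of_nonneg_left _ (by positivity)
      have h3 := abs_mu_le j
      have h4 : (μ j : ℝ) ^ 2 ≤ 1 := by rw [← sq_abs]; nlinarith [abs_nonneg (μ j : ℝ)]
      nlinarith [sq_nonneg (sig e (m / j))]
    · exact sum_nonneg (fun j _ => by positivity)
    · exact HH_nonneg y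
  refine (sum_le_sum h1).trans ?_
  rw [← mul_sum, sq, mul_assoc]
  apply mul_le_mul_of_nonneg_left _ (HH_nonneg y)
  simp_rw [sum_filter]
  rw [sum_comm]
  unfold HH
  rw [sum_mul]
  refine sum_le_sum (fun j hj => ?_)
  rw [mem_Icc] at hj
  rw [← sum_filter, ← mul_sum]
  apply mul_le_mul_of_nonneg_left _ (by positivity)
  have hinj : ∀ a ∈ (Icc 1 M).filter (fun m => j ∣ m), ∀ b ∈ (Icc 1 M).filter (fun m => j ∣ m),
      a / j = b / j → a = b := by
    intro a ha b hb hab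
    rw [mem_filter] at ha hb
    rw [← Nat.div_mul_cancel ha.2, ← Nat.div_mul_cancel hb.2, hab]
  rw [← sum_image (g := fun m => m / j) (f := fun n => sig e n ^ 2) (by
    intro a ha b hb hab
    exact hinj a (by simpa using ha) b (by simpa using hb) hab)]
  apply sum_le_sum_of_subset_of_nonneg
  · intro n hn
    rw [mem_image] at hn
    obtain ⟨m, hm, rfl⟩ := hn
    rw [mem_filter, mem_Icc] at hm
    rw [mem_Icc]
    exact ⟨Nat.div_pos (Nat.le_of_dvd (by omega) hm.2) (by omega), (Nat.div_le_self _ _).trans hm.1.2⟩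
  · intro _ _ _; positivity

lemma er_sq_sum (e : ℕ → ℝ) (y M N : ℕ) (hy : 1 ≤ y)
    (hN : ((Icc 1 M).filter (fun d => e d ≠ 0)).card ≤ N) :
    ∑ m ∈ Icc 1 M, er e y m ^ 2 ≤ N * ((2 / y) * HH y ^ 3) * ∑ d ∈ Icc 1 M, e d ^ 2 := by
  have h1 : ∀ m ∈ Icc 1 M, er e y m ^ 2 ≤ N *
      ∑ d ∈ Icc 1 M, if d ∣ m ∧ y < m / d then
        e d ^ 2 * (cy y (m / d) ^ 2 / ((m / d : ℕ) : ℝ) ^ 2) else 0 := by
    intro m hm
    rw [mem_Icc] at hm
    unfold er
    have h2 := Finset.sum_mul_sq_le_sq_mul_sq (m.divisors.filter (fun d => y < m / d))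
      (fun d => if e d ≠ 0 then (1 : ℝ) else 0)
      (fun d => e d * (cy y (m / d) / ((m / d : ℕ) : ℝ)))
    have h3 : ∀ d ∈ m.divisors.filter (fun d => y < m / d),
        (if e d ≠ 0 then (1 : ℝ) else 0) * (e d * (cy y (m / d) / ((m / d : ℕ) : ℝ))) =
        e d * (cy y (m / d) / ((m / d : ℕ) : ℝ)) := by
      intro d _
      by_cases h : e d = 0
      · simp [h]
      · rw [if_pos h, one_mul]
    rw [sum_congr rfl h3] at h2
    refine h2.trans ?_
    apply mul_le_mul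
    · have h4 : ∑ d ∈ m.divisors.filter (fun d => y < m / d), (if e d ≠ 0 then (1 : ℝ) else 0) ^ 2 =
        (((m.divisors.filter (fun d => y < m / d)).filter (fun d => e d ≠ 0)).card : ℝ) := by
        rw [card_filter]
        push_cast
        refine sum_congr rfl (fun d _ => ?_)
        split_ifs <;> simp
      rw [h4]
      have h5 : ((m.divisors.filter (fun d => y < m / d)).filter (fun d => e d ≠ 0)).card ≤ N := by
        refine le_trans (card_le_card ?_) hN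
        intro d hd
        rw [mem_filter, mem_filter, Nat.mem_divisors] at hd
        rw [mem_filter, mem_Icc]
        exact ⟨⟨Nat.pos_of_dvd_of_pos hd.1.1.1 hm.1, (Nat.le_of_dvd hm.1 hd.1.1.1).trans hm.2⟩, hd.2⟩
      exact_mod_cast h5
    · rw [← sum_filter]
      refine le_trans (le_of_eq (sum_congr rfl (fun d _ => ?_))) (sum_le_sum_of_subset_of_nonneg ?_ ?_)
      · exact (by rw [mul_pow, div_pow] : (e d * (cy y (m / d) / ((m / d : ℕ) : ℝ))) ^ 2 =
          e d ^ 2 * (cy y (m / d) ^ 2 / ((m / d : ℕ) : ℝ) ^ 2))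
      · intro d hd
        rw [mem_filter, Nat.mem_divisors] at hd
        rw [mem_filter, mem_Icc]
        exact ⟨⟨Nat.pos_of_dvd_of_pos hd.1.1 hm.1, (Nat.le_of_dvd hm.1 hd.1.1).trans hm.2⟩,
          hd.1.1, hd.2⟩
      · intro _ _ _; positivity
    · exact sum_nonneg (fun _ _ => by positivity)
    · positivity
  refine (sum_le_sum h1).trans ?_
  rw [← mul_sum, mul_assoc]
  apply mul_le_mul_of_nonneg_left _ (by positivity)
  rw [sum_comm, mul_sum]
  refine sum_le_sum (fun d hd => ?_)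
  rw [mem_Icc] at hd
  rw [← sum_filter, ← mul_sum, mul_comm]
  apply mul_le_mul_of_nonneg_right _ (by positivity)
  refine le_trans ?_ (cy_sq_sum y M hy)
  rw [← sum_image (g := fun m => m / d) (f := fun n => cy y n ^ 2 / (n : ℝ) ^ 2)]
  · apply sum_le_sum_of_subset_of_nonneg
    · intro n hn
      rw [mem_image] at hn
      obtain ⟨m, hm, rfl⟩ := hn
      rw [mem_filter, mem_Icc] at hm
      rw [mem_Ioc]
      exact ⟨hm.2.2, (Nat.div_le_self _ _).trans hm.1.2⟩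
    · intro _ _ _; positivity
  · intro a ha b hb hab
    simp only [coe_filter, Set.mem_ofPred_eq] at ha hb
    have hab' : a / d = b / d := hab
    rw [← Nat.div_mul_cancel ha.2.1, ← Nat.div_mul_cancel hb.2.1, hab']

theorem mobius_bound (e : ℕ → ℝ) (y M N : ℕ) (hy : 1 ≤ y)
    (hN : ((Icc 1 M).filter (fun d => e d ≠ 0)).card ≤ N) (hyN : 8 * N * HH y ^ 3 ≤ y) :
    ∑ d ∈ Icc 1 M, e d ^ 2 ≤ 4 * HH y ^ 2 * ∑ m ∈ Icc 1 M, sig e m ^ 2 := by
  have h1 : ∑ d ∈ Icc 1 M, e d ^ 2 ≤ 2 * ∑ m ∈ Icc 1 M, tau e y m ^ 2 +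
      2 * ∑ m ∈ Icc 1 M, er e y m ^ 2 := by
    rw [mul_sum, mul_sum, ← sum_add_distrib]
    refine sum_le_sum (fun m hm => ?_)
    rw [mem_Icc] at hm
    have := tau_eq' e y m hm.1 hy
    have h : e m = tau e y m - er e y m := by linarith
    rw [h]
    nlinarith [sq_nonneg (tau e y m + er e y m)]
  have h2 := tau_sq_sum e y M
  have h3 := er_sq_sum e y M N hy hN
  have h4 : (N : ℝ) * ((2 / y) * HH y ^ 3) ≤ 1 / 4 := by
    have hy' : (0 : ℝ) < y := by exact_mod_cast hy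
    have : (N : ℝ) * ((2 / y) * HH y ^ 3) = (8 * N * HH y ^ 3) / (4 * y) := by
      field_simp; ring
    rw [this, div_le_div_iff₀ (by positivity) (by positivity)]
    linarith
  have h5 : 0 ≤ ∑ d ∈ Icc 1 M, e d ^ 2 := sum_nonneg (fun _ _ => by positivity)
  have h6 := mul_le_mul_of_nonneg_right h4 h5
  nlinarith

/-- the same with a logarithm -/
theorem mobius_bound_log (e : ℕ → ℝ) (M N : ℕ)
    (hN : ((Icc 1 M).filter (fun d => e d ≠ 0)).card ≤ N) :
    ∑ d ∈ Icc 1 M, e d ^ 2 ≤ 3000 * Real.log (N + 2) ^ 2 * ∑ m ∈ Icc 1 M, sig e m ^ 2 := by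
  obtain ⟨n, hn⟩ : ∃ n : ℕ, n = 2744 * (N + 1) := ⟨_, rfl⟩
  have hn1 : 1 ≤ n := by omega
  have hnr : (n : ℝ) = 2744 * (N + 1) := by rw [hn]; push_cast; ring
  have hnpos : (0 : ℝ) < n := by exact_mod_cast hn1
  have hH0 := HH_nonneg (n ^ 2)
  have hH1 := HH_le (n ^ 2)
  have hlog : Real.log ((n ^ 2 : ℕ) : ℝ) = 2 * Real.log n := by
    push_cast
    rw [Real.log_pow]; norm_num
  have hlogn : Real.log n ≤ 3 * (n : ℝ) ^ ((1 : ℝ) / 3) := by
    have := Real.log_le_rpow_div hnpos.le (by norm_num : (0 : ℝ) < 1 / 3)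
    linarith
  set u : ℝ := (n : ℝ) ^ ((1 : ℝ) / 3) with hu
  have hu3 : u ^ 3 = n := by
    rw [hu, ← Real.rpow_natCast, ← Real.rpow_mul hnpos.le]; norm_num
  have hu1 : 1 ≤ u := by
    rw [hu]; exact Real.one_le_rpow (by exact_mod_cast hn1) (by norm_num)
  have hH2 : HH (n ^ 2) ≤ 7 * u := by
    rw [hlog] at hH1; linarith
  have hH3 : HH (n ^ 2) ^ 3 ≤ 343 * n := by
    calc HH (n ^ 2) ^ 3 ≤ (7 * u) ^ 3 := pow_le_pow_left₀ hH0 hH2 3
      _ = 343 * n := by rw [mul_pow, hu3]; norm_num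
  have h1 := mobius_bound e (n ^ 2) M N (Nat.one_le_pow _ _ hn1) hN (by
    calc 8 * (N : ℝ) * HH (n ^ 2) ^ 3 ≤ 8 * (N : ℝ) * (343 * n) := by
          apply mul_le_mul_of_nonneg_left hH3 (by positivity)
      _ = (2744 * N) * n := by ring
      _ ≤ n * n := by
          apply mul_le_mul_of_nonneg_right _ hnpos.le
          rw [hnr]; linarith
      _ = ((n ^ 2 : ℕ) : ℝ) := by push_cast; ring)
  refine h1.trans ?_
  apply mul_le_mul_of_nonneg_right _ (sum_nonneg (fun _ _ => by positivity))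
  have hl2 : (0.69 : ℝ) ≤ Real.log (N + 2) := by
    have h2 := Real.log_two_gt_d9
    have h3 : Real.log 2 ≤ Real.log (N + 2) := Real.log_le_log (by norm_num) (by
      have : (0 : ℝ) ≤ N := by positivity
      linarith)
    linarith
  have hl3 : Real.log n ≤ 8 + Real.log (N + 2) := by
    rw [hnr, Real.log_mul (by norm_num) (by positivity)]
    have h4 : Real.log ((N : ℝ) + 1) ≤ Real.log (N + 2) := Real.log_le_log (by positivity) (by linarith)
    have h5 : Real.log 2744 ≤ 8 := by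
      have h6 : Real.log 2744 ≤ Real.log (2 ^ (23 / 2 : ℝ)) := by
        apply Real.log_le_log (by norm_num)
        have h7 : (2 : ℝ) ^ (23 / 2 : ℝ) = Real.sqrt (2 ^ 23) := by
          rw [Real.sqrt_eq_rpow, ← Real.rpow_natCast, ← Real.rpow_mul (by norm_num)]; norm_num
        rw [h7]
        apply Real.le_sqrt_of_sq_le
        norm_num
      rw [Real.log_rpow (by norm_num)] at h6
      have := Real.log_two_lt_d9
      linarith
    linarith
  have hH4 : HH (n ^ 2) ≤ 27 * Real.log (N + 2) := by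
    rw [hlog] at hH1; nlinarith
  have h9 : HH (n ^ 2) ^ 2 ≤ (27 * Real.log (N + 2)) ^ 2 := pow_le_pow_left₀ hH0 hH4 2
  calc 4 * HH (n ^ 2) ^ 2 ≤ 4 * (27 * Real.log (N + 2)) ^ 2 := by linarith
    _ = 2916 * Real.log (N + 2) ^ 2 := by rw [mul_pow]; norm_num; ring
    _ ≤ 3000 * Real.log (N + 2) ^ 2 := by
      apply mul_le_mul_of_nonneg_right (by norm_num) (sq_nonneg _)

end Pool.Agent.Lib.MP_7ab245_nt.LogVar
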