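import Mathlib
import Pool.Agent.Lib.MP_7ab245_nt.LogVar.Euler
import Pool.Agent.Lib.MP_7ab245_nt.LogVar.Mobius2

/-!
Logarithmic derivatives of formal power series.
-/

set_option autoImplicit false

open PowerSeries Finset

namespace Pool.Agent.Lib.MP_7ab245_nt.LogVar

/-- `X u' / u` -/
noncomputable def ld (u : ℂ⟦X⟧) : ℂ⟦X⟧ := X * derivative ℂ u * u⁻¹

lemma ld_mul {u v : ℂ⟦X⟧} (hu : constantCoeff u ≠ 0) (hv : constantCoeff v ≠ 0) :
    ld (u * v) = ld u + ld v := by
  unfold ld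
  rw [Derivation.leibniz, PowerSeries.mul_inv_rev, smul_eq_mul, smul_eq_mul]
  have h1 : u * u⁻¹ = 1 := PowerSeries.mul_inv_cancel _ hu
  have h2 : v * v⁻¹ = 1 := PowerSeries.mul_inv_cancel _ hv
  calc X * (u * derivative ℂ v + v * derivative ℂ u) * (v⁻¹ * u⁻¹)
      = X * derivative ℂ u * u⁻¹ * (v * v⁻¹) + X * derivative ℂ v * v⁻¹ * (u * u⁻¹) := by ring
    _ = _ := by rw [h1, h2]; ring

lemma ld_one : ld 1 = 0 := by
  unfold ld; simp

lemma ld_C_mul {a : ℂ} (ha : a ≠ 0) {u : ℂ⟦X⟧} (hu : constantCoeff u ≠ 0) : ld (C a * u) = ld u := by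
  rw [ld_mul (by simpa using ha) hu]
  have : ld (C a) = 0 := by
    unfold ld
    have : derivative ℂ (C a : ℂ⟦X⟧) = 0 := by
      ext n; simp
    rw [this]; simp
  rw [this, zero_add]

lemma ld_pow {u : ℂ⟦X⟧} (hu : constantCoeff u ≠ 0) (k : ℕ) : ld (u ^ k) = (k : ℂ) • ld u := by
  induction k with
  | zero => simp [ld_one]
  | succ k ih =>
    rw [pow_succ, ld_mul (by rw [map_pow]; exact pow_ne_zero _ hu) hu, ih]
    push_cast
    rw [add_smul, one_smul]

lemma ld_prod {ι : Type} (s : Finset ι) (u : ι → ℂ⟦X⟧) (hu : ∀ i ∈ s, constantCoeff (u i) ≠ 0) :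
    ld (∏ i ∈ s, u i) = ∑ i ∈ s, ld (u i) := by
  classical
  induction s using Finset.induction_on with
  | empty => simp [ld_one]
  | insert a s ha ih =>
    rw [prod_insert ha, sum_insert ha, ld_mul (hu a (mem_insert_self a s)), ih]
    · intro i hi; exact hu i (mem_insert_of_mem hi)
    · rw [map_prod, prod_ne_zero_iff]
      intro i hi; exact hu i (mem_insert_of_mem hi)

lemma ld_multiset (S : Multiset ℂ) (u : ℂ → ℂ⟦X⟧) (hu : ∀ i ∈ S, constantCoeff (u i) ≠ 0) :
    ld (S.map u).prod = (S.map (fun i => ld (u i))).sum := by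
  induction S using Multiset.induction_on with
  | empty => simp [ld_one]
  | cons a S ih =>
    rw [Multiset.map_cons, Multiset.prod_cons, Multiset.map_cons, Multiset.sum_cons,
      ld_mul (hu a (Multiset.mem_cons_self a S)), ih]
    · intro i hi; exact hu i (Multiset.mem_cons_of_mem hi)
    · rw [map_multiset_prod, Multiset.map_map]
      apply Multiset.prod_ne_zero
      intro h
      rw [Multiset.mem_map] at h
      obtain ⟨i, hi, h⟩ := h
      exact hu i (Multiset.mem_cons_of_mem hi) h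

/-- logarithmic derivative of `1 - w X` -/
lemma coeff_ld_lin (w : ℂ) (m : ℕ) (hm : 1 ≤ m) : coeff m (ld (1 - C w * X)) = - w ^ m := by
  have h1 : ld (1 - C w * X) = - PowerSeries.mk (fun m => if m = 0 then 0 else w ^ m) := by
    unfold ld
    have h2 : X * derivative ℂ (1 - C w * X : ℂ⟦X⟧) = - PowerSeries.mk
        (fun m => if m = 0 then 0 else w ^ m) * (1 - C w * X) := by
      ext n
      rcases n with _ | n
      · rw [coeff_zero_X_mul, coeff_zero_eq_constantCoeff_apply, map_mul, map_neg,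
          ← coeff_zero_eq_constantCoeff_apply, coeff_mk]; simp
      · have hR : coeff (n + 1) (- PowerSeries.mk (fun m => if m = 0 then 0 else w ^ m) *
            (1 - C w * X)) = -(w ^ (n + 1) - w * (if n = 0 then 0 else w ^ n)) := by
          have e1 : (- PowerSeries.mk (fun m => if m = 0 then 0 else w ^ m) * (1 - C w * X) : ℂ⟦X⟧) =
              - (PowerSeries.mk (fun m => if m = 0 then 0 else w ^ m) -
                C w * (X * PowerSeries.mk (fun m => if m = 0 then 0 else w ^ m))) := by ring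
          rw [e1, map_neg, map_sub, coeff_mk, if_neg (by omega), coeff_C_mul, coeff_succ_X_mul,
            coeff_mk]
        rw [hR, coeff_succ_X_mul, coeff_derivative, map_sub, coeff_one, if_neg (by omega),
          coeff_C_mul, coeff_X]
        rcases n with _ | n
        · simp
        · rw [if_neg (by omega), if_neg (by omega)]
          ring
    rw [h2, mul_assoc, PowerSeries.mul_inv_cancel _ (den_ne w), mul_one]
  rw [h1, map_neg, coeff_mk, if_neg (by omega)]

lemma ld_one_sub_X_pow (d : ℕ) (hd : 1 ≤ d) : ld (1 - X ^ d) = - Pd d := by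
  unfold ld
  have hne : constantCoeff (1 - X ^ d : ℂ⟦X⟧) ≠ 0 := by
    rw [map_sub, map_pow]; simp [show d ≠ 0 by omega]
  have h2 : X * derivative ℂ (1 - X ^ d : ℂ⟦X⟧) = - Pd d * (1 - X ^ d) := by
    ext n
    have hR : coeff n (- Pd d * (1 - X ^ d)) = - ((if d ∣ n ∧ n ≠ 0 then (d : ℂ) else 0) -
        (if d ≤ n then coeff (n - d) (Pd d) else 0)) := by
      have e1 : (- Pd d * (1 - X ^ d) : ℂ⟦X⟧) = - (Pd d - Pd d * X ^ d) := by ring
      rw [e1, map_neg, map_sub, coeff_mul_X_pow', coeff_Pd]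
    rw [hR]
    rcases n with _ | n
    · rw [coeff_zero_X_mul, if_neg (by simp), if_neg (by omega)]; simp
    · rw [coeff_succ_X_mul, coeff_derivative, map_sub, coeff_one, if_neg (by omega), coeff_X_pow]
      by_cases h1 : n + 1 = d
      · rw [if_pos h1, if_pos ⟨by rw [h1], by omega⟩, if_pos (by omega), coeff_Pd,
          if_neg (by rw [h1]; simp)]
        rw [← h1]; push_cast; ring
      · rw [if_neg h1]
        by_cases h3 : d ≤ n + 1
        · rw [if_pos h3, coeff_Pd]
          have h4 : (d ∣ n + 1 ∧ n + 1 ≠ 0) ↔ (d ∣ n + 1 - d ∧ n + 1 - d ≠ 0) := by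
            constructor
            · rintro ⟨h, _⟩; exact ⟨Nat.dvd_sub h dvd_rfl, by omega⟩
            · rintro ⟨h, _⟩
              have := (Nat.dvd_add_right (dvd_refl d)).mpr h
              rw [Nat.add_sub_cancel' h3] at this
              exact ⟨this, by omega⟩
          by_cases h5 : d ∣ n + 1 ∧ n + 1 ≠ 0
          · rw [if_pos h5, if_pos (h4.mp h5)]; simp
          · rw [if_neg h5, if_neg (fun h => h5 (h4.mpr h))]; simp
        · rw [if_neg h3, if_neg]
          · simp
          · rintro ⟨h, _⟩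
            exact h3 (Nat.le_of_dvd (by omega) h)
  rw [h2, mul_assoc, PowerSeries.mul_inv_cancel _ hne, mul_one]

/-- logarithmic derivative of the complexification of an integral series -/
theorem coeff_ld_int (F : ℤ⟦X⟧) (hF : coeff 0 F = 1) (n i : ℕ) (hi : i ≤ n) :
    coeff i (- ld (PowerSeries.map (Int.castRingHom ℂ) F)) =
      ∑ d ∈ Icc 1 n, (ex F d : ℂ) * coeff i (Pd d) := by
  set φ := PowerSeries.map (Int.castRingHom ℂ) with hφ
  have hu : ∀ d ∈ Icc 1 n, constantCoeff ((1 - X ^ d : ℂ⟦X⟧)) ≠ 0 := by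
    intro d hd
    rw [mem_Icc] at hd
    rw [map_sub, map_pow]; simp [show d ≠ 0 by omega]
  have h1 := congrArg φ (Rs_prod F n)
  simp only [map_mul, map_prod, map_pow, map_sub, map_one] at h1
  have hX : φ X = X := by rw [hφ]; simp
  rw [hX] at h1
  have hF0 : constantCoeff (φ F) = 1 := by
    rw [hφ, ← coeff_zero_eq_constantCoeff_apply, coeff_map, hF]; simp
  have hR0 : constantCoeff (φ (Rs F n)) = 1 := by
    rw [hφ, ← coeff_zero_eq_constantCoeff_apply, coeff_map, (Rs_spec F hF n).1]; simp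
  have h2 := congrArg ld h1
  have hp : ∀ c : ℕ → ℕ, ∀ d ∈ Icc 1 n, constantCoeff ((1 - X ^ d : ℂ⟦X⟧) ^ c d) ≠ 0 := by
    intro c d hd
    rw [map_pow]; exact pow_ne_zero _ (hu d hd)
  have hpp : ∀ c : ℕ → ℕ, constantCoeff (∏ d ∈ Icc 1 n, (1 - X ^ d : ℂ⟦X⟧) ^ c d) ≠ 0 := by
    intro c
    rw [map_prod, prod_ne_zero_iff]; exact hp c
  have hld : ∀ c : ℕ → ℕ, ld (∏ d ∈ Icc 1 n, (1 - X ^ d : ℂ⟦X⟧) ^ c d) =
      - ∑ d ∈ Icc 1 n, (c d : ℂ) • Pd d := by
    intro c
    rw [ld_prod _ _ (hp c), ← sum_neg_distrib]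
    refine sum_congr rfl (fun d hd => ?_)
    rw [ld_pow (hu d hd), ld_one_sub_X_pow d (by rw [mem_Icc] at hd; exact hd.1), smul_neg]
  rw [ld_mul (by rw [hF0]; exact one_ne_zero) (hpp _), ld_mul (by rw [hR0]; exact one_ne_zero) (hpp _),
    hld, hld] at h2
  have h3 : - ld (φ F) = - ld (φ (Rs F n)) + ∑ d ∈ Icc 1 n, (ex F d : ℂ) • Pd d := by
    have h4 : ∑ d ∈ Icc 1 n, (ex F d : ℂ) • Pd d = ∑ d ∈ Icc 1 n, (be F d : ℂ) • Pd d -
        ∑ d ∈ Icc 1 n, (ae F d : ℂ) • Pd d := by
      rw [← sum_sub_distrib]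
      refine sum_congr rfl (fun d _ => ?_)
      rw [← sub_smul, ex_eq]; push_cast; ring_nf
    rw [h4]
    linear_combination -h2
  have h5 : coeff i (ld (φ (Rs F n))) = 0 := by
    unfold ld
    have h6 : X ^ (n + 1) ∣ X * derivative ℂ (φ (Rs F n)) := by
      rw [X_pow_dvd_iff]
      intro j hj
      rcases j with _ | j
      · rw [coeff_zero_X_mul]
      · rw [coeff_succ_X_mul, coeff_derivative, hφ, coeff_map, (Rs_spec F hF n).2 (j + 1) (by omega) (by omega)]
        simp
    have h7 : X ^ (n + 1) ∣ X * derivative ℂ (φ (Rs F n)) * (φ (Rs F n))⁻¹ := h6.mul_right _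
    rw [X_pow_dvd_iff] at h7
    exact h7 i (by omega)
  rw [h3, map_add, map_neg, h5, map_sum]
  simp

end Pool.Agent.Lib.MP_7ab245_nt.LogVar
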