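import Mathlib
import Pool.Agent.Lib.MP_7ab245_nt.Mono.Moments

/-!
Fourier coefficients of `log |1 - w z|` on the unit circle and Bessel's inequality.
-/

set_option autoImplicit false

open MeasureTheory Real

namespace Pool.Agent.Lib.MP_7ab245_nt.LogVar

open Pool.Agent.Lib.MP_7ab245_nt.Mono

/-- the point of the unit circle -/
noncomputable def zz (θ : ℝ) : ℂ := circleMap 0 1 θ

lemma norm_zz (θ : ℝ) : ‖zz θ‖ = 1 := norm_circleMap_one θ

lemma zz_ne (θ : ℝ) : zz θ ≠ 0 := by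
  intro h
  have := norm_zz θ
  rw [h, norm_zero] at this
  exact zero_ne_one this

lemma conj_zz (θ : ℝ) : (starRingEnd ℂ) (zz θ) = (zz θ)⁻¹ := by
  have h1 : zz θ * (starRingEnd ℂ) (zz θ) = 1 := by
    rw [Complex.mul_conj, Complex.normSq_eq_norm_sq, norm_zz]; simp
  exact eq_inv_of_mul_eq_one_right h1

lemma zz_continuous : Continuous zz := continuous_circleMap 0 1

lemma int_zz (n : ℤ) : ∫ θ, (zz θ) ^ n ∂mu = if n = 0 then ((2 * π : ℝ) : ℂ) else 0 :=
  integral_zpow n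

lemma zpow_continuous (n : ℤ) : Continuous (fun θ => (zz θ) ^ n) :=
  zz_continuous.zpow₀ n (fun θ => Or.inl (zz_ne θ))

lemma contC_integrable (f : ℝ → ℂ) (hf : Continuous f) : Integrable f mu := by
  unfold mu
  exact (hf.continuousOn.integrableOn_Icc).mono_set Set.Ioc_subset_Icc_self

lemma mu_real_univ : mu.real Set.univ = 2 * π := by
  rw [Measure.real, mu_univ, ENNReal.toReal_ofReal (by positivity)]

/-- the Fourier coefficient for `‖w‖ < 1` -/
lemma fourier_lt (w : ℂ) (hw : ‖w‖ < 1) (m : ℕ) (hm : 1 ≤ m) :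
    ∫ θ, (Real.log ‖1 - w * zz θ‖ : ℂ) * (zz θ) ^ (-(m : ℤ)) ∂mu = - (π * w ^ m / m) := by
  set F : ℕ → ℝ → ℂ := fun n θ => -(((w * zz θ) ^ n / n + (starRingEnd ℂ) ((w * zz θ) ^ n / n)) / 2) *
    (zz θ) ^ (-(m : ℤ)) with hF
  have hnz : ∀ θ, ‖w * zz θ‖ < 1 := by
    intro θ; rw [norm_mul, norm_zz, mul_one]; exact hw
  have hsum : ∀ θ, HasSum (fun n => F n θ) ((Real.log ‖1 - w * zz θ‖ : ℂ) * (zz θ) ^ (-(m : ℤ))) := by
    intro θ
    have h1 := Complex.hasSum_taylorSeries_neg_log (hnz θ)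
    have h2 : HasSum (fun n : ℕ => (starRingEnd ℂ) ((w * zz θ) ^ n / n))
        ((starRingEnd ℂ) (-Complex.log (1 - w * zz θ))) := by
      exact Complex.hasSum_conj'.mpr h1
    have h3 := (((h1.add h2).div_const 2).neg).mul_right ((zz θ) ^ (-(m : ℤ)))
    have h4 : -((-Complex.log (1 - w * zz θ) + (starRingEnd ℂ) (-Complex.log (1 - w * zz θ))) / 2) =
        (Real.log ‖1 - w * zz θ‖ : ℂ) := by
      rw [Complex.add_conj, ← Complex.log_re]
      simp only [Complex.neg_re]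
      push_cast
      ring
    rw [h4] at h3
    exact h3
  have hcont : ∀ n, Continuous (F n) := by
    intro n
    have h1 : Continuous (fun θ => (w * zz θ) ^ n / (n : ℂ)) :=
      ((continuous_const.mul zz_continuous).pow n).div_const _
    exact (((h1.add (Complex.continuous_conj.comp h1)).div_const 2).neg).mul (zpow_continuous _)
  have hbound : ∀ n θ, ‖F n θ‖ ≤ ‖w‖ ^ n := by
    intro n θ
    simp only [hF]
    rw [norm_mul, norm_zpow, norm_zz, one_zpow, mul_one, norm_neg, norm_div, Complex.norm_ofNat]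
    have h1 : ‖(w * zz θ) ^ n / (n : ℂ)‖ ≤ ‖w‖ ^ n := by
      rw [norm_div, norm_pow, norm_mul, norm_zz, mul_one, Complex.norm_natCast]
      rcases Nat.eq_zero_or_pos n with rfl | hn
      · simp
      · apply div_le_self (by positivity)
        exact_mod_cast hn
    have h2 := norm_add_le ((w * zz θ) ^ n / (n : ℂ)) ((starRingEnd ℂ) ((w * zz θ) ^ n / (n : ℂ)))
    rw [Complex.norm_conj] at h2
    rw [div_le_iff₀ (by norm_num)]
    linarith
  have hintn : ∀ n, ∫ θ, F n θ ∂mu = if n = m then - (π * w ^ m / m) else 0 := by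
    intro n
    have h1 : ∀ θ, F n θ = (-(w ^ n / n) / 2) * (zz θ) ^ ((n : ℤ) - m) +
        (-((starRingEnd ℂ) w ^ n / n) / 2) * (zz θ) ^ (-(n : ℤ) - m) := by
      intro θ
      simp only [hF]
      rw [sub_eq_add_neg, zpow_add₀ (zz_ne θ), sub_eq_add_neg, zpow_add₀ (zz_ne θ), map_div₀, map_pow,
        map_mul, conj_zz, map_natCast, zpow_neg _ (n : ℤ), zpow_natCast, mul_pow, mul_pow, inv_pow]
      ring
    simp_rw [h1]
    rw [integral_add ((contC_integrable _ (zpow_continuous _)).const_mul _)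
      ((contC_integrable _ (zpow_continuous _)).const_mul _), integral_const_mul,
      integral_const_mul, int_zz, int_zz]
    rw [if_neg (by omega : ¬ (-(n : ℤ) - m = 0)), mul_zero, add_zero]
    by_cases h : n = m
    · subst h
      rw [if_pos (by omega), if_pos rfl]
      push_cast
      ring
    · rw [if_neg (by omega), if_neg h, mul_zero]
  have hsm : Summable (fun n => ∫ θ, ‖F n θ‖ ∂mu) := by
    refine Summable.of_nonneg_of_le (fun n => integral_nonneg (fun θ => norm_nonneg _))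
      (fun n => ?_) ((summable_geometric_of_lt_one (norm_nonneg w) hw).mul_left (2 * π))
    calc ∫ θ, ‖F n θ‖ ∂mu ≤ ∫ θ, ‖w‖ ^ n ∂mu :=
          integral_mono (contC_integrable _ (hcont n)).norm (integrable_const _) (hbound n)
      _ = 2 * π * ‖w‖ ^ n := by rw [integral_const, mu_real_univ, smul_eq_mul]
  have h5 := hasSum_integral_of_summable_integral_norm
    (fun n => contC_integrable _ (hcont n)) hsm
  have h6 : ∀ θ, ∑' n, F n θ = (Real.log ‖1 - w * zz θ‖ : ℂ) * (zz θ) ^ (-(m : ℤ)) :=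
    fun θ => (hsum θ).tsum_eq
  simp_rw [h6, hintn] at h5
  have h7 := hasSum_ite_eq m (- (π * w ^ m / m) : ℂ)
  exact h5.unique h7

/-- integrability of `log |1 - w z|` -/
lemma log_lin_integrable (w : ℂ) : Integrable (fun θ => Real.log ‖1 - w * zz θ‖) mu := by
  have h := log_integrable (ι := Fin 2) ![1, -w] ![0, 1]
  refine h.congr (Filter.Eventually.of_forall (fun θ => ?_))
  simp only [hh, ls, Fin.sum_univ_two, zz]
  congr 2
  simp
  ring

lemma lin_ne_ae (w : ℂ) : ∀ᵐ θ ∂mu, 1 - w * zz θ ≠ 0 := by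
  have h := mu_zero (ι := Fin 2) 2 (by norm_num) (by simp) ![1, -w] ![0, 1] (by
    intro i j hij
    fin_cases i <;> fin_cases j <;> simp_all) 0 (by simp)
  filter_upwards [h] with θ hθ
  simp only [hh, ls, Fin.sum_univ_two] at hθ
  intro h0
  have e1 : (![(1 : ℂ), -w] 0 * circleMap 0 1 θ ^ (![(0 : ℤ), 1] 0) +
      ![(1 : ℂ), -w] 1 * circleMap 0 1 θ ^ (![(0 : ℤ), 1] 1)) = 1 - w * zz θ := by
    simp only [zz, Matrix.cons_val_zero, Matrix.cons_val_one, zpow_zero, zpow_one]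
    ring
  rw [e1, h0, norm_zero] at hθ
  exact lt_irrefl _ hθ

/-- the Fourier coefficient for `‖w‖ ≤ 1` -/
theorem fourier_log (w : ℂ) (hw : ‖w‖ ≤ 1) (m : ℕ) (hm : 1 ≤ m) :
    ∫ θ, (Real.log ‖1 - w * zz θ‖ : ℂ) * (zz θ) ^ (-(m : ℤ)) ∂mu = - (π * w ^ m / m) := by
  set r : ℕ → ℝ := fun k => 1 - 1 / ((k : ℝ) + 1) with hr
  have hr1 : Filter.Tendsto r Filter.atTop (nhds 1) := by
    have := tendsto_one_div_add_atTop_nhds_zero_nat (𝕜 := ℝ)
    have h2 := this.const_sub 1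
    rw [sub_zero] at h2
    exact h2
  have hr0 : ∀ k, 0 ≤ r k := by
    intro k
    simp only [hr]
    rw [sub_nonneg, div_le_one (by positivity)]
    have : (0 : ℝ) ≤ k := by positivity
    linarith
  have hrlt : ∀ k, r k < 1 := by
    intro k
    simp only [hr]
    have : (0 : ℝ) < 1 / ((k : ℝ) + 1) := by positivity
    linarith
  have hwk : ∀ k, ‖(r k : ℂ) * w‖ < 1 := by
    intro k
    rw [norm_mul, Complex.norm_real, Real.norm_eq_abs, abs_of_nonneg (hr0 k)]
    calc r k * ‖w‖ ≤ r k * 1 := mul_le_mul_of_nonneg_left hw (hr0 k)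
      _ < 1 := by linarith [hrlt k]
  have h1 : ∀ k, ∫ θ, (Real.log ‖1 - (r k : ℂ) * w * zz θ‖ : ℂ) * (zz θ) ^ (-(m : ℤ)) ∂mu =
      - (π * ((r k : ℂ) * w) ^ m / m) := fun k => fourier_lt _ (hwk k) m hm
  have hlim1 : Filter.Tendsto (fun k => - (π * ((r k : ℂ) * w) ^ m / m : ℂ)) Filter.atTop
      (nhds (- (π * ((1 : ℝ) * w) ^ m / m))) := by
    have hrc : Filter.Tendsto (fun k => (r k : ℂ)) Filter.atTop (nhds ((1 : ℝ) : ℂ)) :=
      (Complex.continuous_ofReal.tendsto 1).comp hr1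
    exact ((((hrc.mul_const w).pow m).const_mul (π : ℂ)).div_const (m : ℂ)).neg
  have hlim2 : Filter.Tendsto (fun k => ∫ θ, (Real.log ‖1 - (r k : ℂ) * w * zz θ‖ : ℂ) *
      (zz θ) ^ (-(m : ℤ)) ∂mu) Filter.atTop
      (nhds (∫ θ, (Real.log ‖1 - w * zz θ‖ : ℂ) * (zz θ) ^ (-(m : ℤ)) ∂mu)) := by
    apply tendsto_integral_of_dominated_convergence
      (fun θ => Real.log 2 + |Real.log ‖1 - w * zz θ‖|)
    · intro k
      have := (log_lin_integrable ((r k : ℂ) * w)).ofReal (𝕜 := ℂ)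
      have h2 : AEStronglyMeasurable (fun θ => (zz θ) ^ (-(m : ℤ))) mu :=
        (zpow_continuous _).aestronglyMeasurable
      exact this.aestronglyMeasurable.mul h2
    · exact (integrable_const _).add (log_lin_integrable w).abs
    · intro k
      filter_upwards [lin_ne_ae w] with θ hθ
      rw [norm_mul, norm_zpow, norm_zz, one_zpow, mul_one, Complex.norm_real, Real.norm_eq_abs]
      set ζ := w * zz θ with hζ
      have hζ1 : ‖ζ‖ ≤ 1 := by rw [hζ, norm_mul, norm_zz, mul_one]; exact hw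
      have e1 : 1 - (r k : ℂ) * w * zz θ = 1 - (r k : ℂ) * ζ := by rw [hζ]; ring
      rw [e1]
      have h3 : 0 < ‖1 - ζ‖ := norm_pos_iff.mpr hθ
      have h4 : ‖1 - (r k : ℂ) * ζ‖ ≤ 2 := by
        calc ‖1 - (r k : ℂ) * ζ‖ ≤ ‖(1 : ℂ)‖ + ‖(r k : ℂ) * ζ‖ := norm_sub_le _ _
          _ ≤ 1 + 1 := by
              rw [norm_one, norm_mul, Complex.norm_real, Real.norm_eq_abs, abs_of_nonneg (hr0 k)]
              have := mul_le_mul (hrlt k).le hζ1 (norm_nonneg _) zero_le_one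
              linarith
          _ = 2 := by norm_num
      have h5 : ‖1 - ζ‖ / 2 ≤ ‖1 - (r k : ℂ) * ζ‖ := by
        have h6 : ‖1 - ζ‖ ≤ ‖1 - (r k : ℂ) * ζ‖ + (1 - r k) * ‖ζ‖ := by
          have : (1 : ℂ) - ζ = (1 - (r k : ℂ) * ζ) - ((1 - r k : ℝ) : ℂ) * ζ := by push_cast; ring
          calc ‖1 - ζ‖ = ‖(1 - (r k : ℂ) * ζ) - ((1 - r k : ℝ) : ℂ) * ζ‖ := by rw [← this]
            _ ≤ ‖1 - (r k : ℂ) * ζ‖ + ‖((1 - r k : ℝ) : ℂ) * ζ‖ := norm_sub_le _ _
            _ = _ := by rw [norm_mul, Complex.norm_real, Real.norm_eq_abs, abs_of_nonneg (by linarith [hrlt k])]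
        have h7 : 1 - r k ≤ ‖1 - (r k : ℂ) * ζ‖ := by
          have h8 : ‖(1 : ℂ)‖ - ‖(r k : ℂ) * ζ‖ ≤ ‖1 - (r k : ℂ) * ζ‖ := norm_sub_norm_le _ _
          rw [norm_one, norm_mul, Complex.norm_real, Real.norm_eq_abs, abs_of_nonneg (hr0 k)] at h8
          have := mul_le_mul_of_nonneg_left hζ1 (hr0 k)
          linarith
        have h9 : (1 - r k) * ‖ζ‖ ≤ 1 - r k := mul_le_of_le_one_right (by linarith [hrlt k]) hζ1
        linarith
      have h10 : 0 < ‖1 - (r k : ℂ) * ζ‖ := lt_of_lt_of_le (by positivity) h5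
      rw [abs_le]
      constructor
      · have h11 := Real.log_le_log (by positivity) h5
        rw [Real.log_div h3.ne' (by norm_num)] at h11
        have := neg_abs_le (Real.log ‖1 - ζ‖)
        linarith
      · have h11 := Real.log_le_log h10 h4
        have := abs_nonneg (Real.log ‖1 - ζ‖)
        linarith
    · filter_upwards [lin_ne_ae w] with θ hθ
      have hrc : Filter.Tendsto (fun k => (r k : ℂ)) Filter.atTop (nhds ((1 : ℝ) : ℂ)) :=
        (Complex.continuous_ofReal.tendsto 1).comp hr1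
      have h2 : Filter.Tendsto (fun k => 1 - (r k : ℂ) * w * zz θ) Filter.atTop
          (nhds (1 - ((1 : ℝ) : ℂ) * w * zz θ)) :=
        ((hrc.mul_const w).mul_const (zz θ)).const_sub 1
      have e1 : 1 - ((1 : ℝ) : ℂ) * w * zz θ = 1 - w * zz θ := by push_cast; ring
      rw [e1] at h2
      have h3 := (h2.norm).log (norm_ne_zero_iff.mpr hθ)
      have h4 : Filter.Tendsto (fun k => (Real.log ‖1 - (r k : ℂ) * w * zz θ‖ : ℂ)) Filter.atTop
          (nhds (Real.log ‖1 - w * zz θ‖ : ℂ)) :=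
        (Complex.continuous_ofReal.tendsto _).comp h3
      exact h4.mul_const _
  simp_rw [h1] at hlim2
  have := tendsto_nhds_unique hlim1 hlim2
  rw [← this]
  push_cast
  ring

end Pool.Agent.Lib.MP_7ab245_nt.LogVar
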