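import Mathlib
import Pool.Agent.Lib.MP_7ab245_nt.LogVar.Fourier

/-!
Bessel's inequality on the circle.
-/

set_option autoImplicit false

open MeasureTheory Real Finset

namespace Pool.Agent.Lib.MP_7ab245_nt.LogVar

open Pool.Agent.Lib.MP_7ab245_nt.Mono

lemma conj_zpow_zz (θ : ℝ) (n : ℤ) : (starRingEnd ℂ) ((zz θ) ^ n) = (zz θ) ^ (-n) := by
  rw [map_zpow₀, conj_zz, inv_zpow, zpow_neg]

lemma U_integrable (U : ℝ → ℝ) (hU : Integrable U mu) (n : ℤ) :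
    Integrable (fun θ => (U θ : ℂ) * (zz θ) ^ n) mu := by
  have h1 := hU.ofReal (𝕜 := ℂ)
  refine h1.mul_bdd (c := 1) (zpow_continuous n).aestronglyMeasurable (Filter.Eventually.of_forall ?_)
  intro θ
  rw [norm_zpow, norm_zz, one_zpow]

theorem bessel (U : ℝ → ℝ) (hU : Integrable U mu) (hU2 : Integrable (fun θ => U θ ^ 2) mu) (M : ℕ) :
    ∑ m ∈ range M, ‖∫ θ, (U θ : ℂ) * (zz θ) ^ (-((m : ℤ) + 1)) ∂mu‖ ^ 2 ≤
      2 * π * ∫ θ, U θ ^ 2 ∂mu := by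
  have hpi : (0 : ℝ) < 2 * π := by positivity
  have hpic : ((2 * π : ℝ) : ℂ) ≠ 0 := by exact_mod_cast hpi.ne'
  set I : ℕ → ℂ := fun m => ∫ θ, (U θ : ℂ) * (zz θ) ^ (-((m : ℤ) + 1)) ∂mu with hI
  set a : ℕ → ℂ := fun m => I m / ((2 * π : ℝ) : ℂ) with ha
  set S : ℝ → ℂ := fun θ => ∑ m ∈ range M, a m * (zz θ) ^ ((m : ℤ) + 1) with hS
  have hScont : Continuous S := continuous_finsetSum _ (fun m _ => continuous_const.mul (zpow_continuous _))
  have hconjI : ∀ m : ℕ, ∫ θ, (U θ : ℂ) * (zz θ) ^ ((m : ℤ) + 1) ∂mu = (starRingEnd ℂ) (I m) := by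
    intro m
    simp only [hI]
    rw [← integral_conj]
    congr 1
    ext θ
    rw [map_mul, conj_zpow_zz, Complex.conj_ofReal, neg_neg]
  have hpt : ∀ θ, ((‖(U θ : ℂ) - S θ‖ ^ 2 : ℝ) : ℂ) = (((U θ ^ 2 : ℝ) : ℂ) -
      ∑ m ∈ range M, (starRingEnd ℂ) (a m) * ((U θ : ℂ) * (zz θ) ^ (-((m : ℤ) + 1)))) -
      (∑ m ∈ range M, a m * ((U θ : ℂ) * (zz θ) ^ ((m : ℤ) + 1))) +
      ∑ m ∈ range M, ∑ n ∈ range M, (a m * (starRingEnd ℂ) (a n)) * (zz θ) ^ ((m : ℤ) - n) := by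
    intro θ
    have h1 : ((‖(U θ : ℂ) - S θ‖ ^ 2 : ℝ) : ℂ) = ((U θ : ℂ) - S θ) * (starRingEnd ℂ) ((U θ : ℂ) - S θ) := by
      rw [Complex.mul_conj, Complex.normSq_eq_norm_sq]
    have h2 : (starRingEnd ℂ) (S θ) = ∑ m ∈ range M, (starRingEnd ℂ) (a m) * (zz θ) ^ (-((m : ℤ) + 1)) := by
      simp only [hS]
      rw [map_sum]
      refine sum_congr rfl (fun m _ => ?_)
      rw [map_mul, conj_zpow_zz]
    have h3 : S θ * (starRingEnd ℂ) (S θ) = ∑ m ∈ range M, ∑ n ∈ range M,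
        (a m * (starRingEnd ℂ) (a n)) * (zz θ) ^ ((m : ℤ) - n) := by
      rw [h2]
      simp only [hS]
      rw [sum_mul_sum]
      refine sum_congr rfl (fun m _ => sum_congr rfl (fun n _ => ?_))
      have e0 : zz θ ^ ((m : ℤ) - n) = zz θ ^ ((m : ℤ) + 1) * zz θ ^ (-((n : ℤ) + 1)) := by
        rw [← zpow_add₀ (zz_ne θ)]
        congr 1
        ring
      rw [e0]
      generalize zz θ ^ ((m : ℤ) + 1) = p
      generalize zz θ ^ (-((n : ℤ) + 1)) = q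
      ring
    have h4 : ∑ m ∈ range M, (starRingEnd ℂ) (a m) * ((U θ : ℂ) * (zz θ) ^ (-((m : ℤ) + 1))) =
        (U θ : ℂ) * (starRingEnd ℂ) (S θ) := by
      rw [h2, mul_sum]
      exact sum_congr rfl (fun m _ => by ring)
    have h5 : ∑ m ∈ range M, a m * ((U θ : ℂ) * (zz θ) ^ ((m : ℤ) + 1)) = (U θ : ℂ) * S θ := by
      simp only [hS]
      rw [mul_sum]
      exact sum_congr rfl (fun m _ => by ring)
    rw [h1, h4, h5, ← h3, map_sub, Complex.conj_ofReal]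
    push_cast
    ring
  have hi1 : Integrable (fun θ => ((U θ ^ 2 : ℝ) : ℂ)) mu := hU2.ofReal (𝕜 := ℂ)
  have hi2 : Integrable (fun θ => ∑ m ∈ range M, (starRingEnd ℂ) (a m) *
      ((U θ : ℂ) * (zz θ) ^ (-((m : ℤ) + 1)))) mu :=
    integrable_finsetSum _ (fun m _ => (U_integrable U hU _).const_mul _)
  have hi3 : Integrable (fun θ => ∑ m ∈ range M, a m * ((U θ : ℂ) * (zz θ) ^ ((m : ℤ) + 1))) mu :=
    integrable_finsetSum _ (fun m _ => (U_integrable U hU _).const_mul _)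
  have hi4' : ∀ m n : ℕ, Integrable (fun θ => (a m * (starRingEnd ℂ) (a n)) *
      (zz θ) ^ ((m : ℤ) - n)) mu := fun m n => (contC_integrable _ (zpow_continuous _)).const_mul _
  have hi4 : Integrable (fun θ => ∑ m ∈ range M, ∑ n ∈ range M, (a m * (starRingEnd ℂ) (a n)) *
      (zz θ) ^ ((m : ℤ) - n)) mu :=
    integrable_finsetSum _ (fun m _ => integrable_finsetSum _ (fun n _ => hi4' m n))
  have hi12 : Integrable (fun θ => ((U θ ^ 2 : ℝ) : ℂ) - ∑ m ∈ range M, (starRingEnd ℂ) (a m) *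
      ((U θ : ℂ) * (zz θ) ^ (-((m : ℤ) + 1)))) mu := hi1.sub hi2
  have hi123 : Integrable (fun θ => ((U θ ^ 2 : ℝ) : ℂ) - ∑ m ∈ range M, (starRingEnd ℂ) (a m) *
      ((U θ : ℂ) * (zz θ) ^ (-((m : ℤ) + 1))) -
      ∑ m ∈ range M, a m * ((U θ : ℂ) * (zz θ) ^ ((m : ℤ) + 1))) mu := hi12.sub hi3
  have hint : ((∫ θ, ‖(U θ : ℂ) - S θ‖ ^ 2 ∂mu : ℝ) : ℂ) = ((∫ θ, U θ ^ 2 ∂mu : ℝ) : ℂ) -
      ∑ m ∈ range M, ((‖I m‖ ^ 2 / (2 * π) : ℝ) : ℂ) := by
    rw [← integral_complex_ofReal]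
    simp_rw [hpt]
    rw [integral_add hi123 hi4, integral_sub hi12 hi3,
      integral_sub hi1 hi2, integral_complex_ofReal, integral_finsetSum _ (fun m _ => (U_integrable U hU _).const_mul _),
      integral_finsetSum _ (fun m _ => (U_integrable U hU _).const_mul _),
      integral_finsetSum _ (fun m _ => integrable_finsetSum _ (fun n _ => hi4' m n))]
    have e1 : ∀ m ∈ range M, ∫ θ, (starRingEnd ℂ) (a m) * ((U θ : ℂ) * (zz θ) ^ (-((m : ℤ) + 1))) ∂mu =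
        ((‖I m‖ ^ 2 / (2 * π) : ℝ) : ℂ) := by
      intro m _
      rw [integral_const_mul]
      change (starRingEnd ℂ) (a m) * I m = _
      simp only [ha]
      rw [map_div₀, Complex.conj_ofReal, div_mul_eq_mul_div, mul_comm, Complex.mul_conj,
        Complex.normSq_eq_norm_sq]
      push_cast; ring
    have e2 : ∀ m ∈ range M, ∫ θ, a m * ((U θ : ℂ) * (zz θ) ^ ((m : ℤ) + 1)) ∂mu =
        ((‖I m‖ ^ 2 / (2 * π) : ℝ) : ℂ) := by
      intro m _
      rw [integral_const_mul, hconjI]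
      simp only [ha]
      rw [div_mul_eq_mul_div, Complex.mul_conj, Complex.normSq_eq_norm_sq]
      push_cast; ring
    have e3 : ∀ m ∈ range M, ∫ θ, ∑ n ∈ range M, (a m * (starRingEnd ℂ) (a n)) *
        (zz θ) ^ ((m : ℤ) - n) ∂mu = ((‖I m‖ ^ 2 / (2 * π) : ℝ) : ℂ) := by
      intro m hm
      rw [integral_finsetSum _ (fun n _ => hi4' m n), sum_eq_single m]
      · rw [integral_const_mul, int_zz, if_pos (by ring), Complex.mul_conj, Complex.normSq_eq_norm_sq]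
        simp only [ha]
        rw [norm_div, Complex.norm_real, Real.norm_eq_abs, abs_of_pos hpi, div_pow]
        push_cast
        field_simp
      · intro n _ hn
        rw [integral_const_mul, int_zz, if_neg (by omega), mul_zero]
      · intro h; exact absurd hm h
    rw [sum_congr rfl e1, sum_congr rfl e2, sum_congr rfl e3]
    ring
  have hnn : 0 ≤ ∫ θ, ‖(U θ : ℂ) - S θ‖ ^ 2 ∂mu := integral_nonneg (fun θ => by positivity)
  have hfin : ∫ θ, ‖(U θ : ℂ) - S θ‖ ^ 2 ∂mu = ∫ θ, U θ ^ 2 ∂mu -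
      ∑ m ∈ range M, (‖I m‖ ^ 2 / (2 * π)) := by
    have := hint
    rw [← Complex.ofReal_sum, ← Complex.ofReal_sub] at this
    exact_mod_cast this
  rw [hfin, ← sum_div, sub_nonneg, div_le_iff₀ hpi] at hnn
  linarith

end Pool.Agent.Lib.MP_7ab245_nt.LogVar
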