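import Mathlib
import Pool.Agent.Lib.MP_7ab245_nt.LogVar.Bessel

/-!
The mean square of `log |f|` on the unit circle for a polynomial with few monomials.
-/

set_option autoImplicit false

open MeasureTheory Real Polynomial

namespace Pool.Agent.Lib.MP_7ab245_nt.LogVar

open Pool.Agent.Lib.MP_7ab245_nt.Mono

/-- pointwise inequality behind the variance bound -/
lemma sq_le_exp (u u0 κ : ℝ) (hu : 0 ≤ u) (hu0 : 0 ≤ u0) (hκ : 0 < κ) :
    u ^ 2 ≤ u0 * u + (2 * κ * u0 + 8 * κ ^ 2) * Real.exp ((u - u0) / (2 * κ)) := by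
  have hexp : 0 < Real.exp ((u - u0) / (2 * κ)) := Real.exp_pos _
  rcases le_total u u0 with h | h
  · have h1 : u ^ 2 ≤ u0 * u := by nlinarith
    have h2 : 0 ≤ (2 * κ * u0 + 8 * κ ^ 2) * Real.exp ((u - u0) / (2 * κ)) := by positivity
    linarith
  · set v := (u - u0) / (2 * κ) with hv
    have hv0 : 0 ≤ v := by rw [hv]; apply div_nonneg <;> linarith
    have huv : u = u0 + 2 * κ * v := by rw [hv]; field_simp; ring
    have h1 : v ≤ Real.exp v := by linarith [Real.add_one_le_exp v]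
    have h2 : v ^ 2 ≤ 2 * Real.exp v := by
      have := Real.quadratic_le_exp_of_nonneg hv0
      nlinarith
    rw [huv]
    have h3 : (u0 + 2 * κ * v) ^ 2 = u0 * (u0 + 2 * κ * v) + 2 * κ * u0 * v + 4 * κ ^ 2 * v ^ 2 := by
      ring
    rw [h3]
    have h4 : 2 * κ * u0 * v ≤ 2 * κ * u0 * Real.exp v := mul_le_mul_of_nonneg_left h1 (by positivity)
    have h5 : 4 * κ ^ 2 * v ^ 2 ≤ 4 * κ ^ 2 * (2 * Real.exp v) :=
      mul_le_mul_of_nonneg_left h2 (by positivity)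
    nlinarith

variable {ι : Type} [Fintype ι]

lemma hh_le_sum (c : ι → ℂ) (e : ι → ℤ) (θ : ℝ) : hh c e θ ≤ ∑ j, ‖c j‖ := by
  unfold hh ls
  refine (norm_sum_le _ _).trans (Finset.sum_le_sum (fun j _ => ?_))
  rw [norm_mul, norm_zpow, norm_circleMap_one, one_zpow, mul_one]

/-- pointwise bound for `(log h)^2` -/
lemma log_sq_le (κ : ℕ) (hκ : 1 ≤ κ) (h A : ℝ) (hh0 : 0 < h) (hhA : h ≤ A) (hA : 1 ≤ A) (u0 : ℝ)
    (hu0 : 0 ≤ u0) :
    Real.log h ^ 2 ≤ Real.log A ^ 2 + u0 * (max (Real.log h) 0 - Real.log h) +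
      (2 * κ * u0 + 8 * κ ^ 2) * Real.exp (-u0 / (2 * κ)) * h ^ (-(1 / (2 * κ : ℝ))) := by
  have hκ0 : (0 : ℝ) < κ := by exact_mod_cast hκ
  have hlA : 0 ≤ Real.log A := Real.log_nonneg hA
  have hpow : 0 < h ^ (-(1 / (2 * κ : ℝ))) := Real.rpow_pos_of_pos hh0 _
  rcases le_total 0 (Real.log h) with h1 | h1
  · rw [max_eq_left h1, sub_self, mul_zero, add_zero]
    have h2 : Real.log h ≤ Real.log A := Real.log_le_log hh0 hhA
    have h3 : Real.log h ^ 2 ≤ Real.log A ^ 2 := pow_le_pow_left₀ h1 h2 2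
    have h4 : 0 ≤ (2 * κ * u0 + 8 * κ ^ 2) * Real.exp (-u0 / (2 * κ)) * h ^ (-(1 / (2 * κ : ℝ))) := by
      positivity
    linarith
  · rw [max_eq_right h1, zero_sub]
    have h2 := sq_le_exp (-Real.log h) u0 κ (by linarith) hu0 hκ0
    have h3 : Real.exp ((-Real.log h - u0) / (2 * κ)) =
        Real.exp (-u0 / (2 * κ)) * h ^ (-(1 / (2 * κ : ℝ))) := by
      rw [Real.rpow_def_of_pos hh0, ← Real.exp_add]
      congr 1
      field_simp
      ring
    rw [h3] at h2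
    have h4 : (-Real.log h) ^ 2 = Real.log h ^ 2 := by ring
    rw [h4] at h2
    have h5 : 0 ≤ Real.log A ^ 2 := by positivity
    calc Real.log h ^ 2 ≤ u0 * -Real.log h + (2 * κ * u0 + 8 * κ ^ 2) *
          (Real.exp (-u0 / (2 * κ)) * h ^ (-(1 / (2 * κ : ℝ)))) := h2
      _ ≤ _ := by
        have : (2 * κ * u0 + 8 * κ ^ 2) * (Real.exp (-u0 / (2 * κ)) * h ^ (-(1 / (2 * κ : ℝ)))) =
          (2 * κ * u0 + 8 * κ ^ 2) * Real.exp (-u0 / (2 * κ)) * h ^ (-(1 / (2 * κ : ℝ))) := by ring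
        linarith

lemma log_sq_aux (κ : ℕ) (hκ : 1 ≤ κ) (hcard : Fintype.card ι ≤ κ)
    (c : ι → ℂ) (e : ι → ℤ) (he : Function.Injective e) (m : ι) (hm : 1 ≤ ‖c m‖) (u0 : ℝ)
    (hu0 : 0 ≤ u0) :
    Integrable (fun θ => Real.log (∑ j, ‖c j‖) ^ 2 + u0 * (max (Real.log (hh c e θ)) 0 -
      Real.log (hh c e θ)) + (2 * κ * u0 + 8 * κ ^ 2) * Real.exp (-u0 / (2 * κ)) *
      hh c e θ ^ (-(1 / (2 * κ : ℝ)))) mu ∧
    ∀ᵐ θ ∂mu, Real.log (hh c e θ) ^ 2 ≤ Real.log (∑ j, ‖c j‖) ^ 2 +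
      u0 * (max (Real.log (hh c e θ)) 0 - Real.log (hh c e θ)) +
      (2 * κ * u0 + 8 * κ ^ 2) * Real.exp (-u0 / (2 * κ)) * hh c e θ ^ (-(1 / (2 * κ : ℝ))) := by
  have hA : 1 ≤ ∑ j, ‖c j‖ := hm.trans (Finset.single_le_sum (fun j _ => norm_nonneg (c j)) (Finset.mem_univ m))
  constructor
  · have h1 := log_integrable c e
    have h2 := (neg_moment κ hκ hcard c e he m hm).1
    exact ((integrable_const _).add ((h1.pos_part.sub h1).const_mul u0)).add (h2.const_mul _)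
  · filter_upwards [mu_zero κ hκ hcard c e he m hm] with θ hθ
    exact log_sq_le κ hκ _ _ hθ (hh_le_sum c e θ) hA u0 hu0

/-- `(log h)^2` is integrable -/
theorem log_sq_integrable (κ : ℕ) (hκ : 1 ≤ κ) (hcard : Fintype.card ι ≤ κ)
    (c : ι → ℂ) (e : ι → ℤ) (he : Function.Injective e) (m : ι) (hm : 1 ≤ ‖c m‖) :
    Integrable (fun θ => Real.log (hh c e θ) ^ 2) mu := by
  obtain ⟨h1, h2⟩ := log_sq_aux κ hκ hcard c e he m hm 0 le_rfl
  refine h1.mono' ?_ ?_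
  · exact ((hh_continuous c e).measurable.log.pow_const 2).aestronglyMeasurable
  · filter_upwards [h2] with θ hθ
    rw [Real.norm_eq_abs, abs_of_nonneg (by positivity)]
    exact hθ

/-- the bound for the mean square of `log |f|` -/
theorem var_bound (κ : ℕ) (hκ : 1 ≤ κ) (hcard : Fintype.card ι ≤ κ)
    (c : ι → ℂ) (e : ι → ℤ) (he : Function.Injective e) (m : ι) (hm : 1 ≤ ‖c m‖)
    (hpos : 0 ≤ ∫ θ, Real.log (hh c e θ) ∂mu) :
    ∫ θ, Real.log (hh c e θ) ^ 2 ∂mu ≤ 2 * π * (Real.log (∑ j, ‖c j‖) ^ 2 +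
      4 * κ * Real.log (15 * κ) * (Real.log (∑ j, ‖c j‖) + 1)) := by
  have hκ0 : (0 : ℝ) < κ := by exact_mod_cast hκ
  have hκ1 : (1 : ℝ) ≤ κ := by exact_mod_cast hκ
  set A := ∑ j, ‖c j‖ with hAdef
  have hA : 1 ≤ A := hm.trans (Finset.single_le_sum (fun j _ => norm_nonneg (c j)) (Finset.mem_univ m))
  have hlA : 0 ≤ Real.log A := Real.log_nonneg hA
  set ℓ := Real.log (15 * κ) with hℓ
  have hℓ1 : 1 ≤ ℓ := by
    rw [hℓ, Real.le_log_iff_exp_le (by positivity)]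
    have := Real.exp_one_lt_three
    linarith
  set u0 := 4 * κ * ℓ with hu0
  have hu00 : 0 ≤ u0 := by positivity
  obtain ⟨h1, h2⟩ := log_sq_aux κ hκ hcard c e he m hm u0 hu00
  have h3 := integral_mono_ae (log_sq_integrable κ hκ hcard c e he m hm) h1 h2
  have hL := log_integrable c e
  obtain ⟨hN, hN2⟩ := neg_moment κ hκ hcard c e he m hm
  have e1 : ∫ θ, (Real.log A ^ 2 + u0 * (max (Real.log (hh c e θ)) 0 - Real.log (hh c e θ)) +
      (2 * κ * u0 + 8 * κ ^ 2) * Real.exp (-u0 / (2 * κ)) * hh c e θ ^ (-(1 / (2 * κ : ℝ)))) ∂mu =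
      2 * π * Real.log A ^ 2 + u0 * (∫ θ, max (Real.log (hh c e θ)) 0 ∂mu - ∫ θ, Real.log (hh c e θ) ∂mu) +
      (2 * κ * u0 + 8 * κ ^ 2) * Real.exp (-u0 / (2 * κ)) * ∫ θ, hh c e θ ^ (-(1 / (2 * κ : ℝ))) ∂mu := by
    have i1 : Integrable (fun θ => max (Real.log (hh c e θ)) 0 - Real.log (hh c e θ)) mu :=
      hL.pos_part.sub hL
    have i2 : Integrable (fun θ => Real.log A ^ 2 + u0 * (max (Real.log (hh c e θ)) 0 -
      Real.log (hh c e θ))) mu := (integrable_const _).add (i1.const_mul u0)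
    rw [integral_add i2 (hN.const_mul _), integral_add (integrable_const _) (i1.const_mul u0),
      integral_const_mul, integral_const_mul, integral_sub hL.pos_part hL, integral_const,
      mu_real_univ, smul_eq_mul]
  rw [e1] at h3
  have h4 : ∫ θ, max (Real.log (hh c e θ)) 0 ∂mu ≤ 2 * π * Real.log A := by
    calc ∫ θ, max (Real.log (hh c e θ)) 0 ∂mu ≤ ∫ _, Real.log A ∂mu := by
          refine integral_mono_ae hL.pos_part (integrable_const _) ?_
          filter_upwards [mu_zero κ hκ hcard c e he m hm] with θ hθ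
          exact max_le (Real.log_le_log hθ (hh_le_sum c e θ)) hlA
      _ = 2 * π * Real.log A := by rw [integral_const, mu_real_univ, smul_eq_mul]
  have h5 : Real.exp (-u0 / (2 * κ)) = 1 / (15 * κ) ^ 2 := by
    have : -u0 / (2 * κ) = -(2 * ℓ) := by rw [hu0]; field_simp; ring
    rw [this, Real.exp_neg, two_mul, Real.exp_add, hℓ, Real.exp_log (by positivity), ← sq, one_div]
  have h6 : (2 * κ * u0 + 8 * κ ^ 2) * Real.exp (-u0 / (2 * κ)) *
      ∫ θ, hh c e θ ^ (-(1 / (2 * κ : ℝ))) ∂mu ≤ 2 * π * (4 * κ * ℓ) := by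
    calc (2 * κ * u0 + 8 * κ ^ 2) * Real.exp (-u0 / (2 * κ)) *
          ∫ θ, hh c e θ ^ (-(1 / (2 * κ : ℝ))) ∂mu
        ≤ (2 * κ * u0 + 8 * κ ^ 2) * Real.exp (-u0 / (2 * κ)) * (2 * π * (1 + 14 * κ)) :=
          mul_le_mul_of_nonneg_left hN2 (by positivity)
      _ = 2 * π * ((8 * κ ^ 2 * (ℓ + 1)) * ((1 + 14 * κ) / (15 * κ) ^ 2)) := by
          rw [h5, hu0]; field_simp; ring
      _ ≤ 2 * π * ((8 * κ ^ 2 * (2 * ℓ)) * (1 / (15 * κ))) := by
          have h7 : (1 + 14 * κ) / (15 * κ : ℝ) ^ 2 ≤ 1 / (15 * κ) := by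
            rw [div_le_div_iff₀ (by positivity) (by positivity)]
            nlinarith
          have h8 : (8 * κ ^ 2 * (ℓ + 1) : ℝ) ≤ 8 * κ ^ 2 * (2 * ℓ) := by nlinarith [sq_nonneg (κ : ℝ)]
          have h9 := mul_le_mul h8 h7 (by positivity) (by positivity)
          have hpi : (0 : ℝ) ≤ 2 * π := by positivity
          exact mul_le_mul_of_nonneg_left h9 hpi
      _ = 2 * π * (16 / 15 * κ * ℓ) := by field_simp; ring
      _ ≤ 2 * π * (4 * κ * ℓ) := by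
          have : (16 : ℝ) / 15 * κ * ℓ ≤ 4 * κ * ℓ := by nlinarith [mul_pos hκ0 (by linarith : (0 : ℝ) < ℓ)]
          have hpi : (0 : ℝ) ≤ 2 * π := by positivity
          exact mul_le_mul_of_nonneg_left this hpi
  have h10 : u0 * (∫ θ, max (Real.log (hh c e θ)) 0 ∂mu - ∫ θ, Real.log (hh c e θ) ∂mu) ≤
      u0 * (2 * π * Real.log A) := mul_le_mul_of_nonneg_left (by linarith) hu00
  calc ∫ θ, Real.log (hh c e θ) ^ 2 ∂mu ≤ _ := h3
    _ ≤ 2 * π * Real.log A ^ 2 + u0 * (2 * π * Real.log A) + 2 * π * (4 * κ * ℓ) := by linarith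
    _ = _ := by rw [hu0]; ring

end Pool.Agent.Lib.MP_7ab245_nt.LogVar
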