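import Mathlib
import Pool.Agent.Lib.MP_7ab245_nt.LogVar.Var
import Pool.Agent.Lib.MP_7ab245_nt.LogVar.LogDer

/-!
Factorisation of a polynomial: constant, Blaschke product, outer part.
-/

set_option autoImplicit false

open MeasureTheory

namespace Pool.Agent.Lib.MP_7ab245_nt.LogVar

open Pool.Agent.Lib.MP_7ab245_nt.Mono

noncomputable def ww (z : ℂ) : ℂ := if ‖z‖ < 1 then (starRingEnd ℂ) z else z⁻¹
noncomputable def cc (z : ℂ) : ℂ := if ‖z‖ < 1 then 1 else -z
noncomputable def BB (z : ℂ) : PowerSeries ℂ := if ‖z‖ < 1 then bl z else 1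
noncomputable def oo (z : ℂ) : PowerSeries ℂ := 1 - PowerSeries.C (ww z) * PowerSeries.X

lemma factor (z : ℂ) (hz : z ≠ 0) :
    (PowerSeries.X - PowerSeries.C z : PowerSeries ℂ) = PowerSeries.C (cc z) * (BB z * oo z) := by
  unfold cc BB oo ww
  by_cases h : ‖z‖ < 1
  · rw [if_pos h, if_pos h, if_pos h, bl_mul, map_one, one_mul]
  · rw [if_neg h, if_neg h, if_neg h, one_mul, mul_sub, mul_one, ← mul_assoc, ← map_mul]
    have : -z * z⁻¹ = -1 := by field_simp
    rw [this, map_neg, map_neg, map_one]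
    ring

lemma PC_BB (z : ℂ) : PC (BB z) := by
  unfold BB
  split_ifs with h
  · exact PC_bl z h.le
  · exact PC_one

lemma norm_ww_le (z : ℂ) : ‖ww z‖ ≤ 1 := by
  unfold ww
  split_ifs with h
  · rw [Complex.norm_conj]; exact h.le
  · rw [norm_inv]; exact inv_le_one_of_one_le₀ (not_lt.mp h)

lemma norm_cc (z : ℂ) : ‖cc z‖ = max 1 ‖z‖ := by
  unfold cc
  split_ifs with h
  · rw [norm_one, max_eq_left h.le]
  · rw [norm_neg, max_eq_right (not_lt.mp h)]

lemma BB_ne (z : ℂ) (hz : z ≠ 0) : PowerSeries.constantCoeff (BB z) ≠ 0 := by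
  unfold BB
  split_ifs with h
  · rw [← PowerSeries.coeff_zero_eq_constantCoeff_apply, bl_coeff_zero]; exact neg_ne_zero.mpr hz
  · simp

lemma oo_ne (z : ℂ) : PowerSeries.constantCoeff (oo z) ≠ 0 := den_ne _

lemma norm_on_circle (z ζ : ℂ) (hz : z ≠ 0) (hζ : ‖ζ‖ = 1) :
    ‖ζ - z‖ = ‖cc z‖ * ‖1 - ww z * ζ‖ := by
  unfold cc ww
  by_cases h : ‖z‖ < 1
  · rw [if_pos h, if_pos h, norm_one, one_mul]
    have h1 : ζ * (starRingEnd ℂ) ζ = 1 := by
      rw [Complex.mul_conj, Complex.normSq_eq_norm_sq, hζ]; simp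
    have h2 : ζ - z = ζ * (starRingEnd ℂ) (1 - (starRingEnd ℂ) z * ζ) := by
      rw [map_sub, map_one, map_mul, Complex.conj_conj]
      linear_combination z * h1
    rw [h2, norm_mul, hζ, one_mul, Complex.norm_conj]
  · rw [if_neg h, if_neg h, ← norm_mul]
    congr 1
    field_simp
    ring

section poly

variable (p : Polynomial ℂ)

noncomputable def bb : PowerSeries ℂ := (p.roots.map BB).prod
noncomputable def ho : PowerSeries ℂ := (p.roots.map oo).prod
noncomputable def kk : ℂ := p.leadingCoeff * (p.roots.map cc).prod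

lemma PC_bb : PC (bb p) := PC_multiset _ _ (fun z _ => PC_BB z)

lemma roots_ne {p : Polynomial ℂ} (h0 : p.coeff 0 ≠ 0) : ∀ z ∈ p.roots, z ≠ 0 := by
  intro z hz h
  have h1 := (Polynomial.mem_roots'.mp hz).2
  rw [h, Polynomial.IsRoot.def, ← Polynomial.coeff_zero_eq_eval_zero] at h1
  exact h0 h1

lemma prod_factor (S : Multiset ℂ) (hS : ∀ z ∈ S, z ≠ 0) :
    (S.map (fun z => (PowerSeries.X - PowerSeries.C z : PowerSeries ℂ))).prod =
      PowerSeries.C (S.map cc).prod * ((S.map BB).prod * (S.map oo).prod) := by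
  induction S using Multiset.induction_on with
  | empty => simp
  | cons a S ih =>
    simp only [Multiset.map_cons, Multiset.prod_cons]
    rw [ih (fun z hz => hS z (Multiset.mem_cons_of_mem hz)), factor a (hS a (Multiset.mem_cons_self a S)),
      map_mul]
    ring

lemma poly_eq (h0 : p.coeff 0 ≠ 0) :
    (p : PowerSeries ℂ) = PowerSeries.C (kk p) * (bb p * ho p) := by
  have h1 : p = Polynomial.C p.leadingCoeff * (p.roots.map (fun a => Polynomial.X - Polynomial.C a)).prod :=
    (IsAlgClosed.splits p).eq_prod_roots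
  have h2 : (p : PowerSeries ℂ) = PowerSeries.C p.leadingCoeff *
      (p.roots.map (fun z => (PowerSeries.X - PowerSeries.C z : PowerSeries ℂ))).prod := by
    conv_lhs => rw [h1]
    rw [Polynomial.coe_mul, Polynomial.coe_C]
    congr 1
    rw [← Polynomial.coeToPowerSeries.ringHom_apply, map_multiset_prod, Multiset.map_map]
    congr 1
    apply Multiset.map_congr rfl
    intro a _
    simp
  rw [h2, prod_factor _ (roots_ne h0), kk, bb, ho, map_mul]
  ring

lemma norm_kk : ‖kk p‖ = p.mahlerMeasure := by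
  rw [kk, norm_mul, Polynomial.mahlerMeasure_eq_leadingCoeff_mul_prod_roots]
  congr 1
  generalize p.roots = T
  induction T using Multiset.induction_on with
  | empty => simp
  | cons a T ih =>
    rw [Multiset.map_cons, Multiset.prod_cons, norm_mul, ih, norm_cc, Multiset.map_cons,
      Multiset.prod_cons]

lemma bb_ne (h0 : p.coeff 0 ≠ 0) : PowerSeries.constantCoeff (bb p) ≠ 0 := by
  unfold bb
  rw [map_multiset_prod, Multiset.map_map]
  apply Multiset.prod_ne_zero
  intro h
  rw [Multiset.mem_map] at h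
  obtain ⟨i, hi, h⟩ := h
  exact BB_ne i (roots_ne h0 i hi) h

lemma ho_const : PowerSeries.constantCoeff (ho p) = 1 := by
  unfold ho
  rw [map_multiset_prod, Multiset.map_map]
  apply Multiset.prod_eq_one
  intro x hx
  rw [Multiset.mem_map] at hx
  obtain ⟨i, _, rfl⟩ := hx
  simp [oo]

lemma ho_ne : PowerSeries.constantCoeff (ho p) ≠ 0 := by
  rw [ho_const]; exact one_ne_zero

lemma kk_ne (h0 : p.coeff 0 ≠ 0) : kk p ≠ 0 := by
  have hp : p ≠ 0 := by
    rintro rfl; simp at h0
  rw [← norm_ne_zero_iff, norm_kk]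
  exact (Polynomial.mahlerMeasure_pos_of_ne_zero hp).ne'

lemma norm_bb_zero (h0 : ‖p.coeff 0‖ = 1) :
    ‖PowerSeries.coeff 0 (bb p)‖ = (p.mahlerMeasure)⁻¹ := by
  have h0' : p.coeff 0 ≠ 0 := by
    intro h; rw [h, norm_zero] at h0; exact zero_ne_one h0
  have h1 := congrArg (PowerSeries.coeff 0) (poly_eq p h0')
  rw [Polynomial.coeff_coe, PowerSeries.coeff_zero_eq_constantCoeff_apply, map_mul, map_mul,
    ho_const, PowerSeries.constantCoeff_C, mul_one] at h1
  rw [h1, norm_mul, norm_kk] at h0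
  rw [PowerSeries.coeff_zero_eq_constantCoeff_apply]
  exact eq_inv_of_mul_eq_one_right h0

lemma ld_poly (h0 : p.coeff 0 ≠ 0) : ld (p : PowerSeries ℂ) = ld (bb p) + ld (ho p) := by
  rw [poly_eq p h0, ld_C_mul (kk_ne p h0), ld_mul (bb_ne p h0) (ho_ne p)]
  rw [map_mul]
  exact mul_ne_zero (bb_ne p h0) (ho_ne p)

lemma coeff_ld_ho (m : ℕ) (hm : 1 ≤ m) :
    PowerSeries.coeff m (ld (ho p)) = - (p.roots.map (fun z => ww z ^ m)).sum := by
  unfold ho
  rw [ld_multiset _ _ (fun z _ => oo_ne z)]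
  generalize p.roots = S
  induction S using Multiset.induction_on with
  | empty => simp
  | cons a S ih =>
    rw [Multiset.map_cons, Multiset.sum_cons, map_add, ih, Multiset.map_cons, Multiset.sum_cons]
    have : PowerSeries.coeff m (ld (oo a)) = - ww a ^ m := coeff_ld_lin (ww a) m hm
    rw [this]
    ring

/-- `log |p|` on the circle -/
lemma log_eval (h0 : p.coeff 0 ≠ 0) (ζ : ℂ) (hζ : ‖ζ‖ = 1) (hne : ∀ z ∈ p.roots, 1 - ww z * ζ ≠ 0) :
    Real.log ‖p.eval ζ‖ = Real.log p.mahlerMeasure +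
      (p.roots.map (fun z => Real.log ‖1 - ww z * ζ‖)).sum := by
  have hp : p ≠ 0 := by
    rintro rfl; simp at h0
  have h1 : p.eval ζ = p.leadingCoeff * (p.roots.map (fun a => ζ - a)).prod := by
    conv_lhs => rw [(IsAlgClosed.splits p).eq_prod_roots]
    rw [Polynomial.eval_mul, Polynomial.eval_C, Polynomial.eval_multiset_prod, Multiset.map_map]
    congr 2
    apply Multiset.map_congr rfl
    intro a _
    simp
  have h2 : ∀ S : Multiset ℂ, (∀ z ∈ S, z ≠ 0) → ‖(S.map (fun a => ζ - a)).prod‖ =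
      (S.map (fun z => max 1 ‖z‖)).prod * (S.map (fun z => ‖1 - ww z * ζ‖)).prod := by
    intro S hS
    induction S using Multiset.induction_on with
    | empty => simp
    | cons a S ih =>
      simp only [Multiset.map_cons, Multiset.prod_cons]
      rw [norm_mul, ih (fun z hz => hS z (Multiset.mem_cons_of_mem hz)),
        norm_on_circle a ζ (hS a (Multiset.mem_cons_self a S)) hζ, norm_cc]
      ring
  have h3 : ‖p.eval ζ‖ = p.mahlerMeasure * (p.roots.map (fun z => ‖1 - ww z * ζ‖)).prod := by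
    rw [h1, norm_mul, h2 _ (roots_ne h0), Polynomial.mahlerMeasure_eq_leadingCoeff_mul_prod_roots]
    ring
  have h4 : ∀ S : Multiset ℂ, (∀ z ∈ S, 1 - ww z * ζ ≠ 0) →
      0 < (S.map (fun z => ‖1 - ww z * ζ‖)).prod ∧
      Real.log (S.map (fun z => ‖1 - ww z * ζ‖)).prod = (S.map (fun z => Real.log ‖1 - ww z * ζ‖)).sum := by
    intro S hS
    induction S using Multiset.induction_on with
    | empty => simp
    | cons a S ih =>
      simp only [Multiset.map_cons, Multiset.prod_cons, Multiset.sum_cons]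
      obtain ⟨h5, h6⟩ := ih (fun z hz => hS z (Multiset.mem_cons_of_mem hz))
      have h7 : 0 < ‖1 - ww a * ζ‖ := norm_pos_iff.mpr (hS a (Multiset.mem_cons_self a S))
      exact ⟨mul_pos h7 h5, by rw [Real.log_mul h7.ne' h5.ne', h6]⟩
  obtain ⟨h5, h6⟩ := h4 _ hne
  rw [h3, Real.log_mul (Polynomial.mahlerMeasure_pos_of_ne_zero hp).ne' h5.ne', h6]

/-- Fourier coefficients of `log |p|` -/
theorem fourier_poly (h0 : p.coeff 0 ≠ 0) (m : ℕ) (hm : 1 ≤ m) :
    ∫ θ, (Real.log ‖p.eval (zz θ)‖ : ℂ) * (zz θ) ^ (-(m : ℤ)) ∂mu =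
      (Real.pi / m) * PowerSeries.coeff m (ld (ho p)) := by
  have hae : ∀ S : Multiset ℂ, ∀ᵐ θ ∂mu, ∀ z ∈ S, 1 - ww z * zz θ ≠ 0 := by
    intro S
    induction S using Multiset.induction_on with
    | empty => exact Filter.Eventually.of_forall (fun θ z hz => by simp at hz)
    | cons a S ih =>
      filter_upwards [ih, lin_ne_ae (ww a)] with θ h1 h2 z hz
      rw [Multiset.mem_cons] at hz
      rcases hz with rfl | hz
      · exact h2
      · exact h1 z hz
  have h1 : ∫ θ, (Real.log ‖p.eval (zz θ)‖ : ℂ) * (zz θ) ^ (-(m : ℤ)) ∂mu =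
      ∫ θ, ((Real.log p.mahlerMeasure : ℂ) + ((p.roots.map (fun z => Real.log ‖1 - ww z * zz θ‖)).sum : ℝ)) *
        (zz θ) ^ (-(m : ℤ)) ∂mu := by
    apply integral_congr_ae
    filter_upwards [hae p.roots] with θ hθ
    rw [log_eval p h0 (zz θ) (norm_zz θ) hθ]
    push_cast
    ring
  have h2 : ∀ S : Multiset ℂ, (∀ z ∈ S, ‖ww z‖ ≤ 1) →
      Integrable (fun θ => ((((S.map (fun z => Real.log ‖1 - ww z * zz θ‖)).sum : ℝ) : ℂ) *
        (zz θ) ^ (-(m : ℤ)))) mu ∧
      ∫ θ, (((S.map (fun z => Real.log ‖1 - ww z * zz θ‖)).sum : ℝ) : ℂ) * (zz θ) ^ (-(m : ℤ)) ∂mu =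
        - (Real.pi / m * (S.map (fun z => ww z ^ m)).sum) := by
    intro S hS
    induction S using Multiset.induction_on with
    | empty => simp
    | cons a S ih =>
      obtain ⟨h3, h4⟩ := ih (fun z hz => hS z (Multiset.mem_cons_of_mem hz))
      have h5 : Integrable (fun θ => (Real.log ‖1 - ww a * zz θ‖ : ℂ) * (zz θ) ^ (-(m : ℤ))) mu :=
        U_integrable _ (log_lin_integrable (ww a)) _
      simp only [Multiset.map_cons, Multiset.sum_cons, Complex.ofReal_add, add_mul]
      constructor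
      · exact h5.add h3
      · rw [integral_add h5 h3, h4, fourier_log (ww a) (hS a (Multiset.mem_cons_self a S)) m hm]
        ring
  obtain ⟨h3, h4⟩ := h2 p.roots (fun z _ => norm_ww_le z)
  rw [h1]
  simp_rw [add_mul]
  rw [integral_add ((contC_integrable _ (zpow_continuous _)).const_mul _) h3, h4, integral_const_mul,
    int_zz, if_neg (by omega), mul_zero, zero_add, coeff_ld_ho p m hm]
  ring

end poly

end Pool.Agent.Lib.MP_7ab245_nt.LogVar
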