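import Mathlib
import Pool.Agent.Lib.MP_7ab245_nt.LogVar.Blaschke

/-!
The main inequality: the weighted norm of the logarithmic derivative of `f/g`.
-/

set_option autoImplicit false

open MeasureTheory Finset

namespace Pool.Agent.Lib.MP_7ab245_nt.LogVar

open Pool.Agent.Lib.MP_7ab245_nt.Mono

section cplx

variable (p q : Polynomial ℂ)

noncomputable def UU (θ : ℝ) : ℝ := Real.log ‖p.eval (zz θ)‖ - Real.log ‖q.eval (zz θ)‖

/-- the outer part of the logarithmic derivative -/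
noncomputable def sh : PowerSeries ℂ := - ld (ho p) + ld (ho q)

lemma ident (hp : p.coeff 0 ≠ 0) (hq : q.coeff 0 ≠ 0) :
    (bb p * bb q) * (- ld (p : PowerSeries ℂ) + ld (q : PowerSeries ℂ)) =
      (bb p * bb q) * sh p q - bb q * (PowerSeries.X * PowerSeries.derivative ℂ (bb p)) +
        bb p * (PowerSeries.X * PowerSeries.derivative ℂ (bb q)) := by
  rw [ld_poly p hp, ld_poly q hq, sh]
  have h1 : bb p * ld (bb p) = PowerSeries.X * PowerSeries.derivative ℂ (bb p) := by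
    unfold ld
    have := PowerSeries.mul_inv_cancel _ (bb_ne p hp)
    calc bb p * (PowerSeries.X * PowerSeries.derivative ℂ (bb p) * (bb p)⁻¹) =
        PowerSeries.X * PowerSeries.derivative ℂ (bb p) * (bb p * (bb p)⁻¹) := by ring
      _ = _ := by rw [this, mul_one]
  have h2 : bb q * ld (bb q) = PowerSeries.X * PowerSeries.derivative ℂ (bb q) := by
    unfold ld
    have := PowerSeries.mul_inv_cancel _ (bb_ne q hq)
    calc bb q * (PowerSeries.X * PowerSeries.derivative ℂ (bb q) * (bb q)⁻¹) =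
        PowerSeries.X * PowerSeries.derivative ℂ (bb q) * (bb q * (bb q)⁻¹) := by ring
      _ = _ := by rw [this, mul_one]
  rw [← h1, ← h2]
  ring

lemma ld_zero (u : PowerSeries ℂ) : PowerSeries.coeff 0 (ld u) = 0 := by
  unfold ld
  rw [mul_assoc, PowerSeries.coeff_zero_X_mul]

lemma sh_zero : PowerSeries.coeff 0 (sh p q) = 0 := by
  rw [sh, map_add, map_neg, ld_zero, ld_zero]; simp

lemma log_eval_integrable : Integrable (fun θ => Real.log ‖p.eval (zz θ)‖) mu := by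
  have h : CircleIntegrable (fun z => Real.log ‖p.eval z‖) 0 1 := p.intervalIntegrable_mahlerMeasure
  exact (circleIntegrable_iff _).mp h

lemma wn_sh_le (hp : p.coeff 0 ≠ 0) (hq : q.coeff 0 ≠ 0)
    (hU2 : Integrable (fun θ => UU p q θ ^ 2) mu) (M : ℕ) :
    wn (sh p q) M ≤ 4 * ((2 * Real.pi)⁻¹ * ∫ θ, UU p q θ ^ 2 ∂mu) := by
  have hpi := Real.pi_pos
  have hU : Integrable (UU p q) mu := (log_eval_integrable p).sub (log_eval_integrable q)
  have h1 := bessel (UU p q) hU hU2 M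
  have h2 : ∀ m ∈ range M, ‖∫ θ, (UU p q θ : ℂ) * (zz θ) ^ (-((m : ℤ) + 1)) ∂mu‖ ^ 2 =
      Real.pi ^ 2 * (‖PowerSeries.coeff (m + 1) (sh p q)‖ ^ 2 * (1 / ((m : ℝ) + 1) ^ 2)) := by
    intro m _
    have h3 : ∫ θ, (UU p q θ : ℂ) * (zz θ) ^ (-((m : ℤ) + 1)) ∂mu =
        -(Real.pi / ((m : ℂ) + 1) * PowerSeries.coeff (m + 1) (sh p q)) := by
      have h4 := fourier_poly p hp (m + 1) (by omega)
      have h5 := fourier_poly q hq (m + 1) (by omega)
      have e1 : (-((m + 1 : ℕ) : ℤ)) = -((m : ℤ) + 1) := by push_cast; ring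
      rw [e1] at h4 h5
      have h6 : ∀ θ, (UU p q θ : ℂ) * (zz θ) ^ (-((m : ℤ) + 1)) =
          (Real.log ‖p.eval (zz θ)‖ : ℂ) * (zz θ) ^ (-((m : ℤ) + 1)) -
          (Real.log ‖q.eval (zz θ)‖ : ℂ) * (zz θ) ^ (-((m : ℤ) + 1)) := by
        intro θ; unfold UU; push_cast; ring
      simp_rw [h6]
      rw [integral_sub (U_integrable _ (log_eval_integrable p) _)
        (U_integrable _ (log_eval_integrable q) _), h4, h5, sh, map_add, map_neg]
      push_cast
      ring
    rw [h3, norm_neg, norm_mul, norm_div, Complex.norm_real, Real.norm_eq_abs, abs_of_pos hpi]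
    have : ‖(((m : ℕ) : ℂ) + 1)‖ = ((m : ℕ) : ℝ) + 1 := by
      have h : (((m : ℕ) : ℂ) + 1) = (((m : ℕ) + 1 : ℕ) : ℂ) := by push_cast; ring
      rw [h, Complex.norm_natCast]; push_cast; ring
    rw [this, mul_pow, div_pow, div_eq_mul_one_div]
    ring
  rw [sum_congr rfl h2, ← mul_sum] at h1
  change Real.pi ^ 2 * wn (sh p q) M ≤ _ at h1
  have h7 : Real.pi ^ 2 * wn (sh p q) M ≤ Real.pi ^ 2 *
      (4 * ((2 * Real.pi)⁻¹ * ∫ θ, UU p q θ ^ 2 ∂mu)) := by
    refine h1.trans (le_of_eq ?_)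
    field_simp
    ring
  exact le_of_mul_le_mul_left h7 (by positivity)

/-- vanishing of the low coefficients -/
lemma W_van (b : PowerSeries ℂ) (d M : ℕ) (hMd : M ≤ d) :
    W M ((b - PowerSeries.C (PowerSeries.coeff 0 b)) * Pd d) = 0 := by
  ext i
  rw [W_apply]
  have : PowerSeries.coeff ((i : ℕ) + 1) ((b - PowerSeries.C (PowerSeries.coeff 0 b)) * Pd d) = 0 := by
    rw [PowerSeries.coeff_mul]
    apply sum_eq_zero
    intro x hx
    rw [HasAntidiagonal.mem_antidiagonal] at hx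
    have hi := i.2
    rcases Nat.eq_zero_or_pos x.1 with h | h
    · rw [h, map_sub, PowerSeries.coeff_zero_C, sub_self, zero_mul]
    · rw [coeff_Pd, if_neg, mul_zero]
      rintro ⟨h1, h2⟩
      have := Nat.le_of_dvd (by omega) h1
      omega
  rw [this]; simp

lemma W_congr (M : ℕ) (a c : PowerSeries ℂ) (h : ∀ i < M + 1, PowerSeries.coeff i a = PowerSeries.coeff i c) :
    W M a = W M c := by
  ext i
  rw [W_apply, W_apply, h _ (by have := i.2; omega)]

theorem main_ineq (hp : p.coeff 0 ≠ 0) (hq : q.coeff 0 ≠ 0)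
    (hU2 : Integrable (fun θ => UU p q θ ^ 2) mu) (D : ℝ)
    (hD : D = (2 * Real.pi)⁻¹ * ∫ θ, UU p q θ ^ 2 ∂mu) (e : ℕ → ℂ) (M K : ℕ) (hK : 1 ≤ K)
    (he : ∀ i < M + 2, PowerSeries.coeff i (- ld (p : PowerSeries ℂ) + ld (q : PowerSeries ℂ)) =
      ∑ d ∈ Icc 1 (M + 1), e d * PowerSeries.coeff i (Pd d)) :
    ‖PowerSeries.coeff 0 (bb p * bb q)‖ *
      ‖W (M + 1) (- ld (p : PowerSeries ℂ) + ld (q : PowerSeries ℂ))‖ ≤
      2 * √D + 2 + √((1 - ‖PowerSeries.coeff 0 (bb p * bb q)‖ ^ 2) * (1 + 2 * Real.log K) +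
        8 / (K : ℝ)) * ∑ d ∈ Icc 1 M, ‖e d‖ := by
  set b := bb p * bb q with hb
  set s := - ld (p : PowerSeries ℂ) + ld (q : PowerSeries ℂ) with hs
  set b0 := PowerSeries.coeff 0 b with hb0
  have hPC : PC b := PC_mul (PC_bb p) (PC_bb q)
  set κ := √((1 - ‖b0‖ ^ 2) * (1 + 2 * Real.log K) + 8 / (K : ℝ)) with hκ
  -- decomposition
  have h1 : b0 • W (M + 1) s = W (M + 1) (b * s) - W (M + 1) ((b - PowerSeries.C b0) * s) := by
    rw [← map_sub, ← map_smul]
    congr 1
    rw [PowerSeries.smul_eq_C_mul]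
    ring
  have h2 : ‖b0‖ * ‖W (M + 1) s‖ ≤ ‖W (M + 1) (b * s)‖ + ‖W (M + 1) ((b - PowerSeries.C b0) * s)‖ := by
    rw [← norm_smul, h1]; exact norm_sub_le _ _
  -- first part
  have h3 : ‖W (M + 1) (b * s)‖ ≤ 2 * √D + 2 := by
    have h4 := ident p q hp hq
    rw [← hb, ← hs] at h4
    rw [h4, map_add, map_sub]
    have h5 : ‖W (M + 1) (b * sh p q)‖ ≤ 2 * √D := by
      refine (norm_W_PC hPC _ (sh_zero p q) _).trans ?_
      have h6 := wn_sh_le p q hp hq hU2 (M + 1)
      rw [← hD, ← norm_W_sq] at h6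
      have h7 : ‖W (M + 1) (sh p q)‖ ≤ √(4 * D) := Real.le_sqrt_of_sq_le h6
      have h8 : √(4 * D) = 2 * √D := by
        rw [Real.sqrt_mul (by norm_num)]
        congr 1
        rw [show (4 : ℝ) = 2 ^ 2 by norm_num, Real.sqrt_sq (by norm_num)]
      rwa [h8] at h7
    have h9 : ∀ u v : PowerSeries ℂ, PC u → PC v →
        ‖W (M + 1) (u * (PowerSeries.X * PowerSeries.derivative ℂ v))‖ ≤ 1 := by
      intro u v hu hv
      refine (norm_W_PC hu _ (PowerSeries.coeff_zero_X_mul _) _).trans (norm_W_deriv hv _)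
    have h10 := h9 (bb q) (bb p) (PC_bb q) (PC_bb p)
    have h11 := h9 (bb p) (bb q) (PC_bb p) (PC_bb q)
    calc _ ≤ ‖W (M + 1) (b * sh p q) - W (M + 1) (bb q * (PowerSeries.X * PowerSeries.derivative ℂ (bb p)))‖ +
          ‖W (M + 1) (bb p * (PowerSeries.X * PowerSeries.derivative ℂ (bb q)))‖ := norm_add_le _ _
      _ ≤ (‖W (M + 1) (b * sh p q)‖ + ‖W (M + 1) (bb q * (PowerSeries.X * PowerSeries.derivative ℂ (bb p)))‖) +
          ‖W (M + 1) (bb p * (PowerSeries.X * PowerSeries.derivative ℂ (bb q)))‖ := by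
          gcongr
          exact norm_sub_le _ _
      _ ≤ 2 * √D + 2 := by linarith
  -- second part
  have h4 : ‖W (M + 1) ((b - PowerSeries.C b0) * s)‖ ≤ κ * ∑ d ∈ Icc 1 M, ‖e d‖ := by
    have h5 : W (M + 1) ((b - PowerSeries.C b0) * s) =
        ∑ d ∈ Icc 1 (M + 1), e d • W (M + 1) ((b - PowerSeries.C b0) * Pd d) := by
      have h6 : W (M + 1) ((b - PowerSeries.C b0) * s) =
          W (M + 1) ((b - PowerSeries.C b0) * ∑ d ∈ Icc 1 (M + 1), e d • Pd d) := by
        apply W_congr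
        apply coeff_mul_congr
        intro i hi
        rw [he i hi, map_sum]
        exact sum_congr rfl (fun d _ => by simp)
      rw [h6, mul_sum, map_sum]
      refine sum_congr rfl (fun d _ => ?_)
      rw [← map_smul, mul_smul_comm]
    rw [h5, sum_Icc_succ_top (by omega), W_van b (M + 1) (M + 1) le_rfl, smul_zero, add_zero]
    refine (norm_sum_le _ _).trans ?_
    rw [mul_sum]
    refine sum_le_sum (fun d hd => ?_)
    rw [norm_smul, mul_comm]
    apply mul_le_mul_of_nonneg_right _ (norm_nonneg _)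
    rw [mem_Icc] at hd
    have h7 := wn_Pd hPC d hd.1 (M + 1) K hK
    rw [← norm_W_sq] at h7
    exact Real.le_sqrt_of_sq_le h7
  linarith

end cplx

end Pool.Agent.Lib.MP_7ab245_nt.LogVar
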