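import Mathlib

/-!
Numerical estimates for the induction.
-/

set_option autoImplicit false

open Real

namespace Pool.Agent.Lib.MP_7ab245_nt.LogVar

lemma Lam_ge {D : ℝ} (hD : 0 ≤ D) : 0.69 ≤ Real.log (2 + D) := by
  have h2 := Real.log_two_gt_d9
  have h3 : Real.log 2 ≤ Real.log (2 + D) := Real.log_le_log (by norm_num) (by linarith)
  linarith

lemma Lam_ge' {D : ℝ} (hD : 0 ≤ D) : Real.log 2 ≤ Real.log (2 + D) :=
  Real.log_le_log (by norm_num) (by linarith)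

lemma Lam_le {D : ℝ} (hD : 0 ≤ D) : Real.log (2 + D) ≤ 2 + D := by
  have := Real.log_le_sub_one_of_pos (by linarith : (0 : ℝ) < 2 + D)
  linarith

lemma num1 {D : ℝ} (hD : 0 ≤ D) (A : ℝ) (hA : A = 2 ^ 30) :
    Real.log (A * (1 + D) * Real.log (2 + D) ^ 2 + 3) ≤ 34 * Real.log (2 + D) := by
  have h1 := Lam_ge hD
  have h1' := Lam_ge' hD
  have h2 := Lam_le hD
  set Λ := Real.log (2 + D) with hΛ
  have hA0 : (0 : ℝ) < A := by rw [hA]; positivity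
  have h3 : A * (1 + D) * Λ ^ 2 + 3 ≤ 2 * A * (2 + D) ^ 3 := by
    have h4 : Λ ^ 2 ≤ (2 + D) ^ 2 := pow_le_pow_left₀ (by linarith) h2 2
    have h5 : A * (1 + D) * Λ ^ 2 ≤ A * (2 + D) * (2 + D) ^ 2 := by gcongr; linarith
    have h6 : (3 : ℝ) ≤ A * (2 + D) ^ 3 := by
      have h7 : (2 : ℝ) ^ 3 ≤ (2 + D) ^ 3 := pow_le_pow_left₀ (by norm_num) (by linarith) 3
      have h8 : (1 : ℝ) ≤ A := by rw [hA]; norm_num
      calc (3 : ℝ) ≤ 1 * 2 ^ 3 := by norm_num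
        _ ≤ A * (2 + D) ^ 3 := mul_le_mul h8 h7 (by norm_num) hA0.le
    have h9 : A * (2 + D) * (2 + D) ^ 2 = A * (2 + D) ^ 3 := by ring
    linarith
  have h10 : 0 < A * (1 + D) * Λ ^ 2 + 3 := by positivity
  have h11 := Real.log_le_log h10 h3
  have h12 : 2 * A * (2 + D) ^ 3 = 2 ^ 31 * (2 + D) ^ 3 := by rw [hA]; ring
  rw [h12, Real.log_mul (by positivity) (by positivity), Real.log_pow, Real.log_pow] at h11
  push_cast at h11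
  linarith

lemma num2 {D : ℝ} (hD : 0 ≤ D) (A : ℝ) (hA : A = 2 ^ 30) (δ : ℝ) (hδ0 : 0 ≤ δ)
    (hδ : δ ≤ 1 / (284 * A ^ 2 * (1 + D) * Real.log (2 + D) ^ 5)) :
    ∃ K : ℕ, 1 ≤ K ∧ √(δ * (1 + 2 * Real.log K) + 8 / (K : ℝ)) *
      (A * (1 + D) * Real.log (2 + D) ^ 2) ≤ √(1 + D) := by
  have h1 := Lam_ge hD
  have h1' := Lam_ge' hD
  have h2 := Lam_le hD
  set Λ := Real.log (2 + D) with hΛ
  have hΛ0 : 0 < Λ := by linarith
  have hA0 : (0 : ℝ) < A := by rw [hA]; positivity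
  have hD1 : (0 : ℝ) < 1 + D := by linarith
  set T := 16 * A ^ 2 * (1 + D) * Λ ^ 4 with hT
  have hT0 : 0 < T := by positivity
  refine ⟨⌈T⌉₊, Nat.one_le_ceil_iff.mpr hT0, ?_⟩
  have hK1 : T ≤ (⌈T⌉₊ : ℝ) := Nat.le_ceil T
  have hK2 : (⌈T⌉₊ : ℝ) < T + 1 := Nat.ceil_lt_add_one hT0.le
  set K : ℝ := (⌈T⌉₊ : ℝ) with hK
  have hK0 : 0 < K := by linarith
  have h3 : 8 / K ≤ 1 / (2 * A ^ 2 * (1 + D) * Λ ^ 4) := by
    calc 8 / K ≤ 8 / T := by gcongr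
      _ = _ := by rw [hT]; field_simp; norm_num
  have h4 : Real.log K ≤ 70 * Λ := by
    have h5 : K ≤ 17 * A ^ 2 * (2 + D) ^ 5 := by
      have h6 : Λ ^ 4 ≤ (2 + D) ^ 4 := pow_le_pow_left₀ hΛ0.le h2 4
      have h7 : T ≤ 16 * A ^ 2 * (2 + D) * (2 + D) ^ 4 := by rw [hT]; gcongr; linarith
      have h8 : (1 : ℝ) ≤ A ^ 2 * (2 + D) ^ 5 := by
        have h7 : (1 : ℝ) ≤ (2 + D) ^ 5 := one_le_pow₀ (by linarith)
        have h8 : (1 : ℝ) ≤ A ^ 2 := by rw [hA]; norm_num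
        calc (1 : ℝ) = 1 * 1 := by norm_num
          _ ≤ A ^ 2 * (2 + D) ^ 5 := mul_le_mul h8 h7 (by norm_num) (by positivity)
      calc K ≤ T + 1 := hK2.le
        _ ≤ 16 * A ^ 2 * (2 + D) * (2 + D) ^ 4 + A ^ 2 * (2 + D) ^ 5 := by linarith
        _ = _ := by ring
    have h9 : 17 * A ^ 2 * (2 + D) ^ 5 ≤ 2 ^ 65 * (2 + D) ^ 5 := by
      have : 17 * A ^ 2 ≤ 2 ^ 65 := by rw [hA]; norm_num
      gcongr
    have h10 := Real.log_le_log hK0 (h5.trans h9)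
    rw [Real.log_mul (by positivity) (by positivity), Real.log_pow, Real.log_pow] at h10
    push_cast at h10
    linarith
  have h5 : δ * (1 + 2 * Real.log K) ≤ 1 / (2 * A ^ 2 * (1 + D) * Λ ^ 4) := by
    calc δ * (1 + 2 * Real.log K) ≤ δ * (142 * Λ) := by
          apply mul_le_mul_of_nonneg_left _ hδ0; linarith
      _ ≤ 1 / (284 * A ^ 2 * (1 + D) * Λ ^ 5) * (142 * Λ) :=
          mul_le_mul_of_nonneg_right hδ (by positivity)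
      _ = _ := by field_simp; norm_num
  have h6 : δ * (1 + 2 * Real.log K) + 8 / K ≤ 1 / (A ^ 2 * (1 + D) * Λ ^ 4) := by
    calc _ ≤ 1 / (2 * A ^ 2 * (1 + D) * Λ ^ 4) + 1 / (2 * A ^ 2 * (1 + D) * Λ ^ 4) := add_le_add h5 h3
      _ = _ := by field_simp; norm_num
  have h7 : √(δ * (1 + 2 * Real.log K) + 8 / K) ≤ √(1 / (A ^ 2 * (1 + D) * Λ ^ 4)) :=
    Real.sqrt_le_sqrt h6
  calc √(δ * (1 + 2 * Real.log K) + 8 / K) * (A * (1 + D) * Λ ^ 2)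
      ≤ √(1 / (A ^ 2 * (1 + D) * Λ ^ 4)) * (A * (1 + D) * Λ ^ 2) :=
        mul_le_mul_of_nonneg_right h7 (by positivity)
    _ = √(1 / (A ^ 2 * (1 + D) * Λ ^ 4)) * √((A * (1 + D) * Λ ^ 2) ^ 2) := by
        rw [Real.sqrt_sq (by positivity)]
    _ = √(1 + D) := by
        rw [← Real.sqrt_mul (by positivity)]
        congr 1
        field_simp

lemma num3 {D : ℝ} (hD : 0 ≤ D) (A : ℝ) (hA : A = 2 ^ 30) (β w κS L : ℝ) (hβ : 1 / 2 ≤ β) (hw : 0 ≤ w)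
    (h : β * w ≤ 2 * √D + 2 + κS) (hκ : κS ≤ √(1 + D)) (hL0 : 0 ≤ L) (hL : L ≤ 34 * Real.log (2 + D)) :
    3000 * L ^ 2 * w ^ 2 ≤ A * (1 + D) * Real.log (2 + D) ^ 2 := by
  have hs1 : √D ≤ √(1 + D) := Real.sqrt_le_sqrt (by linarith)
  have hs2 : 1 ≤ √(1 + D) := Real.one_le_sqrt.mpr (by linarith)
  have hs3 : √(1 + D) ^ 2 = 1 + D := Real.sq_sqrt (by linarith)
  have h1 : w ≤ 10 * √(1 + D) := by
    have h2 : 1 / 2 * w ≤ β * w := mul_le_mul_of_nonneg_right hβ hw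
    linarith
  have h2 : w ^ 2 ≤ 100 * (1 + D) := by
    calc w ^ 2 ≤ (10 * √(1 + D)) ^ 2 := pow_le_pow_left₀ hw h1 2
      _ = _ := by rw [mul_pow, hs3]; norm_num
  have h3 : L ^ 2 ≤ (34 * Real.log (2 + D)) ^ 2 := pow_le_pow_left₀ hL0 hL 2
  calc 3000 * L ^ 2 * w ^ 2 ≤ 3000 * (34 * Real.log (2 + D)) ^ 2 * (100 * (1 + D)) := by gcongr
    _ = (3000 * 34 ^ 2 * 100) * ((1 + D) * Real.log (2 + D) ^ 2) := by ring
    _ ≤ A * ((1 + D) * Real.log (2 + D) ^ 2) := by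
        apply mul_le_mul_of_nonneg_right _ (by positivity)
        rw [hA]; norm_num
    _ = _ := by ring

end Pool.Agent.Lib.MP_7ab245_nt.LogVar
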