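import Mathlib
import Pool.Agent.Lib.MP_7ab245_nt.LogVar.Assembly
import Pool.Agent.Lib.MP_7ab245_nt.LogVar.Numeric
import Pool.Agent.Lib.MP_7ab245_nt.Mono.Tools

/-!
Induction on the exponents of the Euler product and the rigidity theorem in normalised form.
-/

set_option autoImplicit false

open MeasureTheory Finset

namespace Pool.Agent.Lib.MP_7ab245_nt.LogVar

open Pool.Agent.Lib.MP_7ab245_nt.Mono

/-- complexification -/
noncomputable def cx (f : Polynomial ℤ) : Polynomial ℂ := f.map (Int.castRingHom ℂ)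

lemma cx_coeff_zero {f : Polynomial ℤ} (hf : f.coeff 0 = 1) : (cx f).coeff 0 = 1 := by
  unfold cx; rw [Polynomial.coeff_map, hf]; simp

lemma hh_support (f : Polynomial ℤ) (θ : ℝ) :
    hh (fun j : f.support => ((f.coeff j : ℤ) : ℂ)) (fun j => ((j : ℕ) : ℤ)) θ =
      ‖(cx f).eval (zz θ)‖ := by
  unfold hh ls cx
  congr 1
  rw [Polynomial.eval_map, Polynomial.eval₂_eq_sum, Polynomial.sum_def]
  rw [← Finset.sum_coe_sort f.support]
  refine Finset.sum_congr rfl (fun j _ => ?_)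
  rw [zpow_natCast]
  rfl

lemma support_data {f : Polynomial ℤ} (hf : f ≠ 0) : ∃ m : f.support,
    1 ≤ ‖((f.coeff m : ℤ) : ℂ)‖ := by
  obtain ⟨m, hm⟩ := Polynomial.support_nonempty.mpr hf
  refine ⟨⟨m, hm⟩, ?_⟩
  rw [Complex.norm_intCast]
  exact_mod_cast Int.one_le_abs (Polynomial.mem_support_iff.mp hm)

lemma support_inj (f : Polynomial ℤ) : Function.Injective (fun j : f.support => ((j : ℕ) : ℤ)) := by
  intro a b hab
  have h : (((a : ℕ) : ℤ)) = ((b : ℕ) : ℤ) := hab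
  exact Subtype.ext (by exact_mod_cast h)

lemma card_support_pos {f : Polynomial ℤ} (hf : f ≠ 0) : 1 ≤ f.support.card :=
  Finset.card_pos.mpr (Polynomial.support_nonempty.mpr hf)

lemma log_sq_int {f : Polynomial ℤ} (hf : f ≠ 0) :
    Integrable (fun θ => Real.log ‖(cx f).eval (zz θ)‖ ^ 2) mu := by
  obtain ⟨m, hm⟩ := support_data hf
  have h := log_sq_integrable f.support.card (card_support_pos hf) (by simp)
    (fun j : f.support => ((f.coeff j : ℤ) : ℂ)) (fun j => ((j : ℕ) : ℤ)) (support_inj f) m hm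
  simp_rw [hh_support] at h
  exact h

lemma UU_sq_int {f g : Polynomial ℤ} (hf : f ≠ 0) (hg : g ≠ 0) :
    Integrable (fun θ => UU (cx f) (cx g) θ ^ 2) mu := by
  have h1 := ((log_sq_int hf).const_mul 2).add ((log_sq_int hg).const_mul 2)
  have hU : Integrable (UU (cx f) (cx g)) mu := (log_eval_integrable (cx f)).sub (log_eval_integrable (cx g))
  refine h1.mono' (hU.aestronglyMeasurable.pow 2) (Filter.Eventually.of_forall (fun θ => ?_))
  rw [Real.norm_eq_abs, abs_of_nonneg (by positivity)]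
  simp only [UU, Pi.add_apply]
  nlinarith [sq_nonneg (Real.log ‖(cx f).eval (zz θ)‖ + Real.log ‖(cx g).eval (zz θ)‖)]

/-- the integral series `f/g` -/
noncomputable def FF (f g : Polynomial ℤ) : PowerSeries ℤ :=
  (f : PowerSeries ℤ) * PowerSeries.invOfUnit (g : PowerSeries ℤ) 1

lemma FF_mul (f g : Polynomial ℤ) (hg : g.coeff 0 = 1) :
    FF f g * (g : PowerSeries ℤ) = (f : PowerSeries ℤ) := by
  unfold FF
  have h := PowerSeries.mul_invOfUnit (g : PowerSeries ℤ) 1 (by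
    rw [← PowerSeries.coeff_zero_eq_constantCoeff_apply, Polynomial.coeff_coe, hg]; simp)
  rw [mul_assoc, mul_comm (PowerSeries.invOfUnit _ _), h, mul_one]

lemma FF_zero (f g : Polynomial ℤ) (hf : f.coeff 0 = 1) (hg : g.coeff 0 = 1) :
    PowerSeries.coeff 0 (FF f g) = 1 := by
  have h := congrArg (PowerSeries.coeff 0) (FF_mul f g hg)
  rw [PowerSeries.coeff_zero_eq_constantCoeff_apply, map_mul] at h
  rw [← PowerSeries.coeff_zero_eq_constantCoeff_apply (φ := (g : PowerSeries ℤ)),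
    Polynomial.coeff_coe, hg, mul_one, ← PowerSeries.coeff_zero_eq_constantCoeff_apply,
    Polynomial.coeff_coe, hf] at h
  exact h

lemma map_coe (f : Polynomial ℤ) :
    PowerSeries.map (Int.castRingHom ℂ) (f : PowerSeries ℤ) = (cx f : PowerSeries ℂ) := by
  unfold cx
  rw [Polynomial.polynomial_map_coe]

lemma ld_FF (f g : Polynomial ℤ) (hf : f.coeff 0 = 1) (hg : g.coeff 0 = 1) :
    - ld (PowerSeries.map (Int.castRingHom ℂ) (FF f g)) =
      - ld (cx f : PowerSeries ℂ) + ld (cx g : PowerSeries ℂ) := by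
  have h := congrArg (PowerSeries.map (Int.castRingHom ℂ)) (FF_mul f g hg)
  rw [map_mul, map_coe, map_coe] at h
  have hF : PowerSeries.constantCoeff (PowerSeries.map (Int.castRingHom ℂ) (FF f g)) ≠ 0 := by
    rw [← PowerSeries.coeff_zero_eq_constantCoeff_apply, PowerSeries.coeff_map, FF_zero f g hf hg]
    simp
  have hG : PowerSeries.constantCoeff (cx g : PowerSeries ℂ) ≠ 0 := by
    rw [← PowerSeries.coeff_zero_eq_constantCoeff_apply, Polynomial.coeff_coe, cx_coeff_zero hg]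
    exact one_ne_zero
  have h2 := congrArg ld h
  rw [ld_mul hF hG] at h2
  linear_combination -h2

lemma coeff_sig (e : ℕ → ℤ) (M i : ℕ) (hi : i < M) :
    ∑ d ∈ Icc 1 M, (e d : ℂ) * PowerSeries.coeff (i + 1) (Pd d) =
      (((i : ℝ) + 1) * sig (fun d => (e d : ℝ)) (i + 1) : ℝ) := by
  have h1 : ∀ d ∈ Icc 1 M, (e d : ℂ) * PowerSeries.coeff (i + 1) (Pd d) =
      if d ∣ i + 1 then (e d : ℂ) * d else 0 := by
    intro d _
    rw [coeff_Pd]
    by_cases h : d ∣ i + 1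
    · rw [if_pos ⟨h, by omega⟩, if_pos h]
    · rw [if_neg (fun h' => h h'.1), if_neg h, mul_zero]
  rw [sum_congr rfl h1, ← sum_filter]
  have h2 : (Icc 1 M).filter (fun d => d ∣ i + 1) = (i + 1).divisors := by
    ext d
    rw [mem_filter, mem_Icc, Nat.mem_divisors]
    constructor
    · rintro ⟨_, h⟩; exact ⟨h, by omega⟩
    · rintro ⟨h, _⟩
      have := Nat.le_of_dvd (by omega) h
      exact ⟨⟨Nat.pos_of_dvd_of_pos h (by omega), by omega⟩, h⟩
  rw [h2]
  unfold sig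
  rw [mul_sum]
  push_cast
  refine sum_congr rfl (fun d _ => ?_)
  have : ((i : ℂ) + 1) ≠ 0 := by
    have h : (((i : ℕ) : ℂ) + 1) = (((i : ℕ) + 1 : ℕ) : ℂ) := by push_cast; ring
    rw [h]; exact_mod_cast (by omega : i + 1 ≠ 0)
  field_simp

lemma sum_Icc_one (f : ℕ → ℝ) (M : ℕ) : ∑ m ∈ Icc 1 M, f m = ∑ i ∈ range M, f (i + 1) := by
  induction M with
  | zero => simp
  | succ M ih => rw [sum_Icc_succ_top (by omega), ih, sum_range_succ]

lemma norm_W_sig (e : ℕ → ℤ) (M : ℕ) (s : PowerSeries ℂ)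
    (hs : ∀ i < M, PowerSeries.coeff (i + 1) s = ∑ d ∈ Icc 1 M, (e d : ℂ) * PowerSeries.coeff (i + 1) (Pd d)) :
    ‖W M s‖ ^ 2 = ∑ m ∈ Icc 1 M, sig (fun d => (e d : ℝ)) m ^ 2 := by
  rw [norm_W_sq, wn, sum_Icc_one]
  refine sum_congr rfl (fun i hi => ?_)
  rw [mem_range] at hi
  rw [hs i hi, coeff_sig e M i hi, Complex.norm_real, Real.norm_eq_abs, sq_abs]
  field_simp

lemma card_le_sum_sq (e : ℕ → ℤ) (T : Finset ℕ) :
    ((T.filter (fun d => (e d : ℝ) ≠ 0)).card : ℝ) ≤ ∑ d ∈ T, (e d : ℝ) ^ 2 := by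
  rw [card_filter]
  push_cast
  refine sum_le_sum (fun d _ => ?_)
  split_ifs with h
  · have h1 : e d ≠ 0 := by exact_mod_cast h
    have h2 : 1 ≤ (e d) ^ 2 := by
      have := Int.one_le_abs h1
      nlinarith [sq_abs (e d)]
    exact_mod_cast h2
  · positivity

lemma sum_abs_le_sum_sq (e : ℕ → ℤ) (T : Finset ℕ) :
    ∑ d ∈ T, ‖(e d : ℂ)‖ ≤ ∑ d ∈ T, (e d : ℝ) ^ 2 := by
  refine sum_le_sum (fun d _ => ?_)
  rw [Complex.norm_intCast]
  have h : |e d| ≤ (e d) ^ 2 := by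
    rcases eq_or_ne (e d) 0 with h | h
    · simp [h]
    · have := Int.one_le_abs h
      nlinarith [sq_abs (e d)]
  exact_mod_cast h

/-- all partial sums of the squares of the exponents are bounded -/
theorem ex_bound (f g : Polynomial ℤ) (hf : f.coeff 0 = 1) (hg : g.coeff 0 = 1) (D : ℝ)
    (hD : D = (2 * Real.pi)⁻¹ * ∫ θ, UU (cx f) (cx g) θ ^ 2 ∂mu) (A : ℝ) (hA : A = 2 ^ 30)
    (hβ : 1 / 2 ≤ ‖PowerSeries.coeff 0 (bb (cx f) * bb (cx g))‖)
    (hδ : 1 - ‖PowerSeries.coeff 0 (bb (cx f) * bb (cx g))‖ ^ 2 ≤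
      1 / (284 * A ^ 2 * (1 + D) * Real.log (2 + D) ^ 5)) (M : ℕ) :
    ∑ d ∈ Icc 1 M, (ex (FF f g) d : ℝ) ^ 2 ≤ A * (1 + D) * Real.log (2 + D) ^ 2 := by
  have hf0 : f ≠ 0 := by rintro rfl; simp at hf
  have hg0 : g ≠ 0 := by rintro rfl; simp at hg
  have hU2 := UU_sq_int hf0 hg0
  have hD0 : 0 ≤ D := by
    rw [hD]
    apply mul_nonneg (by positivity)
    exact integral_nonneg (fun θ => by positivity)
  have hp : (cx f).coeff 0 ≠ 0 := by rw [cx_coeff_zero hf]; exact one_ne_zero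
  have hq : (cx g).coeff 0 ≠ 0 := by rw [cx_coeff_zero hg]; exact one_ne_zero
  have hPC : PC (bb (cx f) * bb (cx g)) := PC_mul (PC_bb _) (PC_bb _)
  set β := ‖PowerSeries.coeff 0 (bb (cx f) * bb (cx g))‖ with hβdef
  have hδ0 : 0 ≤ 1 - β ^ 2 := by
    have := PC_tail hPC 0
    rw [range_zero, sum_empty] at this
    exact this
  obtain ⟨K, hK1, hK⟩ := num2 hD0 A hA (1 - β ^ 2) hδ0 hδ
  set S := A * (1 + D) * Real.log (2 + D) ^ 2 with hS
  have hLam := Lam_ge hD0
  have hA0 : (0 : ℝ) < A := by rw [hA]; positivity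
  have hS0 : 0 ≤ S := by positivity
  set e : ℕ → ℤ := ex (FF f g) with he
  induction M with
  | zero => simpa using hS0
  | succ M ih =>
    have hcoef : ∀ i < M + 2, PowerSeries.coeff i (- ld (cx f : PowerSeries ℂ) + ld (cx g : PowerSeries ℂ)) =
        ∑ d ∈ Icc 1 (M + 1), (e d : ℂ) * PowerSeries.coeff i (Pd d) := by
      intro i hi
      rw [← ld_FF f g hf hg]
      exact coeff_ld_int (FF f g) (FF_zero f g hf hg) (M + 1) i (by omega)
    have h1 := main_ineq (cx f) (cx g) hp hq hU2 D hD (fun d => (e d : ℂ)) M K hK1 hcoef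
    rw [← hβdef] at h1
    set w := ‖W (M + 1) (- ld (cx f : PowerSeries ℂ) + ld (cx g : PowerSeries ℂ))‖ with hw
    have hw2 : w ^ 2 = ∑ m ∈ Icc 1 (M + 1), sig (fun d => (e d : ℝ)) m ^ 2 :=
      norm_W_sig e (M + 1) _ (fun i hi => hcoef (i + 1) (by omega))
    have h2 : √((1 - β ^ 2) * (1 + 2 * Real.log K) + 8 / (K : ℝ)) * ∑ d ∈ Icc 1 M, ‖(e d : ℂ)‖ ≤
        √(1 + D) := by
      calc _ ≤ √((1 - β ^ 2) * (1 + 2 * Real.log K) + 8 / (K : ℝ)) * S :=
            mul_le_mul_of_nonneg_left ((sum_abs_le_sum_sq e _).trans ih) (Real.sqrt_nonneg _)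
        _ ≤ √(1 + D) := hK
    set N := ((Icc 1 (M + 1)).filter (fun d => (e d : ℝ) ≠ 0)).card with hN
    have h3 := mobius_bound_log (fun d => (e d : ℝ)) (M + 1) N le_rfl
    have hNS : (N : ℝ) ≤ S + 1 := by
      have h4 : N ≤ ((Icc 1 M).filter (fun d => (e d : ℝ) ≠ 0)).card + 1 := by
        rw [hN]
        refine (card_le_card (t := insert (M + 1) ((Icc 1 M).filter (fun d => (e d : ℝ) ≠ 0))) ?_).trans
          (card_insert_le _ _)
        intro d hd
        rw [mem_filter, mem_Icc] at hd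
        rw [mem_insert, mem_filter, mem_Icc]
        rcases Nat.lt_or_ge M d with h | h
        · left; omega
        · right; exact ⟨⟨hd.1.1, h⟩, hd.2⟩
      have h5 := card_le_sum_sq e (Icc 1 M)
      have h6 : (N : ℝ) ≤ ((Icc 1 M).filter (fun d => (e d : ℝ) ≠ 0)).card + 1 := by exact_mod_cast h4
      linarith
    have hL0 : 0 ≤ Real.log ((N : ℝ) + 2) := Real.log_nonneg (by
      have : (0 : ℝ) ≤ N := by positivity
      linarith)
    have hL : Real.log ((N : ℝ) + 2) ≤ 34 * Real.log (2 + D) := by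
      refine (Real.log_le_log (by positivity) ?_).trans (num1 hD0 A hA)
      linarith
    refine h3.trans ?_
    rw [← hw2]
    exact num3 hD0 A hA β w _ _ hβ (norm_nonneg _) h1 h2 hL0 hL

/-- a sequence of integers with bounded sums of squares vanishes eventually -/
lemma eventually_zero (e : ℕ → ℤ) (S : ℝ) (h : ∀ M, ∑ d ∈ Icc 1 M, (e d : ℝ) ^ 2 ≤ S) :
    ∃ N, ∀ d, N < d → e d = 0 := by
  by_contra hcon
  push Not at hcon
  have hinf : Set.Infinite {d : ℕ | 1 ≤ d ∧ e d ≠ 0} := by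
    rw [Set.infinite_iff_exists_gt]
    intro a
    obtain ⟨d, h1, h2⟩ := hcon a
    exact ⟨d, ⟨by omega, h2⟩, h1⟩
  obtain ⟨n, hn⟩ := exists_nat_gt S
  obtain ⟨T, hT, hcard⟩ := hinf.exists_subset_card_eq n
  have h1 : T ⊆ (Icc 1 (T.sup id)).filter (fun d => (e d : ℝ) ≠ 0) := by
    intro d hd
    have h2 := hT hd
    rw [mem_filter, mem_Icc]
    exact ⟨⟨h2.1, Finset.le_sup (f := id) hd⟩, by exact_mod_cast h2.2⟩
  have h3 := card_le_card h1
  have h4 := card_le_sum_sq e (Icc 1 (T.sup id))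
  have h5 := h (T.sup id)
  rw [hcard] at h3
  have h6 : (n : ℝ) ≤ (((Icc 1 (T.sup id)).filter (fun d => (e d : ℝ) ≠ 0)).card : ℝ) := by
    exact_mod_cast h3
  linarith

lemma mahler_one_sub_X_pow (d : ℕ) (hd : 1 ≤ d) :
    ((1 - Polynomial.X ^ d : Polynomial ℤ).map (Int.castRingHom ℂ)).mahlerMeasure = 1 := by
  have h := mahler_binom (d := d) (by omega) (w := 1) (by simp)
  have e1 : ((1 - Polynomial.X ^ d : Polynomial ℤ).map (Int.castRingHom ℂ)) =
      Polynomial.C (-1) * (Polynomial.X ^ d - Polynomial.C 1) := by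
    simp
  rw [e1, Polynomial.mahlerMeasure_mul, h, Polynomial.mahlerMeasure_const]
  simp

lemma mahler_prod_pow (c : ℕ → ℕ) (T : Finset ℕ) (hT : ∀ d ∈ T, 1 ≤ d) :
    ((∏ d ∈ T, (1 - Polynomial.X ^ d : Polynomial ℤ) ^ c d).map (Int.castRingHom ℂ)).mahlerMeasure = 1 := by
  induction T using Finset.induction_on with
  | empty => simp
  | insert a T ha ih =>
    rw [prod_insert ha, Polynomial.map_mul, Polynomial.mahlerMeasure_mul,
      ih (fun d hd => hT d (mem_insert_of_mem hd)), mul_one, Polynomial.map_pow]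
    have h := mahler_one_sub_X_pow a (hT a (mem_insert_self a T))
    generalize (1 - Polynomial.X ^ a : Polynomial ℤ).map (Int.castRingHom ℂ) = P at h
    induction c a with
    | zero => simp
    | succ n ihn => rw [pow_succ, Polynomial.mahlerMeasure_mul, ihn, h, mul_one]

lemma coe_prod_pow (c : ℕ → ℕ) (T : Finset ℕ) :
    ((∏ d ∈ T, (1 - Polynomial.X ^ d : Polynomial ℤ) ^ c d : Polynomial ℤ) : PowerSeries ℤ) =
      ∏ d ∈ T, (1 - PowerSeries.X ^ d : PowerSeries ℤ) ^ c d := by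
  rw [← Polynomial.coeToPowerSeries.ringHom_apply, map_prod]
  refine prod_congr rfl (fun d _ => ?_)
  rw [map_pow, map_sub, map_one, map_pow, Polynomial.coeToPowerSeries.ringHom_apply, Polynomial.coe_X]

/-- the normalised rigidity statement -/
theorem rigidity_norm (f g : Polynomial ℤ) (hf : f.coeff 0 = 1) (hg : g.coeff 0 = 1) (D : ℝ)
    (hD : D = (2 * Real.pi)⁻¹ * ∫ θ, UU (cx f) (cx g) θ ^ 2 ∂mu) (A : ℝ) (hA : A = 2 ^ 30)
    (h : Real.log (cx f).mahlerMeasure + Real.log (cx g).mahlerMeasure ≤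
      1 / (568 * A ^ 2) / ((1 + D) * Real.log (2 + D) ^ 5)) :
    ∃ P Q : Polynomial ℤ, (cx P).mahlerMeasure = 1 ∧ (cx Q).mahlerMeasure = 1 ∧ f * P = g * Q := by
  have hf0 : f ≠ 0 := by rintro rfl; simp at hf
  have hg0 : g ≠ 0 := by rintro rfl; simp at hg
  have hD0 : 0 ≤ D := by
    rw [hD]
    apply mul_nonneg (by positivity)
    exact integral_nonneg (fun θ => by positivity)
  have hA0 : (0 : ℝ) < A := by rw [hA]; positivity
  have hLam := Lam_ge hD0
  have hf1 : ‖(cx f).coeff 0‖ = 1 := by rw [cx_coeff_zero hf, norm_one]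
  have hg1 : ‖(cx g).coeff 0‖ = 1 := by rw [cx_coeff_zero hg, norm_one]
  have hcf : (cx f) ≠ 0 := by intro h0; rw [h0] at hf1; simp at hf1
  have hcg : (cx g) ≠ 0 := by intro h0; rw [h0] at hg1; simp at hg1
  have hMf := Polynomial.mahlerMeasure_pos_of_ne_zero hcf
  have hMg := Polynomial.mahlerMeasure_pos_of_ne_zero hcg
  set η := Real.log (cx f).mahlerMeasure + Real.log (cx g).mahlerMeasure with hη
  have hβ : ‖PowerSeries.coeff 0 (bb (cx f) * bb (cx g))‖ = Real.exp (-η) := by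
    rw [PowerSeries.coeff_zero_eq_constantCoeff_apply, map_mul, norm_mul,
      ← PowerSeries.coeff_zero_eq_constantCoeff_apply, ← PowerSeries.coeff_zero_eq_constantCoeff_apply,
      norm_bb_zero _ hf1, norm_bb_zero _ hg1, hη, neg_add, Real.exp_add, Real.exp_neg, Real.exp_neg,
      Real.exp_log hMf, Real.exp_log hMg]
  have hη0 : η ≤ 1 / 4 := by
    refine h.trans ?_
    rw [div_div, div_le_div_iff₀ (by positivity) (by norm_num)]
    have h1 : (1 : ℝ) ≤ 1 + D := by linarith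
    have h2 : (0.1 : ℝ) ≤ Real.log (2 + D) ^ 5 := by
      calc (0.1 : ℝ) ≤ 0.69 ^ 5 := by norm_num
        _ ≤ _ := pow_le_pow_left₀ (by norm_num) hLam 5
    have h3 : (0.1 : ℝ) ≤ (1 + D) * Real.log (2 + D) ^ 5 := by nlinarith
    have h4 : (568 : ℝ) ≤ 568 * A ^ 2 := by
      have : (1 : ℝ) ≤ A ^ 2 := by rw [hA]; norm_num
      linarith
    calc (1 : ℝ) * 4 ≤ 568 * 0.1 := by norm_num
      _ ≤ 568 * A ^ 2 * ((1 + D) * Real.log (2 + D) ^ 5) :=
        mul_le_mul h4 h3 (by norm_num) (by positivity)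
      _ = 1 * (568 * A ^ 2 * ((1 + D) * Real.log (2 + D) ^ 5)) := (one_mul _).symm
  have hexp1 : 1 - η ≤ Real.exp (-η) := by
    have := Real.add_one_le_exp (-η); linarith
  have hexp2 : 1 - 2 * η ≤ Real.exp (-η) ^ 2 := by
    rw [← Real.exp_nat_mul]
    have := Real.add_one_le_exp (((2 : ℕ) : ℝ) * -η)
    push_cast at this ⊢
    linarith
  have hb := ex_bound f g hf hg D hD A hA (by rw [hβ]; linarith) (by
    rw [hβ]
    have h1 : 1 / (568 * A ^ 2) / ((1 + D) * Real.log (2 + D) ^ 5) * 2 =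
        1 / (284 * A ^ 2 * (1 + D) * Real.log (2 + D) ^ 5) := by field_simp; norm_num
    rw [← h1]
    linarith)
  obtain ⟨N, hN⟩ := eventually_zero _ _ hb
  have hR := Rs_eq_one (FF f g) (FF_zero f g hf hg) N hN
  have hprod := Rs_prod (FF f g) N
  rw [hR, one_mul] at hprod
  refine ⟨∏ d ∈ Icc 1 N, (1 - Polynomial.X ^ d) ^ ae (FF f g) d,
    ∏ d ∈ Icc 1 N, (1 - Polynomial.X ^ d) ^ be (FF f g) d,
    mahler_prod_pow _ _ (fun d hd => (mem_Icc.mp hd).1),
    mahler_prod_pow _ _ (fun d hd => (mem_Icc.mp hd).1), ?_⟩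
  apply Polynomial.coe_injective
  rw [Polynomial.coe_mul, Polynomial.coe_mul, coe_prod_pow, coe_prod_pow, ← hprod, ← FF_mul f g hg]
  ring

end Pool.Agent.Lib.MP_7ab245_nt.LogVar
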