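import Mathlib
import Pool.Agent.Lib.MP_7ab245_nt.LogVar.Induct

/-!
The rigidity theorem for two nonzero integer polynomials.
-/

set_option autoImplicit false

open MeasureTheory

namespace Pool.Agent.Lib.MP_7ab245_nt.LogVar

open Pool.Agent.Lib.MP_7ab245_nt.Mono

/-- the mean square of `log |f| - log |g|` on the unit circle -/
noncomputable def DD (f g : Polynomial ℤ) : ℝ :=
  Real.circleAverage (fun z => (Real.log ‖(f.map (Int.castRingHom ℂ)).eval z‖ -
    Real.log ‖(g.map (Int.castRingHom ℂ)).eval z‖) ^ 2) 0 1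

lemma DD_eq (f g : Polynomial ℤ) : DD f g = (2 * Real.pi)⁻¹ * ∫ θ, UU (cx f) (cx g) θ ^ 2 ∂mu := by
  unfold DD
  rw [circleAverage_eq]
  rfl

lemma DD_nonneg (f g : Polynomial ℤ) : 0 ≤ DD f g := by
  rw [DD_eq]
  apply mul_nonneg (by positivity)
  exact integral_nonneg (fun θ => by positivity)

lemma DD_congr (f g f' g' : Polynomial ℤ)
    (hf : ∀ ζ : ℂ, ‖ζ‖ = 1 → ‖(cx f).eval ζ‖ = ‖(cx f').eval ζ‖)
    (hg : ∀ ζ : ℂ, ‖ζ‖ = 1 → ‖(cx g).eval ζ‖ = ‖(cx g').eval ζ‖) : DD f g = DD f' g' := by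
  rw [DD_eq, DD_eq]
  congr 2
  ext θ
  unfold UU
  rw [hf _ (norm_zz θ), hg _ (norm_zz θ)]

lemma mahler_ge_one {f : Polynomial ℤ} (hf : f ≠ 0) : 1 ≤ (cx f).mahlerMeasure := by
  apply Polynomial.one_le_mahlerMeasure_of_one_le_norm_leadingCoeff
  unfold cx
  rw [Polynomial.leadingCoeff_map_of_injective (RingHom.injective_int _)]
  simp only [eq_intCast, Complex.norm_intCast]
  exact_mod_cast Int.one_le_abs (Polynomial.leadingCoeff_ne_zero.mpr hf)

lemma coeff_zero_le_mahler (f : Polynomial ℤ) : |(f.coeff 0 : ℝ)| ≤ (cx f).mahlerMeasure := by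
  have h := Polynomial.norm_coeff_le_choose_mul_mahlerMeasure 0 (cx f)
  rw [Nat.choose_zero_right, Nat.cast_one, one_mul] at h
  have : ‖(cx f).coeff 0‖ = |(f.coeff 0 : ℝ)| := by
    unfold cx
    rw [Polynomial.coeff_map, eq_intCast, Complex.norm_intCast]
  rwa [this] at h

lemma mahler_X_pow (n : ℕ) : (Polynomial.X ^ n : Polynomial ℂ).mahlerMeasure = 1 := by
  have h : (Polynomial.X : Polynomial ℂ).mahlerMeasure = 1 := by
    have := Polynomial.mahlerMeasure_X_sub_C 0
    simpa using this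
  induction n with
  | zero => simp
  | succ n ih => rw [pow_succ, Polynomial.mahlerMeasure_mul, ih, h, one_mul]

/-- normalisation of a nonzero integer polynomial -/
lemma normalise (f : Polynomial ℤ) (hf : f ≠ 0) : Real.log 2 ≤ Real.log (cx f).mahlerMeasure ∨
    ∃ (a : ℕ) (ε : ℤ) (f' : Polynomial ℤ), ε * ε = 1 ∧ f'.coeff 0 = 1 ∧
      f = Polynomial.X ^ a * (Polynomial.C ε * f') ∧ (cx f').mahlerMeasure = (cx f).mahlerMeasure ∧
      ∀ ζ : ℂ, ‖ζ‖ = 1 → ‖(cx f).eval ζ‖ = ‖(cx f').eval ζ‖ := by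
  obtain ⟨h, h1, h2⟩ := Polynomial.exists_eq_pow_rootMultiplicity_mul_and_not_dvd f hf 0
  rw [map_zero, sub_zero] at h1 h2
  set a := f.rootMultiplicity 0 with ha
  have h0 : h.coeff 0 ≠ 0 := fun h3 => h2 (Polynomial.X_dvd_iff.mpr h3)
  have hM : (cx f).mahlerMeasure = (cx h).mahlerMeasure := by
    have : cx f = Polynomial.X ^ a * cx h := by
      conv_lhs => rw [h1]
      unfold cx
      rw [Polynomial.map_mul, Polynomial.map_pow, Polynomial.map_X]
    rw [this, Polynomial.mahlerMeasure_mul]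
    rw [mahler_X_pow, one_mul]
  by_cases hbig : 2 ≤ |h.coeff 0|
  · left
    apply Real.log_le_log (by norm_num)
    rw [hM]
    refine le_trans ?_ (coeff_zero_le_mahler h)
    exact_mod_cast hbig
  · right
    have habs : |h.coeff 0| = 1 := by
      have := Int.one_le_abs h0
      omega
    have hεε : h.coeff 0 * h.coeff 0 = 1 := by
      rw [← abs_mul_abs_self, habs]; norm_num
    refine ⟨a, h.coeff 0, Polynomial.C (h.coeff 0) * h, hεε, ?_, ?_, ?_, ?_⟩
    · rw [Polynomial.coeff_C_mul, hεε]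
    · rw [← mul_assoc (Polynomial.C _), ← Polynomial.C_mul, hεε, Polynomial.C_1, one_mul]
      exact h1
    · rw [hM]
      have e1 : cx (Polynomial.C (h.coeff 0) * h) = Polynomial.C ((h.coeff 0 : ℤ) : ℂ) * cx h := by
        unfold cx
        rw [Polynomial.map_mul, Polynomial.map_C, eq_intCast]
      rw [e1, Polynomial.mahlerMeasure_mul, Polynomial.mahlerMeasure_const, Complex.norm_intCast]
      have : |((h.coeff 0 : ℤ) : ℝ)| = 1 := by exact_mod_cast habs
      rw [this, one_mul]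
    · intro ζ hζ
      have e1 : cx (Polynomial.C (h.coeff 0) * h) = Polynomial.C ((h.coeff 0 : ℤ) : ℂ) * cx h := by
        unfold cx
        rw [Polynomial.map_mul, Polynomial.map_C, eq_intCast]
      have e2 : cx f = Polynomial.X ^ a * cx h := by
        conv_lhs => rw [h1]
        unfold cx
        rw [Polynomial.map_mul, Polynomial.map_pow, Polynomial.map_X]
      rw [e1, e2, Polynomial.eval_mul, Polynomial.eval_mul, Polynomial.eval_pow, Polynomial.eval_X,
        Polynomial.eval_C, norm_mul, norm_mul, norm_pow, hζ, one_pow, one_mul, Complex.norm_intCast]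
      have : |((h.coeff 0 : ℤ) : ℝ)| = 1 := by exact_mod_cast habs
      rw [this, one_mul]

/-- the constant -/
noncomputable def c0 : ℝ := 1 / (568 * (2 ^ 30) ^ 2)

lemma c0_pos : 0 < c0 := by unfold c0; positivity

/-- **Rigidity.** -/
theorem rigidity (f g : Polynomial ℤ) (hf : f ≠ 0) (hg : g ≠ 0) :
    (∃ P Q : Polynomial ℤ, (cx P).mahlerMeasure = 1 ∧ (cx Q).mahlerMeasure = 1 ∧ f * P = g * Q) ∨
    c0 / ((1 + DD f g) * Real.log (2 + DD f g) ^ 5) ≤
      Real.log (cx f).mahlerMeasure + Real.log (cx g).mahlerMeasure := by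
  have hD0 := DD_nonneg f g
  have hLam := Lam_ge hD0
  have hMf := Real.log_nonneg (mahler_ge_one hf)
  have hMg := Real.log_nonneg (mahler_ge_one hg)
  have hsmall : c0 / ((1 + DD f g) * Real.log (2 + DD f g) ^ 5) ≤ Real.log 2 := by
    have h1 : (1 : ℝ) ≤ 1 + DD f g := by linarith
    have h2 : (0.1 : ℝ) ≤ Real.log (2 + DD f g) ^ 5 := by
      calc (0.1 : ℝ) ≤ 0.69 ^ 5 := by norm_num
        _ ≤ _ := pow_le_pow_left₀ (by norm_num) hLam 5
    have h3 : (0.1 : ℝ) ≤ (1 + DD f g) * Real.log (2 + DD f g) ^ 5 := by nlinarith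
    have h4 := Real.log_two_gt_d9
    have h5 : c0 ≤ 0.01 := by unfold c0; norm_num
    calc c0 / ((1 + DD f g) * Real.log (2 + DD f g) ^ 5) ≤ 0.01 / 0.1 := by
          apply div_le_div₀ (by norm_num) h5 (by norm_num) h3
      _ ≤ Real.log 2 := by norm_num; linarith
  rcases normalise f hf with h | ⟨a, ε, f', hε, hf'0, hf', hMf', hnf⟩
  · right; linarith
  rcases normalise g hg with h | ⟨b, ε', g', hε', hg'0, hg', hMg', hng⟩
  · right; linarith
  have hDD : DD f g = DD f' g' := DD_congr f g f' g' hnf hng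
  rcases le_total (Real.log (cx f).mahlerMeasure + Real.log (cx g).mahlerMeasure)
    (c0 / ((1 + DD f g) * Real.log (2 + DD f g) ^ 5)) with h | h
  · left
    obtain ⟨P, Q, hP, hQ, hPQ⟩ := rigidity_norm f' g' hf'0 hg'0 (DD f' g') (DD_eq f' g') (2 ^ 30) rfl (by
      rw [hMf', hMg', ← hDD]; exact h)
    have hXM : ∀ (n : ℕ) (δ : ℤ) (R : Polynomial ℤ), δ * δ = 1 → (cx R).mahlerMeasure = 1 →
        (cx (Polynomial.X ^ n * (Polynomial.C δ * R))).mahlerMeasure = 1 := by
      intro n δ R hδ hR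
      have e1 : cx (Polynomial.X ^ n * (Polynomial.C δ * R)) =
          Polynomial.X ^ n * (Polynomial.C (δ : ℂ) * cx R) := by
        unfold cx
        rw [Polynomial.map_mul, Polynomial.map_mul, Polynomial.map_pow, Polynomial.map_X,
          Polynomial.map_C, eq_intCast]
      rw [e1, Polynomial.mahlerMeasure_mul, mahler_X_pow, one_mul, Polynomial.mahlerMeasure_mul, hR, mul_one,
        Polynomial.mahlerMeasure_const, Complex.norm_intCast]
      have h1 : |δ| * |δ| = 1 := by rw [abs_mul_abs_self]; exact hδ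
      have h2 : |δ| = 1 := by nlinarith [abs_nonneg δ]
      exact_mod_cast h2
    refine ⟨Polynomial.X ^ b * (Polynomial.C ε * P), Polynomial.X ^ a * (Polynomial.C ε' * Q),
      hXM b ε P hε hP, hXM a ε' Q hε' hQ, ?_⟩
    have e1 : (Polynomial.C ε * Polynomial.C ε : Polynomial ℤ) = 1 := by
      rw [← Polynomial.C_mul, hε, Polynomial.C_1]
    have e2 : (Polynomial.C ε' * Polynomial.C ε' : Polynomial ℤ) = 1 := by
      rw [← Polynomial.C_mul, hε', Polynomial.C_1]
    calc f * (Polynomial.X ^ b * (Polynomial.C ε * P)) =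
        Polynomial.X ^ a * Polynomial.X ^ b * (Polynomial.C ε * Polynomial.C ε) * (f' * P) := by
          conv_lhs => rw [hf']
          ring
      _ = Polynomial.X ^ a * Polynomial.X ^ b * (Polynomial.C ε' * Polynomial.C ε') * (g' * Q) := by
          rw [e1, e2, hPQ]
      _ = g * (Polynomial.X ^ a * (Polynomial.C ε' * Q)) := by
          conv_rhs => rw [hg']
          ring
  · right; exact h

end Pool.Agent.Lib.MP_7ab245_nt.LogVar
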