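import Mathlib
import Pool.Agent.Lib.MP_7ab245_nt.LogVar.Rigidity
import Pool.Agent.Lib.MP_7ab245_nt.Mono.Main

/-!
Consequences of the rigidity theorem for polynomials with few monomials.
-/

set_option autoImplicit false

open MeasureTheory Finset

namespace Pool.Agent.Lib.MP_7ab245_nt.LogVar

open Pool.Agent.Lib.MP_7ab245_nt.Mono

/-- the length -/
noncomputable def len (f : Polynomial ℤ) : ℝ := ∑ i ∈ f.support, |(f.coeff i : ℝ)|

lemma len_eq (f : Polynomial ℤ) : ∑ j : f.support, ‖((f.coeff j : ℤ) : ℂ)‖ = len f := by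
  unfold len
  rw [← Finset.sum_coe_sort f.support]
  exact Finset.sum_congr rfl (fun j _ => Complex.norm_intCast _)

lemma one_le_len {f : Polynomial ℤ} (hf : f ≠ 0) : 1 ≤ len f := by
  obtain ⟨m, hm⟩ := support_data hf
  rw [← len_eq]
  exact hm.trans (Finset.single_le_sum (f := fun j : f.support => ‖((f.coeff j : ℤ) : ℂ)‖)
    (fun j _ => norm_nonneg _) (Finset.mem_univ m))

lemma DD_one_le {f : Polynomial ℤ} (hf : f ≠ 0) :
    DD f 1 ≤ Real.log (len f) ^ 2 +
      4 * f.support.card * Real.log (15 * f.support.card) * (Real.log (len f) + 1) := by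
  obtain ⟨m, hm⟩ := support_data hf
  have hlog : ∫ θ, Real.log ‖(cx f).eval (zz θ)‖ ∂mu = 2 * Real.pi * Real.log (cx f).mahlerMeasure := by
    have h1 := Polynomial.logMahlerMeasure_eq_log_MahlerMeasure (p := cx f)
    rw [Polynomial.logMahlerMeasure_def, circleAverage_eq] at h1
    rw [← h1]
    have : (2 * Real.pi) ≠ 0 := by positivity
    field_simp
    rfl
  have h := var_bound f.support.card (card_support_pos hf) (by simp)
    (fun j : f.support => ((f.coeff j : ℤ) : ℂ)) (fun j => ((j : ℕ) : ℤ)) (support_inj f) m hm (by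
      simp_rw [hh_support]
      rw [hlog]
      have := Real.log_nonneg (mahler_ge_one hf)
      positivity)
  simp_rw [hh_support] at h
  rw [len_eq] at h
  rw [DD_eq]
  have h2 : ∀ θ, UU (cx f) (cx 1) θ = Real.log ‖(cx f).eval (zz θ)‖ := by
    intro θ
    unfold UU cx
    simp
  simp_rw [h2]
  rw [inv_mul_le_iff₀ (by positivity)]
  exact h

lemma log_len_le {f : Polynomial ℤ} (hf : f ≠ 0) :
    Real.log (len f) ≤ 3 * (f.support.card * Real.log (15 * f.support.card)) +
      Real.log (cx f).mahlerMeasure := by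
  set k := f.support.card with hk
  have hk1 : 1 ≤ k := card_support_pos hf
  have hkR : (1 : ℝ) ≤ k := by exact_mod_cast hk1
  set M := (cx f).mahlerMeasure with hM
  have hM1 : 1 ≤ M := mahler_ge_one hf
  have hℓ : 0 < Real.log (15 * k) := Real.log_pos (by linarith)
  have h1 : ∀ j : f.support, ‖((f.coeff j : ℤ) : ℂ)‖ ≤ M * (15 * k) ^ (2 * k) := by
    intro j
    have hcj : ((f.coeff j : ℤ) : ℂ) ≠ 0 := by
      exact_mod_cast Polynomial.mem_support_iff.mp j.2
    have h := height_bound k hk1 (by simp [hk]) (fun j : f.support => ((f.coeff j : ℤ) : ℂ))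
      (fun j => ((j : ℕ) : ℤ)) (support_inj f) j hcj
    have h4 : lm (fun j : f.support => f.coeff j) (fun j => ((j : ℕ) : ℤ)) =
      Real.circleAverage (fun z => Real.log ‖ls (fun j : f.support => ((f.coeff j : ℤ) : ℂ))
        (fun j => ((j : ℕ) : ℤ)) z‖) 0 1 := rfl
    rw [← h4, lm_support] at h
    have hpos : 0 < ‖((f.coeff j : ℤ) : ℂ)‖ := norm_pos_iff.mpr hcj
    rw [← Real.log_le_log_iff hpos (by positivity), Real.log_mul (by positivity) (by positivity),
      Real.log_pow]
    push_cast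
    exact h
  have h2 : len f ≤ k * (M * (15 * k) ^ (2 * k)) := by
    rw [← len_eq]
    calc ∑ j : f.support, ‖((f.coeff j : ℤ) : ℂ)‖ ≤ ∑ _j : f.support, M * (15 * k) ^ (2 * k) :=
          Finset.sum_le_sum (fun j _ => h1 j)
      _ = _ := by rw [Finset.sum_const, Finset.card_univ, nsmul_eq_mul]; simp [hk]
  have h3 := Real.log_le_log (by linarith [one_le_len hf] : 0 < len f) h2
  rw [Real.log_mul (by positivity) (by positivity), Real.log_mul (by positivity) (by positivity),
    Real.log_pow] at h3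
  push_cast at h3
  have h5 : Real.log k ≤ Real.log (15 * k) := Real.log_le_log (by linarith) (by linarith)
  nlinarith

/-- lower bounds in terms of the number of monomials and the length -/
theorem monomial_bounds : ∃ c : ℝ, 0 < c ∧ ∀ f : Polynomial ℤ, 1 < (cx f).mahlerMeasure →
    c / (f.support.card * (1 + Real.log (len f)) * Real.log (f.support.card + 1) ^ 6) ≤
      Real.log (cx f).mahlerMeasure ∧
    c / ((f.support.card : ℝ) ^ 2 * Real.log (f.support.card + 1) ^ 7) ≤
      Real.log (cx f).mahlerMeasure := by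
  refine ⟨c0 / 10 ^ 10, by have := c0_pos; positivity, ?_⟩
  intro f hM1
  have hf : f ≠ 0 := by
    rintro rfl
    unfold cx at hM1
    rw [Polynomial.map_zero, Polynomial.mahlerMeasure_zero] at hM1
    linarith
  have hc0 := c0_pos
  set k : ℝ := (f.support.card : ℝ) with hk
  have hk1 : (1 : ℝ) ≤ k := by
    have h := card_support_pos hf
    rw [hk]; exact_mod_cast h
  set M := (cx f).mahlerMeasure with hM
  have hlM : 0 < Real.log M := Real.log_pos hM1
  set B := Real.log (len f) with hB
  have hB0 : 0 ≤ B := Real.log_nonneg (one_le_len hf)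
  set ℓ := Real.log (15 * k) with hℓ
  have hℓ1 : 1 ≤ ℓ := by
    rw [hℓ, Real.le_log_iff_exp_le (by positivity)]
    have := Real.exp_one_lt_three
    linarith
  set lk := Real.log (k + 1) with hlk
  have hlk0 : 0.69 ≤ lk := by
    have h2 := Real.log_two_gt_d9
    have h3 : Real.log 2 ≤ lk := Real.log_le_log (by norm_num) (by linarith)
    linarith
  have hllk : ℓ ≤ 5 * lk := by
    have h1 : ℓ = Real.log 15 + Real.log k := by
      rw [hℓ, Real.log_mul (by norm_num) (by positivity)]
    have h2 : Real.log k ≤ lk := Real.log_le_log (by linarith) (by linarith)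
    have h3 : Real.log 15 ≤ 4 * Real.log 2 := by
      rw [show (4 : ℝ) * Real.log 2 = Real.log (2 ^ 4) by rw [Real.log_pow]; norm_num]
      exact Real.log_le_log (by norm_num) (by norm_num)
    have h4 : Real.log 2 ≤ lk := Real.log_le_log (by norm_num) (by linarith)
    linarith
  -- the case of large Mahler measure
  rcases le_total 2 M with hbig | hsm
  · have hlog2 : Real.log 2 ≤ Real.log M := Real.log_le_log (by norm_num) hbig
    have h2 := Real.log_two_gt_d9
    have hc : c0 / 10 ^ 10 ≤ 0.01 := by unfold c0; norm_num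
    have h6 : (0.05 : ℝ) ≤ lk ^ 6 := by
      calc (0.05 : ℝ) ≤ 0.69 ^ 6 := by norm_num
        _ ≤ _ := pow_le_pow_left₀ (by norm_num) hlk0 6
    have h7 : (0.05 : ℝ) ≤ lk ^ 7 := by
      calc (0.05 : ℝ) ≤ 0.69 ^ 7 := by norm_num
        _ ≤ _ := pow_le_pow_left₀ (by norm_num) hlk0 7
    constructor
    · have h8 : (0.05 : ℝ) ≤ k * (1 + B) * lk ^ 6 := by
        have : (1 : ℝ) ≤ k * (1 + B) := by nlinarith
        nlinarith
      calc _ ≤ 0.01 / 0.05 := div_le_div₀ (by norm_num) hc (by norm_num) h8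
        _ ≤ Real.log M := by norm_num; linarith
    · have h8 : (0.05 : ℝ) ≤ k ^ 2 * lk ^ 7 := by
        have : (1 : ℝ) ≤ k ^ 2 := by nlinarith
        nlinarith
      calc _ ≤ 0.01 / 0.05 := div_le_div₀ (by norm_num) hc (by norm_num) h8
        _ ≤ Real.log M := by norm_num; linarith
  -- small Mahler measure
  have hBk : B ≤ 4 * (k * ℓ) := by
    have h1 := log_len_le hf
    rw [← hB, ← hM, ← hk, ← hℓ] at h1
    have h2 : Real.log M ≤ Real.log 2 := Real.log_le_log (by linarith) hsm
    have h3 := Real.log_two_lt_d9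
    nlinarith
  set V := DD f 1 with hV
  have hV0 : 0 ≤ V := DD_nonneg f 1
  have hV1 : V ≤ 8 * (k * ℓ) * (1 + B) := by
    have h1 := DD_one_le hf
    rw [← hB, ← hV, ← hk, ← hℓ] at h1
    have h2 : B ^ 2 ≤ 4 * (k * ℓ) * B := by rw [sq]; exact mul_le_mul_of_nonneg_right hBk hB0
    have h3 : 0 ≤ k * ℓ := by positivity
    nlinarith
  have hkl : 1 ≤ k * ℓ := by nlinarith
  have hVa : 1 + V ≤ 9 * (k * ℓ) * (1 + B) := by nlinarith
  have hℓk : ℓ ≤ 15 * k := by
    have := Real.log_le_sub_one_of_pos (by linarith : (0 : ℝ) < 15 * k)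
    linarith
  have hVb : Real.log (2 + V) ≤ 4 * ℓ := by
    have h1 : 2 + V ≤ (15 * k) ^ 4 := by
      have h2 : 1 + B ≤ 5 * (k * ℓ) := by linarith
      have h3 : 2 + V ≤ 10 * (k * ℓ) * (5 * (k * ℓ)) := by
        have : (k * ℓ) * (1 + B) ≤ (k * ℓ) * (5 * (k * ℓ)) := mul_le_mul_of_nonneg_left h2 (by positivity)
        nlinarith
      have h4 : k * ℓ ≤ k * (15 * k) := mul_le_mul_of_nonneg_left hℓk (by positivity)
      have h5 : (k * ℓ) * (k * ℓ) ≤ (k * (15 * k)) * (k * (15 * k)) := mul_le_mul h4 h4 (by positivity) (by positivity)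
      have h6 : 0 ≤ k ^ 4 := by positivity
      nlinarith
    have h7 := Real.log_le_log (by linarith) h1
    rw [Real.log_pow] at h7
    push_cast at h7
    exact h7
  have hLV : 0 < Real.log (2 + V) := Real.log_pos (by linarith)
  -- rigidity with `g = 1`
  have hmain : c0 / ((1 + V) * Real.log (2 + V) ^ 5) ≤ Real.log M := by
    rcases rigidity f 1 hf one_ne_zero with h | h
    · exfalso
      obtain ⟨P, Q, hP, hQ, hPQ⟩ := h
      have h1 := congrArg (fun R : Polynomial ℤ => (cx R).mahlerMeasure) hPQ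
      simp only [one_mul] at h1
      have h2 : cx (f * P) = cx f * cx P := by unfold cx; rw [Polynomial.map_mul]
      rw [h2, Polynomial.mahlerMeasure_mul, hP, mul_one, hQ] at h1
      rw [← hM] at h1
      linarith
    · have h1 : Real.log (cx (1 : Polynomial ℤ)).mahlerMeasure = 0 := by
        unfold cx; simp
      rw [h1, add_zero] at h
      exact h
  have hden : (1 + V) * Real.log (2 + V) ^ 5 ≤ 9 * (k * ℓ) * (1 + B) * (4 * ℓ) ^ 5 := by
    apply mul_le_mul hVa (pow_le_pow_left₀ hLV.le hVb 5) (by positivity) (by positivity)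
  have hℓ6 : ℓ ^ 6 ≤ (5 * lk) ^ 6 := pow_le_pow_left₀ (by linarith) hllk 6
  have hden2 : 9 * (k * ℓ) * (1 + B) * (4 * ℓ) ^ 5 ≤ 144000000 * (k * (1 + B) * lk ^ 6) := by
    calc 9 * (k * ℓ) * (1 + B) * (4 * ℓ) ^ 5 = 9216 * (k * (1 + B)) * ℓ ^ 6 := by ring
      _ ≤ 9216 * (k * (1 + B)) * (5 * lk) ^ 6 := by gcongr
      _ = 144000000 * (k * (1 + B) * lk ^ 6) := by ring
  have hfirst : c0 / (144000000 * (k * (1 + B) * lk ^ 6)) ≤ Real.log M := by
    refine le_trans ?_ hmain
    exact div_le_div_of_nonneg_left hc0.le (by positivity) (hden.trans hden2)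
  constructor
  · refine le_trans ?_ hfirst
    rw [div_div]
    apply div_le_div_of_nonneg_left hc0.le (by positivity)
    apply mul_le_mul_of_nonneg_right (by norm_num) (by positivity)
  · refine le_trans ?_ hfirst
    rw [div_div]
    apply div_le_div_of_nonneg_left hc0.le (by positivity)
    have h2 : 1 + B ≤ 25 * (k * lk) := by nlinarith
    calc 144000000 * (k * (1 + B) * lk ^ 6) ≤ 144000000 * (k * (25 * (k * lk)) * lk ^ 6) := by gcongr
      _ = 3600000000 * (k ^ 2 * lk ^ 7) := by ring
      _ ≤ 10 ^ 10 * (k ^ 2 * lk ^ 7) := by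
        apply mul_le_mul_of_nonneg_right (by norm_num) (by positivity)

end Pool.Agent.Lib.MP_7ab245_nt.LogVar
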