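import Mathlib
import Pool.Agent.Lib.MP_7ab245_nt.LogVar.Monomial
import Pool.Agent.Lib.MP_7ab245_nt.Mono.Holder

/-!
The mean square of `log |f|` on the unit circle for a polynomial with `k` monomials is at most
`C k^2`, and the resulting lower bound for the Mahler measure in terms of `k`.
-/

set_option autoImplicit false

open MeasureTheory Real Finset

namespace Pool.Agent.Lib.MP_7ab245_nt.LogVar

open Pool.Agent.Lib.MP_7ab245_nt.Mono

/-- the bound for the mean square of `log |f|` -/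
theorem var_bound2 {ι : Type} [Fintype ι] (κ : ℕ) (hκ : 1 ≤ κ) (hcard : Fintype.card ι ≤ κ)
    (c : ι → ℂ) (e : ι → ℤ) (he : Function.Injective e) (m : ι) (hm : 1 ≤ ‖c m‖)
    (hpos : 0 ≤ ∫ θ, Real.log (hh c e θ) ∂mu) :
    ∫ θ, Real.log (hh c e θ) ^ 2 ∂mu ≤ 2 * π * (Real.log (∑ j, ‖c j‖) ^ 2 +
      4 * κ * Real.log (∑ j, ‖c j‖) + 20 * κ ^ 2) := by
  have hκ0 : (0 : ℝ) < κ := by exact_mod_cast hκ
  set A := ∑ j, ‖c j‖ with hAdef
  have hA : 1 ≤ A := hm.trans (Finset.single_le_sum (fun j _ => norm_nonneg (c j)) (Finset.mem_univ m))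
  have hlA : 0 ≤ Real.log A := Real.log_nonneg hA
  set u0 : ℝ := 4 * κ with hu0
  have hu00 : 0 ≤ u0 := by positivity
  obtain ⟨h1, h2⟩ := log_sq_aux κ hκ hcard c e he m hm u0 hu00
  have h3 := integral_mono_ae (log_sq_integrable κ hκ hcard c e he m hm) h1 h2
  have hL := log_integrable c e
  obtain ⟨hN, hN2⟩ := neg_moment2 κ hκ hcard c e he m hm
  have e1 : ∫ θ, (Real.log A ^ 2 + u0 * (max (Real.log (hh c e θ)) 0 - Real.log (hh c e θ)) +
      (2 * κ * u0 + 8 * κ ^ 2) * Real.exp (-u0 / (2 * κ)) * hh c e θ ^ (-(1 / (2 * κ : ℝ)))) ∂mu =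
      2 * π * Real.log A ^ 2 + u0 * (∫ θ, max (Real.log (hh c e θ)) 0 ∂mu - ∫ θ, Real.log (hh c e θ) ∂mu) +
      (2 * κ * u0 + 8 * κ ^ 2) * Real.exp (-u0 / (2 * κ)) * ∫ θ, hh c e θ ^ (-(1 / (2 * κ : ℝ))) ∂mu := by
    have i1 : Integrable (fun θ => max (Real.log (hh c e θ)) 0 - Real.log (hh c e θ)) mu :=
      hL.pos_part.sub hL
    have i2 : Integrable (fun θ => Real.log A ^ 2 + u0 * (max (Real.log (hh c e θ)) 0 -
      Real.log (hh c e θ))) mu := (integrable_const _).add (i1.const_mul u0)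
    rw [integral_add i2 (hN.const_mul _), integral_add (integrable_const _) (i1.const_mul u0),
      integral_const_mul, integral_const_mul, integral_sub hL.pos_part hL, integral_const,
      mu_real_univ, smul_eq_mul]
  rw [e1] at h3
  have h4 : ∫ θ, max (Real.log (hh c e θ)) 0 ∂mu ≤ 2 * π * Real.log A := by
    calc ∫ θ, max (Real.log (hh c e θ)) 0 ∂mu ≤ ∫ _, Real.log A ∂mu := by
          refine integral_mono_ae hL.pos_part (integrable_const _) ?_
          filter_upwards [mu_zero κ hκ hcard c e he m hm] with θ hθ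
          exact max_le (Real.log_le_log hθ (hh_le_sum c e θ)) hlA
      _ = 2 * π * Real.log A := by rw [integral_const, mu_real_univ, smul_eq_mul]
  have h5 : Real.exp (-u0 / (2 * κ)) ≤ 0.1378 := by
    have h51 : -u0 / (2 * κ) = -2 := by rw [hu0]; field_simp; norm_num
    rw [h51, Real.exp_neg, show (2 : ℝ) = 1 + 1 by norm_num, Real.exp_add,
      inv_le_comm₀ (by positivity) (by norm_num)]
    have := Real.exp_one_gt_d9
    nlinarith
  have h6 : (2 * κ * u0 + 8 * κ ^ 2) * Real.exp (-u0 / (2 * κ)) *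
      ∫ θ, hh c e θ ^ (-(1 / (2 * κ : ℝ))) ∂mu ≤ 2 * π * (20 * κ ^ 2) := by
    have hk2 : (0 : ℝ) ≤ κ ^ 2 := by positivity
    calc (2 * κ * u0 + 8 * κ ^ 2) * Real.exp (-u0 / (2 * κ)) *
          ∫ θ, hh c e θ ^ (-(1 / (2 * κ : ℝ))) ∂mu
        ≤ (2 * κ * u0 + 8 * κ ^ 2) * Real.exp (-u0 / (2 * κ)) * (2 * π * 9) :=
          mul_le_mul_of_nonneg_left hN2 (by positivity)
      _ ≤ (2 * κ * u0 + 8 * κ ^ 2) * 0.1378 * (2 * π * 9) := by
          apply mul_le_mul_of_nonneg_right _ (by positivity)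
          exact mul_le_mul_of_nonneg_left h5 (by positivity)
      _ = 2 * π * (19.8432 * κ ^ 2) := by rw [hu0]; ring
      _ ≤ 2 * π * (20 * κ ^ 2) := by
          apply mul_le_mul_of_nonneg_left _ (by positivity)
          nlinarith
  have h10 : u0 * (∫ θ, max (Real.log (hh c e θ)) 0 ∂mu - ∫ θ, Real.log (hh c e θ) ∂mu) ≤
      u0 * (2 * π * Real.log A) := mul_le_mul_of_nonneg_left (by linarith) hu00
  calc ∫ θ, Real.log (hh c e θ) ^ 2 ∂mu ≤ _ := h3
    _ ≤ 2 * π * Real.log A ^ 2 + u0 * (2 * π * Real.log A) + 2 * π * (20 * κ ^ 2) := by linarith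
    _ = _ := by rw [hu0]; ring

lemma DD_one_le2 {f : Polynomial ℤ} (hf : f ≠ 0) :
    DD f 1 ≤ Real.log (len f) ^ 2 +
      4 * f.support.card * Real.log (len f) + 20 * f.support.card ^ 2 := by
  obtain ⟨m, hm⟩ := support_data hf
  have hlog : ∫ θ, Real.log ‖(cx f).eval (zz θ)‖ ∂mu = 2 * Real.pi * Real.log (cx f).mahlerMeasure := by
    have h1 := Polynomial.logMahlerMeasure_eq_log_MahlerMeasure (p := cx f)
    rw [Polynomial.logMahlerMeasure_def, circleAverage_eq] at h1
    rw [← h1]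
    have : (2 * Real.pi) ≠ 0 := by positivity
    field_simp
    rfl
  have h := var_bound2 f.support.card (card_support_pos hf) (by simp)
    (fun j : f.support => ((f.coeff j : ℤ) : ℂ)) (fun j => ((j : ℕ) : ℤ)) (support_inj f) m hm (by
      simp_rw [hh_support]
      rw [hlog]
      have := Real.log_nonneg (mahler_ge_one hf)
      positivity)
  simp_rw [hh_support] at h
  rw [len_eq] at h
  rw [DD_eq]
  have h2 : ∀ θ, UU (cx f) (cx 1) θ = Real.log ‖(cx f).eval (zz θ)‖ := by
    intro θ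
    unfold UU cx
    simp
  simp_rw [h2]
  rw [inv_mul_le_iff₀ (by positivity)]
  exact h

lemma log_len_le2 {f : Polynomial ℤ} (hf : f ≠ 0) :
    Real.log (len f) ≤ 5.4 * f.support.card + Real.log (cx f).mahlerMeasure := by
  set k := f.support.card with hk
  have hk1 : 1 ≤ k := card_support_pos hf
  have hkR : (1 : ℝ) ≤ k := by exact_mod_cast hk1
  set M := (cx f).mahlerMeasure with hM
  have hM1 : 1 ≤ M := mahler_ge_one hf
  have h1 : ∀ j : f.support, ‖((f.coeff j : ℤ) : ℂ)‖ ≤ M * 9 ^ (2 * k) := by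
    intro j
    have hcj : ((f.coeff j : ℤ) : ℂ) ≠ 0 := by
      exact_mod_cast Polynomial.mem_support_iff.mp j.2
    have h := height_bound2 k hk1 (by simp [hk]) (fun j : f.support => ((f.coeff j : ℤ) : ℂ))
      (fun j => ((j : ℕ) : ℤ)) (support_inj f) j hcj
    have h4 : lm (fun j : f.support => f.coeff j) (fun j => ((j : ℕ) : ℤ)) =
      Real.circleAverage (fun z => Real.log ‖ls (fun j : f.support => ((f.coeff j : ℤ) : ℂ))
        (fun j => ((j : ℕ) : ℤ)) z‖) 0 1 := rfl
    rw [← h4, lm_support] at h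
    have hpos : 0 < ‖((f.coeff j : ℤ) : ℂ)‖ := norm_pos_iff.mpr hcj
    rw [← Real.log_le_log_iff hpos (by positivity), Real.log_mul (by positivity) (by positivity),
      Real.log_pow]
    push_cast
    exact h
  have h2 : len f ≤ k * (M * 9 ^ (2 * k)) := by
    rw [← len_eq]
    calc ∑ j : f.support, ‖((f.coeff j : ℤ) : ℂ)‖ ≤ ∑ _j : f.support, M * 9 ^ (2 * k) :=
          Finset.sum_le_sum (fun j _ => h1 j)
      _ = _ := by rw [Finset.sum_const, Finset.card_univ, nsmul_eq_mul]; simp [hk]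
  have h3 := Real.log_le_log (by linarith [one_le_len hf] : 0 < len f) h2
  rw [Real.log_mul (by positivity) (by positivity), Real.log_mul (by positivity) (by positivity),
    Real.log_pow] at h3
  push_cast at h3
  have h5 : Real.log k ≤ k - 1 := Real.log_le_sub_one_of_pos (by linarith)
  have h9 : Real.log 9 ≤ 2.2 := by
    have h3 : Real.log 3 ≤ 1.1 := by
      rw [Real.log_le_iff_le_exp (by norm_num)]
      have h01 : (1.105 : ℝ) ≤ Real.exp 0.1 := by
        have := Real.quadratic_le_exp_of_nonneg (show (0 : ℝ) ≤ 0.1 by norm_num)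
        norm_num at this ⊢
        linarith
      have := Real.exp_one_gt_d9
      have h12 : Real.exp 1.1 = Real.exp 1 * Real.exp 0.1 := by rw [← Real.exp_add]; norm_num
      rw [h12]
      nlinarith
    rw [show (9 : ℝ) = 3 ^ 2 by norm_num, Real.log_pow]
    push_cast
    linarith
  nlinarith

/-- lower bound in terms of the number of monomials -/
theorem monomial_bound5 : ∃ c : ℝ, 0 < c ∧ ∀ f : Polynomial ℤ, 1 < (cx f).mahlerMeasure →
    c / ((f.support.card : ℝ) ^ 2 * Real.log (f.support.card + 1) ^ 5) ≤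
      Real.log (cx f).mahlerMeasure := by
  refine ⟨c0 / 10 ^ 7, by have := c0_pos; positivity, ?_⟩
  intro f hM1
  have hf : f ≠ 0 := by
    rintro rfl
    unfold cx at hM1
    rw [Polynomial.map_zero, Polynomial.mahlerMeasure_zero] at hM1
    linarith
  have hc0 := c0_pos
  set k : ℝ := (f.support.card : ℝ) with hk
  have hk1 : (1 : ℝ) ≤ k := by
    have h := card_support_pos hf
    rw [hk]; exact_mod_cast h
  set M := (cx f).mahlerMeasure with hM
  have hlM : 0 < Real.log M := Real.log_pos hM1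
  set B := Real.log (len f) with hB
  have hB0 : 0 ≤ B := Real.log_nonneg (one_le_len hf)
  set lk := Real.log (k + 1) with hlk
  have hl2 := Real.log_two_gt_d9
  have hlk2 : Real.log 2 ≤ lk := Real.log_le_log (by norm_num) (by linarith)
  have hlk0 : 0.69 ≤ lk := by linarith
  -- the case of large Mahler measure
  rcases le_total 2 M with hbig | hsm
  · have hlog2 : Real.log 2 ≤ Real.log M := Real.log_le_log (by norm_num) hbig
    have hc : c0 / 10 ^ 7 ≤ 0.01 := by unfold c0; norm_num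
    have h5 : (0.05 : ℝ) ≤ lk ^ 5 := by
      calc (0.05 : ℝ) ≤ 0.69 ^ 5 := by norm_num
        _ ≤ _ := pow_le_pow_left₀ (by norm_num) hlk0 5
    have h8 : (0.05 : ℝ) ≤ k ^ 2 * lk ^ 5 := by
      have : (1 : ℝ) ≤ k ^ 2 := by nlinarith
      nlinarith
    calc _ ≤ 0.01 / 0.05 := div_le_div₀ (by norm_num) hc (by norm_num) h8
      _ ≤ Real.log M := by norm_num; linarith
  -- small Mahler measure
  have hBk : B ≤ 6.1 * k := by
    have h1 := log_len_le2 hf
    rw [← hB, ← hM, ← hk] at h1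
    have h2 : Real.log M ≤ Real.log 2 := Real.log_le_log (by linarith) hsm
    have h3 := Real.log_two_lt_d9
    linarith
  set V := DD f 1 with hV
  have hV0 : 0 ≤ V := DD_nonneg f 1
  have hV1 : V ≤ 82 * k ^ 2 := by
    have h1 := DD_one_le2 hf
    rw [← hB, ← hV, ← hk] at h1
    have h2 : B ^ 2 ≤ (6.1 * k) ^ 2 := pow_le_pow_left₀ hB0 hBk 2
    have h3 : k * B ≤ k * (6.1 * k) := mul_le_mul_of_nonneg_left hBk (by linarith)
    nlinarith
  have hVa : 1 + V ≤ 83 * k ^ 2 := by nlinarith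
  have hVb : Real.log (2 + V) ≤ 10 * lk := by
    have h1 : 2 + V ≤ (2 ^ 4 * (k + 1)) ^ 2 := by nlinarith
    have h7 := Real.log_le_log (by linarith) h1
    rw [Real.log_pow, Real.log_mul (by norm_num) (by linarith), Real.log_pow] at h7
    push_cast at h7
    linarith
  have hLV : 0 < Real.log (2 + V) := Real.log_pos (by linarith)
  -- rigidity with `g = 1`
  have hmain : c0 / ((1 + V) * Real.log (2 + V) ^ 5) ≤ Real.log M := by
    rcases rigidity f 1 hf one_ne_zero with h | h
    · exfalso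
      obtain ⟨P, Q, hP, hQ, hPQ⟩ := h
      have h1 := congrArg (fun R : Polynomial ℤ => (cx R).mahlerMeasure) hPQ
      simp only [one_mul] at h1
      have h2 : cx (f * P) = cx f * cx P := by unfold cx; rw [Polynomial.map_mul]
      rw [h2, Polynomial.mahlerMeasure_mul, hP, mul_one, hQ] at h1
      rw [← hM] at h1
      linarith
    · have h1 : Real.log (cx (1 : Polynomial ℤ)).mahlerMeasure = 0 := by
        unfold cx; simp
      rw [h1, add_zero] at h
      exact h
  refine le_trans ?_ hmain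
  rw [div_div]
  apply div_le_div_of_nonneg_left hc0.le (by positivity)
  calc (1 + V) * Real.log (2 + V) ^ 5 ≤ (83 * k ^ 2) * (10 * lk) ^ 5 := by
        apply mul_le_mul hVa (pow_le_pow_left₀ hLV.le hVb 5) (by positivity) (by positivity)
    _ = 8300000 * (k ^ 2 * lk ^ 5) := by ring
    _ ≤ 10 ^ 7 * (k ^ 2 * lk ^ 5) := by
        apply mul_le_mul_of_nonneg_right (by norm_num) (by positivity)

end Pool.Agent.Lib.MP_7ab245_nt.LogVar
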