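import Mathlib
import Pool.Agent.Lib.MP_7ab245_nt.LogVar.Monomial2

/-!
The lower bounds for the Mahler measure in terms of the number of terms and of the length,
combined into one statement.
-/

set_option autoImplicit false

open MeasureTheory Real Finset

namespace Pool.Agent.Lib.MP_7ab245_nt.LogVar

/-- lower bound in terms of the number of monomials and the length -/
theorem monomial_bound_min : ∃ c : ℝ, 0 < c ∧ ∀ f : Polynomial ℤ, 1 < (cx f).mahlerMeasure →
    c / (f.support.card * min (f.support.card : ℝ)
      (Real.log (f.support.card + 1) * (1 + Real.log (len f))) *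
        Real.log (f.support.card + 1) ^ 5) ≤
      Real.log (cx f).mahlerMeasure := by
  obtain ⟨c1, hc1, H1⟩ := monomial_bounds
  obtain ⟨c2, hc2, H2⟩ := monomial_bound5
  refine ⟨min c1 c2, lt_min hc1 hc2, ?_⟩
  intro f hM1
  have hf : f ≠ 0 := by
    rintro rfl
    unfold cx at hM1
    rw [Polynomial.map_zero, Polynomial.mahlerMeasure_zero] at hM1
    linarith
  have h1 := (H1 f hM1).1
  have h2 := H2 f hM1
  set k : ℝ := (f.support.card : ℝ) with hk
  have hk1 : (1 : ℝ) ≤ k := by
    have h := card_support_pos hf
    rw [hk]; exact_mod_cast h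
  have hB0 : 0 ≤ Real.log (len f) := Real.log_nonneg (one_le_len hf)
  have hlk : 0 < Real.log (k + 1) := Real.log_pos (by linarith)
  rcases le_total k (Real.log (k + 1) * (1 + Real.log (len f))) with h | h
  · rw [min_eq_left h]
    refine le_trans ?_ h2
    rw [show k * k * Real.log (k + 1) ^ 5 = k ^ 2 * Real.log (k + 1) ^ 5 by ring]
    exact div_le_div_of_nonneg_right (min_le_right _ _) (by positivity)
  · rw [min_eq_right h]
    refine le_trans ?_ h1
    rw [show k * (Real.log (k + 1) * (1 + Real.log (len f))) * Real.log (k + 1) ^ 5 =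
      k * (1 + Real.log (len f)) * Real.log (k + 1) ^ 6 by ring]
    exact div_le_div_of_nonneg_right (min_le_left _ _) (by positivity)

end Pool.Agent.Lib.MP_7ab245_nt.LogVar
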